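import Pool.Agent.H30.Thk.Bound

/-!
Two-page book embeddings give plane drawings: put the vertices on the `x`-axis and draw each edge
as a half circle above or below the axis, according to its page.
-/

open Set

namespace Pool.Agent.H30.Thk

theorem circ_aux {a b a' b' x : ℝ} (h1 : a < x) (h2 : x < b) (h3 : a' < x) (h4 : x < b')
    (h : (x - a) * (b - x) = (x - a') * (b' - x)) :
    (a = a' ∧ b = b') ∨ (a < a' ∧ a' < b ∧ b < b') ∨ (a' < a ∧ a < b' ∧ b' < b) := by
  rcases lt_trichotomy a a' with h5 | h5 | h5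
  · right; left
    refine ⟨h5, by linarith, ?_⟩
    by_contra h6
    push Not at h6
    nlinarith
  · left
    subst h5
    refine ⟨rfl, ?_⟩
    have : b - x = b' - x := mul_left_cancel₀ (by linarith : x - a ≠ 0) h
    linarith
  · right; right
    refine ⟨h5, by linarith, ?_⟩
    by_contra h6
    push Not at h6
    nlinarith

/-- the half circle from `a` to `b` on the side `σ` -/
noncomputable def arc (a b σ : ℝ) (t : unitInterval) : ℝ × ℝ :=
  (a + (b - a) * t, σ * (|b - a| * Real.sqrt (t * (1 - t))))

theorem arc_cont (a b σ : ℝ) : Continuous (arc a b σ) := by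
  unfold arc
  fun_prop

theorem arc_inj {a b σ : ℝ} (h : a ≠ b) : Function.Injective (arc a b σ) := by
  intro t t' ht
  have h1 : a + (b - a) * (t : ℝ) = a + (b - a) * (t' : ℝ) := congrArg Prod.fst ht
  have h2 : (b - a) * (t : ℝ) = (b - a) * (t' : ℝ) := by linarith
  exact Subtype.ext (mul_left_cancel₀ (sub_ne_zero.2 h.symm) h2)

theorem unit_pos {t : unitInterval} (h : t ≠ 0) : 0 < (t : ℝ) :=
  lt_of_le_of_ne t.2.1 fun h' => h (Subtype.ext h'.symm)

theorem unit_lt {t : unitInterval} (h : t ≠ 1) : (t : ℝ) < 1 :=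
  lt_of_le_of_ne t.2.2 fun h' => h (Subtype.ext h')

theorem arc_snd_pos {a b : ℝ} (h : a ≠ b) {t : unitInterval} (h0 : t ≠ 0) (h1 : t ≠ 1) :
    0 < |b - a| * Real.sqrt (t * (1 - t)) := by
  have := unit_pos h0
  have := unit_lt h1
  apply mul_pos (abs_pos.2 (sub_ne_zero.2 h.symm))
  apply Real.sqrt_pos.2
  apply mul_pos <;> linarith

theorem arc_between {a b : ℝ} (h : a ≠ b) {t : unitInterval} (h0 : t ≠ 0) (h1 : t ≠ 1) :
    min a b < a + (b - a) * t ∧ a + (b - a) * t < max a b := by
  have := unit_pos h0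
  have := unit_lt h1
  rcases lt_or_gt_of_ne h with h | h
  · rw [min_eq_left h.le, max_eq_right h.le]
    constructor <;> nlinarith
  · rw [min_eq_right h.le, max_eq_left h.le]
    constructor <;> nlinarith

theorem arc_sq {a b : ℝ} {t : unitInterval} :
    (|b - a| * Real.sqrt (t * (1 - t))) ^ 2 =
      ((a + (b - a) * t) - min a b) * (max a b - (a + (b - a) * t)) := by
  have h0 := t.2.1
  have h1 := t.2.2
  rw [mul_pow, sq_abs, Real.sq_sqrt (mul_nonneg h0 (by linarith))]
  rcases le_total a b with h | h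
  · rw [min_eq_left h, max_eq_right h]; ring
  · rw [min_eq_right h, max_eq_left h]; ring

/-- **Two-page book embeddings are plane drawings.** -/
theorem Drawable.of_book {V : Type} (H : SimpleGraph V) (pos : V → ℝ)
    (hpos : Function.Injective pos) (top : V → V → Bool)
    (hsym : ∀ u v, H.Adj u v → top u v = top v u)
    (hnc : ∀ u v u' v', H.Adj u v → H.Adj u' v' → top u v = top u' v' →
      pos u < pos u' → pos u' < pos v → pos v < pos v' → False) : Drawable H := by
  have hne : ∀ {u v}, H.Adj u v → pos u ≠ pos v := fun h h' => h.ne (hpos h')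
  refine ⟨fun v => (pos v, 0), fun u v h => hpos (congrArg Prod.fst h),
    fun u v => arc (pos u) (pos v) (if top u v then 1 else -1), ?_, ?_⟩
  · intro u v h
    refine ⟨arc_cont _ _ _, arc_inj (hne h), ?_, ?_, ?_⟩
    · simp [arc]
    · simp [arc]
    · intro t h0 h1 w hw
      have h2 := congrArg Prod.snd hw
      have h3 := arc_snd_pos (hne h) h0 h1
      simp only [arc] at h2
      split_ifs at h2 <;> linarith
  · intro u v u' v' h h' t t' h0 h1 h0' h1' he
    have e1 : pos u + (pos v - pos u) * (t : ℝ) = pos u' + (pos v' - pos u') * (t' : ℝ) :=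
      congrArg Prod.fst he
    have e2 := congrArg Prod.snd he
    simp only [arc] at e2
    have p1 := arc_snd_pos (hne h) h0 h1
    have p2 := arc_snd_pos (hne h') h0' h1'
    have hT : top u v = top u' v' := by
      by_contra hT
      cases hA : top u v <;> cases hB : top u' v'
      · exact hT (by rw [hA, hB])
      · simp only [hA, hB] at e2; norm_num at e2; linarith
      · simp only [hA, hB] at e2; norm_num at e2; linarith
      · exact hT (by rw [hA, hB])
    have e3 : |pos v - pos u| * Real.sqrt (t * (1 - t)) =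
        |pos v' - pos u'| * Real.sqrt (t' * (1 - t')) := by
      rw [hT] at e2
      split_ifs at e2 <;> linarith
    have e4 : ((pos u + (pos v - pos u) * t) - min (pos u) (pos v)) *
        (max (pos u) (pos v) - (pos u + (pos v - pos u) * t)) =
        ((pos u' + (pos v' - pos u') * t') - min (pos u') (pos v')) *
        (max (pos u') (pos v') - (pos u' + (pos v' - pos u') * t')) := by
      rw [← arc_sq, ← arc_sq, e3]
    have b1 := arc_between (hne h) h0 h1
    have b2 := arc_between (hne h') h0' h1'
    rw [← e1] at b2 e4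
    rcases lt_or_gt_of_ne (hne h) with g | g <;> rcases lt_or_gt_of_ne (hne h') with g' | g'
    · rw [min_eq_left g.le, max_eq_right g.le] at b1 e4
      rw [min_eq_left g'.le, max_eq_right g'.le] at b2 e4
      rcases circ_aux b1.1 b1.2 b2.1 b2.2 e4 with k | k | k
      · exact Or.inl ⟨hpos k.1, hpos k.2⟩
      · exact (hnc u v u' v' h h' hT k.1 k.2.1 k.2.2).elim
      · exact (hnc u' v' u v h' h hT.symm k.1 k.2.1 k.2.2).elim
    · rw [min_eq_left g.le, max_eq_right g.le] at b1 e4
      rw [min_eq_right g'.le, max_eq_left g'.le] at b2 e4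
      rcases circ_aux b1.1 b1.2 b2.1 b2.2 e4 with k | k | k
      · exact Or.inr ⟨hpos k.1, hpos k.2⟩
      · exact (hnc u v v' u' h h'.symm (hT.trans (hsym _ _ h')) k.1 k.2.1 k.2.2).elim
      · exact (hnc v' u' u v h'.symm h (hT.trans (hsym _ _ h')).symm k.1 k.2.1 k.2.2).elim
    · rw [min_eq_right g.le, max_eq_left g.le] at b1 e4
      rw [min_eq_left g'.le, max_eq_right g'.le] at b2 e4
      rcases circ_aux b1.1 b1.2 b2.1 b2.2 e4 with k | k | k
      · exact Or.inr ⟨hpos k.2, hpos k.1⟩
      · exact (hnc v u u' v' h.symm h' ((hsym _ _ h).symm.trans hT) k.1 k.2.1 k.2.2).elim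
      · exact (hnc u' v' v u h' h.symm ((hsym _ _ h).symm.trans hT).symm k.1 k.2.1 k.2.2).elim
    · rw [min_eq_right g.le, max_eq_left g.le] at b1 e4
      rw [min_eq_right g'.le, max_eq_left g'.le] at b2 e4
      have hT' : top v u = top v' u' := (hsym _ _ h).symm.trans (hT.trans (hsym _ _ h'))
      rcases circ_aux b1.1 b1.2 b2.1 b2.2 e4 with k | k | k
      · exact Or.inl ⟨hpos k.2, hpos k.1⟩
      · exact (hnc v u v' u' h.symm h'.symm hT' k.1 k.2.1 k.2.2).elim
      · exact (hnc v' u' v u h'.symm h.symm hT'.symm k.1 k.2.1 k.2.2).elim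

end Pool.Agent.H30.Thk
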