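import Pool.Agent.H30.Thk.Topo

/-!
Edge bound for plane-drawable bipartite graphs (drawings by continuous arcs, as in S07383) and the
resulting lower bound for the thickness of `K_{r,s}`.
-/

open Set

namespace Pool.Agent.H30.Thk

/-- Drawability in the plane exactly as in the frozen statement S07383. -/
def Drawable {V : Type} (H : SimpleGraph V) : Prop :=
  ∃ p : V → ℝ × ℝ, Function.Injective p ∧
    ∃ γ : V → V → unitInterval → ℝ × ℝ,
      (∀ u v, H.Adj u v → Continuous (γ u v) ∧ Function.Injective (γ u v) ∧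
        γ u v 0 = p u ∧ γ u v 1 = p v ∧
        ∀ t : unitInterval, t ≠ 0 → t ≠ 1 → ∀ w, γ u v t ≠ p w) ∧
      (∀ u v u' v', H.Adj u v → H.Adj u' v' →
        ∀ t t' : unitInterval, t ≠ 0 → t ≠ 1 → t' ≠ 0 → t' ≠ 1 →
          γ u v t = γ u' v' t' → (u = u' ∧ v = v') ∨ (u = v' ∧ v = u'))

/-- **A plane-drawable bipartite graph on `n` vertices has at most `2n` edges.** -/
theorem Drawable.card_le {R C : Type} [Fintype R] [Fintype C] {H : SimpleGraph (R ⊕ C)}
    (hH : Drawable H) (E : Finset (R × C))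
    (hE : ∀ a b, (a, b) ∈ E → H.Adj (Sum.inl a) (Sum.inr b)) :
    E.card ≤ 2 * (Fintype.card R + Fintype.card C) := by
  obtain ⟨p, hp, γ, h1, h2⟩ := hH
  refine Drawing.card_le (R := R) (C := C) (E := E)
    { p := p
      inj := hp
      γ := fun a b => γ (Sum.inl a) (Sum.inr b)
      cont := fun a b h => (h1 _ _ (hE a b h)).1
      start := fun a b h => (h1 _ _ (hE a b h)).2.2.1
      stop := fun a b h => (h1 _ _ (hE a b h)).2.2.2.1
      avoid := fun a b h => (h1 _ _ (hE a b h)).2.2.2.2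
      disj := ?_ }
  intro a b a' b' h h' t t' ht0 ht1 ht0' ht1' he
  rcases h2 _ _ _ _ (hE a b h) (hE a' b' h') t t' ht0 ht1 ht0' ht1' he with h | h
  · exact ⟨Sum.inl.inj h.1, Sum.inr.inj h.2⟩
  · exact absurd h.1 (by simp)

/-- If `K_{r,s}` is a union of `m` plane-drawable graphs then `r s ≤ 2 m (r + s)`. -/
theorem union_bound {r s m : ℕ} (H : Fin m → SimpleGraph (Fin r ⊕ Fin s))
    (hH : ∀ i, Drawable (H i)) (hU : (⨆ i, H i) = completeBipartiteGraph (Fin r) (Fin s)) :
    r * s ≤ m * (2 * (r + s)) := by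
  classical
  have hE : ∀ i, (Finset.univ.filter fun x : Fin r × Fin s =>
      (H i).Adj (Sum.inl x.1) (Sum.inr x.2)).card ≤ 2 * (r + s) := by
    intro i
    simpa using (hH i).card_le (Finset.univ.filter fun x : Fin r × Fin s =>
      (H i).Adj (Sum.inl x.1) (Sum.inr x.2)) (by
        intro a b h
        exact (Finset.mem_filter.1 h).2)
  have hcov : (Finset.univ : Finset (Fin r × Fin s)) ⊆ Finset.univ.biUnion fun i : Fin m =>
      Finset.univ.filter fun x : Fin r × Fin s => (H i).Adj (Sum.inl x.1) (Sum.inr x.2) := by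
    intro x _
    have : (⨆ i, H i).Adj (Sum.inl x.1) (Sum.inr x.2) := by
      rw [hU]; simp
    rw [SimpleGraph.iSup_adj] at this
    obtain ⟨i, hi⟩ := this
    simp only [Finset.mem_biUnion, Finset.mem_univ, true_and, Finset.mem_filter]
    exact ⟨i, hi⟩
  calc r * s = (Finset.univ : Finset (Fin r × Fin s)).card := by simp
    _ ≤ _ := Finset.card_le_card hcov
    _ ≤ ∑ i : Fin m, (Finset.univ.filter fun x : Fin r × Fin s =>
          (H i).Adj (Sum.inl x.1) (Sum.inr x.2)).card := Finset.card_biUnion_le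
    _ ≤ ∑ _i : Fin m, 2 * (r + s) := Finset.sum_le_sum fun i _ => hE i
    _ = m * (2 * (r + s)) := by simp

end Pool.Agent.H30.Thk
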