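import Pool.Agent.H30.Thk.Lattice

set_option autoImplicit false

/-! # Brick tilings of the plane whose adjacency graph is the triangular lattice -/

namespace Pool.Agent.H30.Thk

open Set Filter Topology

/-- the brick of the point `p` in the tiling with mesh `1 / n` -/
def cell (n : ℕ) (p : Pt) : Set (ℝ × ℝ) :=
  {x | (p.1 : ℝ) ≤ n * x.1 + p.2 / 2 ∧ n * x.1 + p.2 / 2 ≤ p.1 + 1 ∧
    (p.2 : ℝ) ≤ n * x.2 ∧ n * x.2 ≤ p.2 + 1}

theorem exists_cell (n : ℕ) (x : ℝ × ℝ) : ∃ p, x ∈ cell n p := by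
  refine ⟨(⌊(n : ℝ) * x.1 + (⌊(n : ℝ) * x.2⌋ : ℝ) / 2⌋, ⌊(n : ℝ) * x.2⌋), ?_, ?_, ?_, ?_⟩
  · exact Int.floor_le _
  · exact (Int.lt_floor_add_one _).le
  · exact Int.floor_le _
  · exact (Int.lt_floor_add_one _).le

theorem cell_adj {n : ℕ} {p q : Pt} {x : ℝ × ℝ} (hp : x ∈ cell n p) (hq : x ∈ cell n q) :
    p = q ∨ LAdj p q := by
  obtain ⟨p1, p2⟩ := p
  obtain ⟨q1, q2⟩ := q
  obtain ⟨a1, a2, a3, a4⟩ := hp
  obtain ⟨b1, b2, b3, b4⟩ := hq
  simp only at a1 a2 a3 a4 b1 b2 b3 b4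
  generalize (n : ℝ) * x.1 = X at *
  generalize (n : ℝ) * x.2 = Y at *
  have h1 : (p2 : ℝ) ≤ q2 + 1 := by linarith
  have h2 : (q2 : ℝ) ≤ p2 + 1 := by linarith
  have h1' : p2 ≤ q2 + 1 := by exact_mod_cast h1
  have h2' : q2 ≤ p2 + 1 := by exact_mod_cast h2
  have hcases : q2 = p2 ∨ q2 = p2 + 1 ∨ p2 = q2 + 1 := by omega
  rcases hcases with h | h | h
  · subst h
    have h3 : (p1 : ℝ) ≤ q1 + 1 := by linarith
    have h4 : (q1 : ℝ) ≤ p1 + 1 := by linarith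
    have h3' : p1 ≤ q1 + 1 := by exact_mod_cast h3
    have h4' : q1 ≤ p1 + 1 := by exact_mod_cast h4
    have : q1 = p1 ∨ q1 = p1 + 1 ∨ p1 = q1 + 1 := by omega
    rcases this with h | h | h
    · left; rw [h]
    · right; exact ⟨0, Or.inl (by simp [dl, h])⟩
    · right; exact ⟨0, Or.inr (by simp [dl, h])⟩
  · subst h
    push_cast at b1 b2
    have h3 : (2 * q1 : ℝ) ≤ 2 * p1 + 3 := by linarith
    have h4 : (2 * p1 : ℝ) ≤ 2 * q1 + 1 := by linarith
    have h3' : 2 * q1 ≤ 2 * p1 + 3 := by exact_mod_cast h3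
    have h4' : 2 * p1 ≤ 2 * q1 + 1 := by exact_mod_cast h4
    have : q1 = p1 ∨ q1 = p1 + 1 := by omega
    rcases this with h | h
    · right; exact ⟨1, Or.inl (by simp [dl, h])⟩
    · right; exact ⟨2, Or.inl (by simp [dl, h])⟩
  · subst h
    push_cast at a1 a2
    have h3 : (2 * p1 : ℝ) ≤ 2 * q1 + 3 := by linarith
    have h4 : (2 * q1 : ℝ) ≤ 2 * p1 + 1 := by linarith
    have h3' : 2 * p1 ≤ 2 * q1 + 3 := by exact_mod_cast h3
    have h4' : 2 * q1 ≤ 2 * p1 + 1 := by exact_mod_cast h4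
    have : p1 = q1 ∨ p1 = q1 + 1 := by omega
    rcases this with h | h
    · right; exact ⟨1, Or.inr (by simp [dl, h])⟩
    · right; exact ⟨2, Or.inr (by simp [dl, h])⟩

theorem isClosed_cell (n : ℕ) (p : Pt) : IsClosed (cell n p) := by
  have h1 : Continuous fun x : ℝ × ℝ => (n : ℝ) * x.1 + p.2 / 2 := by fun_prop
  have h2 : Continuous fun x : ℝ × ℝ => (n : ℝ) * x.2 := by fun_prop
  exact (isClosed_le continuous_const h1).inter ((isClosed_le h1 continuous_const).inter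
    ((isClosed_le continuous_const h2).inter (isClosed_le h2 continuous_const)))

theorem cell_dist {n : ℕ} (hn : 0 < n) {p : Pt} {x y : ℝ × ℝ} (hx : x ∈ cell n p)
    (hy : y ∈ cell n p) : dist x y ≤ 1 / n := by
  obtain ⟨a1, a2, a3, a4⟩ := hx
  obtain ⟨b1, b2, b3, b4⟩ := hy
  have hn' : (0 : ℝ) < n := by exact_mod_cast hn
  rw [Prod.dist_eq, max_le_iff, Real.dist_eq, Real.dist_eq]
  constructor
  · rw [abs_le]
    constructor
    · rw [← neg_div, div_le_iff₀ hn']; nlinarith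
    · rw [le_div_iff₀ hn']; nlinarith
  · rw [abs_le]
    constructor
    · rw [← neg_div, div_le_iff₀ hn']; nlinarith
    · rw [le_div_iff₀ hn']; nlinarith

/-- the bricks meeting a set -/
def cells (n : ℕ) (S : Set (ℝ × ℝ)) : Set Pt := {p | (cell n p ∩ S).Nonempty}

theorem cells_mono {n : ℕ} {S T : Set (ℝ × ℝ)} (h : S ⊆ T) : cells n S ⊆ cells n T :=
  fun _ ⟨x, hx, hS⟩ => ⟨x, hx, h hS⟩

theorem cells_finite {n : ℕ} {S : Set (ℝ × ℝ)} (hS : Bornology.IsBounded S) :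
    (cells n S).Finite := by
  obtain ⟨r, hr⟩ := hS.subset_closedBall (0 : ℝ × ℝ)
  -- all coordinates are bounded
  obtain ⟨N, hN⟩ := exists_nat_gt (n * r)
  have hb : cells n S ⊆ (Set.Icc (-(2 * N + 3 : ℤ)) (2 * N + 3)) ×ˢ
      (Set.Icc (-(2 * N + 3 : ℤ)) (2 * N + 3)) := by
    rintro ⟨p1, p2⟩ ⟨x, ⟨a1, a2, a3, a4⟩, hx⟩
    have hx' := hr hx
    rw [mem_closedBall_zero_iff, Prod.norm_def, max_le_iff, Real.norm_eq_abs, Real.norm_eq_abs,
      abs_le, abs_le] at hx'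
    obtain ⟨⟨c1, c2⟩, c3, c4⟩ := hx'
    have hn0 : (0 : ℝ) ≤ n := Nat.cast_nonneg n
    have d1 : (n : ℝ) * x.1 ≤ n * r := mul_le_mul_of_nonneg_left c2 hn0
    have d2 : -((n : ℝ) * r) ≤ n * x.1 := by
      have := mul_le_mul_of_nonneg_left c1 hn0; linarith
    have d3 : (n : ℝ) * x.2 ≤ n * r := mul_le_mul_of_nonneg_left c4 hn0
    have d4 : -((n : ℝ) * r) ≤ n * x.2 := by
      have := mul_le_mul_of_nonneg_left c3 hn0; linarith
    simp only at a1 a2 a3 a4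
    have e1 : (p2 : ℝ) ≤ N := by linarith
    have e2 : -(N : ℝ) ≤ p2 + 1 := by linarith
    have e3 : 2 * (p1 : ℝ) ≤ 2 * N + N := by linarith
    have e4 : -(2 * N + N + 1 : ℝ) ≤ 2 * (p1 + 1) := by linarith
    have f1 : p2 ≤ N := by exact_mod_cast e1
    have f2 : -(N : ℤ) ≤ p2 + 1 := by exact_mod_cast e2
    have f3 : 2 * p1 ≤ 2 * N + N := by exact_mod_cast e3
    have f4 : -(2 * N + N + 1 : ℤ) ≤ 2 * (p1 + 1) := by exact_mod_cast e4
    simp only [Set.mem_prod, Set.mem_Icc]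
    refine ⟨⟨?_, ?_⟩, ?_, ?_⟩ <;> omega
  exact Set.Finite.subset ((Set.finite_Icc _ _).prod (Set.finite_Icc _ _)) hb

/-- the bricks meeting a connected set are connected -/
theorem cells_conn {n : ℕ} {S : Set (ℝ × ℝ)} (hS : Bornology.IsBounded S)
    (hc : IsPreconnected S) (A : Set Pt) (hA : A ⊆ cells n S) (hne : A.Nonempty)
    (hneq : (cells n S \ A).Nonempty) : ∃ p ∈ A, ∃ q ∈ cells n S \ A, LAdj p q := by
  have hfin := cells_finite (n := n) hS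
  let U := ⋃ p ∈ A, cell n p
  let W := ⋃ p ∈ cells n S \ A, cell n p
  have hU : IsClosed U := (hfin.subset hA).isClosed_biUnion fun p _ => isClosed_cell n p
  have hW : IsClosed W :=
    (hfin.subset sdiff_subset).isClosed_biUnion fun p _ => isClosed_cell n p
  have hcov : S ⊆ U ∪ W := by
    intro x hx
    obtain ⟨p, hp⟩ := exists_cell n x
    have hpS : p ∈ cells n S := ⟨x, hp, hx⟩
    by_cases hpA : p ∈ A
    · exact Or.inl (mem_biUnion hpA hp)
    · exact Or.inr (mem_biUnion (show p ∈ cells n S \ A from ⟨hpS, hpA⟩) hp)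
  have h1 : (S ∩ U).Nonempty := by
    obtain ⟨p, hp⟩ := hne
    obtain ⟨x, hx, hxS⟩ := hA hp
    exact ⟨x, hxS, mem_biUnion hp hx⟩
  have h2 : (S ∩ W).Nonempty := by
    obtain ⟨p, hp⟩ := hneq
    obtain ⟨x, hx, hxS⟩ := hp.1
    exact ⟨x, hxS, mem_biUnion hp hx⟩
  obtain ⟨x, -, hxU, hxW⟩ := isPreconnected_closed_iff.1 hc U W hU hW hcov h1 h2
  obtain ⟨p, hp, hxp⟩ := mem_iUnion₂.1 hxU
  obtain ⟨q, hq, hxq⟩ := mem_iUnion₂.1 hxW
  refine ⟨p, hp, q, hq, ?_⟩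
  rcases cell_adj hxp hxq with h | h
  · subst h; exact absurd hp hq.2
  · exact h

theorem cells_disjoint {S T : Set (ℝ × ℝ)} (hS : IsCompact S) (hT : IsClosed T)
    (h : Disjoint S T) : ∀ᶠ n : ℕ in atTop, Disjoint (cells n S) (cells n T) := by
  obtain ⟨r, hr, hd⟩ := Metric.exists_pos_forall_lt_edist hS hT h
  obtain ⟨N, hN⟩ := exists_nat_gt (1 / (r : ℝ))
  filter_upwards [eventually_ge_atTop (N + 1)] with n hn
  rw [Set.disjoint_left]
  rintro p ⟨x, hx, hxS⟩ ⟨y, hy, hyT⟩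
  have hn0 : 0 < n := by omega
  have h1 := cell_dist hn0 hx hy
  have h2 := hd x hxS y hyT
  have hr' : (0 : ℝ) < r := by exact_mod_cast hr
  have h3 : (r : ℝ) < dist x y := by
    rw [edist_dist] at h2
    have := ENNReal.toReal_lt_toReal (ENNReal.coe_ne_top) ENNReal.ofReal_ne_top |>.2 h2
    rwa [ENNReal.toReal_ofReal dist_nonneg, ENNReal.coe_toReal] at this
  have h4 : (1 : ℝ) / n < r := by
    rw [div_lt_iff₀ (by exact_mod_cast hn0)]
    rw [div_lt_iff₀ hr'] at hN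
    have : (N : ℝ) ≤ n := by exact_mod_cast (by omega : N ≤ n)
    nlinarith
  linarith

end Pool.Agent.H30.Thk
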