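import Pool.Agent.H30.Thk.Layers

/-!
Every pair (row, column) is joined in some layer.
-/

open Set

set_option linter.unusedSectionVars false
set_option linter.unusedVariables false

namespace Pool.Agent.H30.Thk

open Vx Cont

section

variable {V : Type} [DecidableEq V]

theorem adj_nest_both {c d : V} {G : Cont V} {v : V} (h : G.Ex v) :
    (nest c d G).Adj c v ∧ (nest c d G).Adj d v := ⟨adj_nest_left h.1, adj_nest_right h.2⟩

theorem et_app_left {G H : Cont V} {v : V} (h : v ∈ G.et) : v ∈ (app G H).et := Or.inl h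
theorem eb_app_left {G H : Cont V} {v : V} (h : v ∈ G.eb) : v ∈ (app G H).eb := Or.inl h

end

namespace Dat

variable {k α β : ℕ} (D : Dat k α β)

/-- `v` is adjacent to both vertices of the outer pair of `nest` -/
theorem adj_pair {F : ℕ → Bool → Vx} {m : ℕ} {G : Cont Vx} {v : Vx} (h : G.Ex v) (e : Bool) :
    (nest (F m false) (F m true) G).Adj (F m e) v := by
  cases e
  · exact (adj_nest_both h).1
  · exact (adj_nest_both h).2

theorem ex_pair {F : ℕ → Bool → Vx} {m : ℕ} {G : Cont Vx} (e : Bool) :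
    (nest (F m false) (F m true) G).Ex (F m e) := by
  cases e
  · exact ex_nest_c _ _ _
  · exact ex_nest_d _ _ _

/-! parts of layers -/

theorem le_zc_om {i j w : ℕ} (hw : w < β) (h : D.gz w j = i) : Le (D.om i w) (D.zc i j) :=
  (((le_opt _ h).trans (le_fam (fun w => opt (D.gz w j = i) (D.om i w))
    (List.mem_range.2 hw))).trans (le_app_left _ _)).trans (le_nest _ _ _)

theorem le_lay0_X : Le (nest (X 0 false) (X 0 true) D.XC0) D.lay0 :=
  (le_app_left _ _).trans (le_nest _ _ _)

theorem le_lay0_tri : Le (tri (X 1 false) (X 1 true) y0 (D.H0 false) (D.H0 true)) D.lay0 :=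
  ((le_app_right _ _).trans (le_app_right _ _)).trans (le_nest _ _ _)

theorem le_H0 (e : Bool) : Le (D.H0 e) D.lay0 := by
  refine Le.trans ?_ D.le_lay0_tri
  cases e
  · exact le_tri_left _ _ _ _ _
  · exact le_tri_right _ _ _ _ _

theorem le_lay0_zc {j : ℕ} (hj : j < α) : Le (D.zc 0 j) D.lay0 := by
  have : ∃ e : Bool, j % 2 = e.toNat := by
    rcases Nat.mod_two_eq_zero_or_one j with h | h
    · exact ⟨false, h⟩
    · exact ⟨true, h⟩
  obtain ⟨e, he⟩ := this
  exact (((le_opt _ he).trans (le_fam (fun j => opt (j % 2 = e.toNat) (D.zc 0 j))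
    (List.mem_range.2 hj))).trans (le_app_left _ _)).trans (D.le_H0 e)

theorem le_lay1_X (i : ℕ) : Le (nest (X i false) (X i true) (D.XC i)) (D.lay1 i) :=
  (le_app_left _ _).trans (le_nest _ _ _)

theorem le_lay1_XC (i : ℕ) : Le (D.XC i) (D.lay1 i) := (le_nest _ _ _).trans (D.le_lay1_X i)

theorem le_lay1_tri (i : ℕ) :
    Le (tri (T (b k i) false) (T (b k i) true) z0 (D.GS i false) (D.GS i true)) (D.lay1 i) :=
  (le_app_left _ _).trans (D.le_lay1_XC i)

theorem le_lay1_GS (i : ℕ) (e : Bool) : Le (D.GS i e) (D.lay1 i) := by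
  refine Le.trans ?_ (D.le_lay1_tri i)
  cases e
  · exact le_tri_left _ _ _ _ _
  · exact le_tri_right _ _ _ _ _

theorem le_lay1_zc {i j : ℕ} (hj : j < α) : Le (D.zc i j) (D.lay1 i) :=
  ((le_fam (fun j => D.zc i j) (List.mem_range.2 hj)).trans (le_app_right _ _)).trans
    (le_nest _ _ _)

theorem le_om {i w : ℕ} (hw : w < β) : Le (D.om i w) (D.lay i) := by
  unfold lay
  split
  · rename_i h0
    subst h0
    by_cases h : D.inZ 0 w
    · obtain ⟨j, hj, h⟩ := h
      exact (D.le_zc_om hw h).trans (D.le_lay0_zc hj)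
    · exact ((((le_opt _ h).trans (le_fam (fun w => opt (¬ D.inZ 0 w) (D.om 0 w))
        (List.mem_range.2 hw))).trans (le_app_right _ _)).trans (le_nest _ _ _)).trans
        D.le_lay0_X
  · rename_i h0
    by_cases h : D.inZ i w
    · obtain ⟨j, hj, h⟩ := h
      exact (D.le_zc_om hw h).trans (D.le_lay1_zc hj)
    · by_cases hf : D.fl w = i
      · exact (((le_opt _ (⟨hf, rfl⟩ : D.fl w = i ∧ D.fe w = D.fe w)).trans
          (le_fam (fun w' => opt (D.fl w' = i ∧ D.fe w' = D.fe w) (D.om i w'))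
          (List.mem_range.2 hw))).trans (le_app_left _ _)).trans (D.le_lay1_GS i (D.fe w))
      · exact ((((le_opt _ (⟨h, hf⟩ : ¬ D.inZ i w ∧ D.fl w ≠ i)).trans
          (le_fam (fun w => opt (¬ D.inZ i w ∧ D.fl w ≠ i) (D.om i w))
          (List.mem_range.2 hw))).trans (le_app_left _ _)).trans
          ((le_app_right _ _).trans (le_app_right _ _))).trans (D.le_lay1_XC i)

theorem lay_zero : D.lay 0 = D.lay0 := rfl

theorem lay_pos {i : ℕ} (hi : 1 ≤ i) : D.lay i = D.lay1 i := by
  unfold lay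
  rw [if_neg (by omega)]

/-! coverage -/

/-- covered in some layer -/
def Cov (u v : Vx) : Prop := ∃ i < k, (D.lay i).Adj u v

theorem cov0 {u v : Vx} (h : D.lay0.Adj u v) : D.Cov u v :=
  ⟨0, by have := D.hk; omega, h⟩

theorem cov1 {i : ℕ} (hi : 1 ≤ i) (hik : i < k) {u v : Vx} (h : (D.lay1 i).Adj u v) :
    D.Cov u v := ⟨i, hik, by rw [D.lay_pos hi]; exact h⟩

theorem cov_T_X_same {m : ℕ} (hm : m < k) (e e' : Bool) : D.Cov (T m e) (X m e') := by
  rcases Nat.eq_zero_or_pos m with rfl | hm0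
  · exact D.cov0 (adj_pair (F := T) (ex_app_left (ex_pair (F := X) e')) e)
  · exact D.cov1 hm0 hm (adj_pair (F := T) (ex_app_left (ex_pair (F := X) e')) e)

theorem task_odd {l : ℕ} : task l true = task l false + 1 := by
  simp [task]

/-- `X l e` hangs in `T 0` in layer `0` if its half slot is a task -/
theorem cov_T0_hang {l : ℕ} (hl : 1 ≤ l) (hlk : l < k) {e : Bool} (h : task l e ≤ α) (e' : Bool) :
    D.Cov (T 0 e') (X l e) := by
  refine D.cov0 (adj_pair (F := T) ?_ e')
  rcases Nat.lt_or_ge l 2 with h2 | h2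
  · have : l = 1 := by omega
    subst this
    refine ex_app_right (ex_app_right ?_)
    cases e
    · exact ex_tri_c _ _ _ _ _
    · exact ex_tri_d _ _ _ _ _
  · refine ex_app_right (ex_app_left ?_)
    refine ex_fam (i := l) (List.mem_range.2 hlk) (ex_fam (i := e) (by cases e <;> simp)
      (ex_opt ⟨h2, h⟩ (ex_sgl _)))

theorem ex_XC_T {i m : ℕ} (hm : m < k) (hmi : m ≠ i) {e : Bool} (h : m = 0 → α < task i e) :
    (D.XC i).Ex (T m e) := by
  by_cases hb : m = b k i
  · refine ex_app_left ?_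
    subst hb
    cases e
    · exact ex_tri_c _ _ _ _ _
    · exact ex_tri_d _ _ _ _ _
  · refine ex_app_right (ex_app_left ?_)
    exact ex_fam (i := m) (List.mem_range.2 hm) (ex_fam (i := e) (by cases e <;> simp)
      (ex_opt ⟨hmi, hb, h⟩ (ex_sgl _)))

theorem cov_T_X {m l : ℕ} (hm : m < k) (hl : l < k) (e e' : Bool) : D.Cov (T m e) (X l e') := by
  by_cases hml : m = l
  · subst hml
    exact D.cov_T_X_same hm e e'
  rcases Nat.eq_zero_or_pos l with rfl | hl0
  · -- in layer 0
    refine D.cov0 (Adj.le ?_ D.le_lay0_X)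
    refine Adj.symm (adj_pair (F := X) (ex_app_left ?_) e')
    exact ex_fam (i := m) (List.mem_range.2 hm) (ex_fam (i := e) (by cases e <;> simp)
      (ex_opt (by omega) (ex_sgl _)))
  · rcases Nat.eq_zero_or_pos m with rfl | hm0
    · by_cases h1 : α < task l e
      · refine D.cov1 hl0 hl (Adj.le ?_ (D.le_lay1_X l))
        exact Adj.symm (adj_pair (F := X) (D.ex_XC_T hm hml (fun _ => h1)) e')
      · by_cases h2 : task l e' ≤ α
        · exact D.cov_T0_hang hl0 hl h2 e
        · have h3 : e = false ∧ e' = true ∧ task l false = α := by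
            have := task_odd (l := l)
            cases e <;> cases e' <;> simp at h1 h2 ⊢ <;> omega
          obtain ⟨rfl, rfl, h4⟩ := h3
          refine D.cov1 hl0 hl (Adj.le ?_ (D.le_lay1_X l))
          refine Adj.symm (adj_nest_right (eb_app_left (eb_tri_left ?_)))
          refine Or.inr ?_
          exact (ex_opt h4 (ex_sgl (T 0 false))).2
    · refine D.cov1 hl0 hl (Adj.le ?_ (D.le_lay1_X l))
      exact Adj.symm (adj_pair (F := X) (D.ex_XC_T hm hml (fun h => by omega)) e')

theorem exists_task (D : Dat k α β) {j : ℕ} (hj : j ≤ α) : ∃ i, 1 ≤ i ∧ i < k ∧ ∃ e : Bool,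
    j % 2 = e.toNat ∧ task i e = j := by
  have := D.hk
  have := D.hα
  refine ⟨1 + j / 2, by omega, by omega, ?_⟩
  rcases Nat.mod_two_eq_zero_or_one j with h | h
  · exact ⟨false, h, by simp [task]; omega⟩
  · exact ⟨true, h, by simp [task]; omega⟩

theorem cov_T_Z {m j : ℕ} (hm : m < k) (hj : j < α) (e e' : Bool) : D.Cov (T m e) (Z j e') := by
  rcases Nat.eq_zero_or_pos m with rfl | hm0
  · by_cases h : j % 2 = e.toNat
    · obtain ⟨i, hi, hik, e1, he1, ht⟩ := D.exists_task hj.le
      have he : e1 = e := by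
        cases e <;> cases e1 <;> simp at h he1 <;> first | rfl | omega
      subst he
      refine D.cov1 hi hik (Adj.le ?_ (D.le_lay1_zc hj))
      refine Adj.symm (adj_pair (F := Z) (ex_app_right ?_) e')
      exact ex_fam (i := e1) (by cases e1 <;> simp) (ex_opt ⟨hi, ht⟩ (ex_sgl _))
    · -- in layer 0
      have key : ∀ e1 : Bool, j % 2 = e1.toNat → (D.H0 e1).Ex (Z j e') := fun e1 he1 =>
        ex_app_left (ex_fam (i := j) (List.mem_range.2 hj) (ex_opt he1 (ex_pair (F := Z) e')))
      refine D.cov0 ?_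
      cases e
      · have h1 : j % 2 = true.toNat := by simp at h ⊢; omega
        exact adj_nest_left (Or.inr (Or.inr (Or.inr (key true h1).1)))
      · have h1 : j % 2 = false.toNat := by simp at h ⊢; omega
        exact adj_nest_right (Or.inr (Or.inr (Or.inr (key false h1).2)))
  · exact D.cov1 hm0 hm (adj_pair (F := T) (ex_app_right (ex_fam (i := j)
      (List.mem_range.2 hj) (ex_pair (F := Z) e'))) e)

theorem cov_T_z0 {m : ℕ} (hm : m < k) (e : Bool) : D.Cov (T m e) z0 := by
  have hk := D.hk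
  have hα := D.hα
  rcases Nat.eq_zero_or_pos m with rfl | hm0
  · by_cases h : α % 2 = e.toNat
    · obtain ⟨i, hi, hik, e1, he1, ht⟩ := D.exists_task (le_refl α)
      have he : e1 = e := by
        cases e <;> cases e1 <;> simp at h he1 <;> first | rfl | omega
      subst he
      refine D.cov1 hi hik (Adj.le (Adj.symm ?_) (D.le_lay1_tri i))
      have hx : (D.GS i e1).Ex (T 0 e1) := ex_app_right (ex_opt ht (ex_sgl _))
      cases e1
      · exact adj_tri_left hx.1
      · exact adj_tri_right hx.2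
    · have key : ∀ e1 : Bool, α % 2 = e1.toNat → (D.H0 e1).Ex z0 := fun e1 he1 =>
        ex_app_right (ex_opt he1 (ex_sgl _))
      refine D.cov0 ?_
      cases e
      · have h1 : α % 2 = true.toNat := by simp at h ⊢; omega
        exact adj_nest_left (Or.inr (Or.inr (Or.inr (key true h1).1)))
      · have h1 : α % 2 = false.toNat := by simp at h ⊢; omega
        exact adj_nest_right (Or.inr (Or.inr (Or.inr (key false h1).2)))
  · -- layer `i` with `b i = m`
    have : ∃ i, 1 ≤ i ∧ i < k ∧ b k i = m := by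
      rcases Nat.eq_or_lt_of_le hm0 with h | h
      · exact ⟨k - 1, by omega, by omega, by unfold b; rw [if_neg (by omega)]; exact h⟩
      · exact ⟨m - 1, by omega, by omega, by unfold b; rw [if_pos (by omega)]; omega⟩
    obtain ⟨i, hi, hik, rfl⟩ := this
    refine D.cov1 hi hik (Adj.le (Adj.symm ?_) (D.le_lay1_tri i))
    cases e
    · exact adj_tri_c
    · exact adj_tri_d

theorem cov_W_Z {w j : ℕ} (hw : w < β) (hj : j < α) (e e' : Bool) : D.Cov (W w e) (Z j e') := by
  have h1 := D.gz_lt w hw j hj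
  have h2 : (D.zc (D.gz w j) j).Adj (Z j e') (W w e) := by
    refine adj_pair (F := Z) (ex_app_left ?_) e'
    exact ex_fam (i := w) (List.mem_range.2 hw) (ex_opt rfl (ex_pair (F := W) e))
  refine ⟨D.gz w j, h1, ?_⟩
  unfold lay
  split
  · rename_i h0
    rw [h0] at h2
    exact (h2.symm).le (D.le_lay0_zc hj)
  · exact (h2.symm).le (D.le_lay1_zc hj)

theorem ex_GS_W {w : ℕ} (hw : w < β) (e : Bool) : (D.GS (D.fl w) (D.fe w)).Ex (W w e) :=
  ex_app_left (ex_fam (i := w) (List.mem_range.2 hw) (ex_opt ⟨rfl, rfl⟩ (ex_pair (F := W) e)))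

theorem cov_W_z0 {w : ℕ} (hw : w < β) (e : Bool) : D.Cov (W w e) z0 := by
  refine D.cov1 (D.fl_pos w hw) (D.fl_lt w hw) (Adj.le (Adj.symm ?_) (D.le_lay1_tri (D.fl w)))
  have h := D.ex_GS_W hw e
  cases hf : D.fe w
  · rw [hf] at h; exact adj_tri_left h.1
  · rw [hf] at h; exact adj_tri_right h.2

/-- a row in the pair `W w` in layer `i` -/
theorem cov_slot {l i w : ℕ} (hl : l < k) (hi : i < k) (hw : w < β) {e : Bool} (hil : i ≠ l)
    (h : ¬ (i = 0 ∧ 1 ≤ l ∧ task l e ≤ α)) (hlam : D.lam l e i = w) (e' : Bool) :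
    D.Cov (W w e') (X l e) := by
  refine ⟨i, hi, Adj.le (adj_pair (F := W) ?_ e') (D.le_om hw)⟩
  by_cases h1 : i = 1 ∧ l = 0
  · obtain ⟨rfl, rfl⟩ := h1
    have h2 : D.lam 0 false 1 = w := by
      cases e
      · exact hlam
      · rw [D.lam0]; exact hlam
    refine ex_app_left (ex_opt ⟨rfl, h2⟩ ?_)
    cases e
    · exact ex_tri_c _ _ _ _ _
    · exact ex_tri_d _ _ _ _ _
  · refine ex_app_right (ex_fam (i := l) (List.mem_range.2 hl) (ex_fam (i := e)
      (by cases e <;> simp) (ex_opt ⟨fun h => hil h.symm, h1, h, hlam⟩ (ex_sgl _))))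

theorem cov_W_X {w l : ℕ} (hw : w < β) (hl : l < k) (e' e : Bool) : D.Cov (W w e') (X l e) := by
  by_cases h1 : (∃ j < α, D.gz w j = l) ∨ (D.fl w = l ∧ D.fe w = e)
  · obtain ⟨i, hi, hil, h2, h3⟩ := D.slot l hl e w hw h1
    exact D.cov_slot hl hi hw hil h2 h3 e'
  · have hz : ¬ D.inZ l w := fun h => h1 (Or.inl h)
    rcases Nat.eq_zero_or_pos l with rfl | hl0
    · refine D.cov0 (Adj.le (Adj.symm (adj_pair (F := X) (ex_app_right ?_) e)) D.le_lay0_X)
      exact ex_fam (i := w) (List.mem_range.2 hw) (ex_opt hz (ex_pair (F := W) e'))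
    · refine D.cov1 hl0 hl (Adj.le (Adj.symm ?_) (D.le_lay1_X l))
      by_cases hf : D.fl w = l
      · have h2 : D.fe w ≠ e := fun h => h1 (Or.inr ⟨hf, h⟩)
        have h3 := D.ex_GS_W hw e'
        rw [hf] at h3
        cases e
        · have h4 : D.fe w = true := by simpa using h2
          rw [h4] at h3
          exact adj_nest_left (et_app_left (et_tri_right h3.1))
        · have h4 : D.fe w = false := by simpa using h2
          rw [h4] at h3
          exact adj_nest_right (eb_app_left (eb_tri_left h3.2))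
      · refine adj_pair (F := X) (ex_app_right (ex_app_right (ex_app_left ?_))) e
        exact ex_fam (i := w) (List.mem_range.2 hw) (ex_opt ⟨hz, hf⟩ (ex_pair (F := W) e'))

theorem cov_y0_X {l : ℕ} (hl : l < k) (e : Bool) : D.Cov y0 (X l e) := by
  rcases Nat.lt_or_ge l 2 with h | h
  · rcases Nat.eq_zero_or_pos l with rfl | h0
    · have hk := D.hk
      refine ⟨1, by omega, Adj.le ?_ (D.le_om (i := 1) D.lam0_lt)⟩
      refine Adj.le ?_ ((((le_opt _ (⟨rfl, rfl⟩ : 1 = 1 ∧ D.lam 0 false 1 = D.lam 0 false 1))).trans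
        (le_app_left _ _)).trans (le_nest _ _ _))
      cases e
      · exact adj_tri_c
      · exact adj_tri_d
    · have : l = 1 := by omega
      subst this
      refine D.cov0 (Adj.le ?_ D.le_lay0_tri)
      cases e
      · exact adj_tri_c
      · exact adj_tri_d
  · refine D.cov1 (by omega) hl (Adj.le (Adj.symm ?_) (D.le_lay1_X l))
    exact adj_pair (F := X) (ex_app_right (ex_app_right (ex_app_right (ex_opt h (ex_sgl _))))) e

theorem cov_y0_Z {j : ℕ} (hj : j < α) (e : Bool) : D.Cov y0 (Z j e) := by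
  have key : ∀ e1 : Bool, j % 2 = e1.toNat → (D.H0 e1).Ex (Z j e) := fun e1 he1 =>
    ex_app_left (ex_fam (i := j) (List.mem_range.2 hj) (ex_opt he1 (ex_pair (F := Z) e)))
  refine D.cov0 (Adj.le ?_ D.le_lay0_tri)
  rcases Nat.mod_two_eq_zero_or_one j with h | h
  · exact adj_tri_left (key false h).1
  · exact adj_tri_right (key true h).2

theorem cov_y0_z0 : D.Cov y0 z0 := by
  have key : ∀ e1 : Bool, α % 2 = e1.toNat → (D.H0 e1).Ex z0 := fun e1 he1 =>
    ex_app_right (ex_opt he1 (ex_sgl _))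
  refine D.cov0 (Adj.le ?_ D.le_lay0_tri)
  rcases Nat.mod_two_eq_zero_or_one α with h | h
  · exact adj_tri_left (key false h).1
  · exact adj_tri_right (key true h).2

/-- the rows -/
def IsRow (k α : ℕ) (v : Vx) : Prop :=
  (∃ l e, l < k ∧ v = X l e) ∨ (∃ j e, j < α ∧ v = Z j e) ∨ v = z0

/-- the columns -/
def IsCol (k β : ℕ) (v : Vx) : Prop :=
  (∃ l e, l < k ∧ v = T l e) ∨ (∃ j e, j < β ∧ v = W j e) ∨ v = y0

/-- **All pairs (row, column) are joined in some layer.** -/
theorem cov_all {u v : Vx} (hu : IsRow k α u) (hv : IsCol k β v) : D.Cov v u := by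
  rcases hu with ⟨l, e, hl, rfl⟩ | ⟨j, e, hj, rfl⟩ | rfl <;>
  rcases hv with ⟨m, e', hm, rfl⟩ | ⟨w, e', hw, rfl⟩ | rfl
  · exact D.cov_T_X hm hl _ _
  · exact D.cov_W_X hw hl _ _
  · exact D.cov_y0_X hl _
  · exact D.cov_T_Z hm hj _ _
  · exact D.cov_W_Z hw hj _ _
  · exact D.cov_y0_Z hj _
  · exact D.cov_T_z0 hm _
  · exact D.cov_W_z0 hw _
  · exact D.cov_y0_z0

end Dat

end Pool.Agent.H30.Thk
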