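import Pool.Agent.H30.Thk.Layers

/-!
Existence of the combinatorial data `Dat k α β`.
-/

set_option linter.unusedVariables false

namespace Pool.Agent.H30.Thk

open Finset

/-! ### Generic lemmas -/

theorem exists_le_sum (n : ℕ) (cap : ℕ → ℕ) : ∀ t ≤ ∑ l ∈ range n, cap l,
    ∃ N : ℕ → ℕ, (∀ l, N l ≤ cap l) ∧ ∑ l ∈ range n, N l = t := by
  induction n with
  | zero =>
    intro t ht
    refine ⟨fun _ => 0, fun _ => Nat.zero_le _, ?_⟩
    simp at ht ⊢
    exact ht.symm
  | succ n ih =>
    intro t ht
    rw [sum_range_succ] at ht
    obtain ⟨N, hN, hs⟩ := ih (t - min t (cap n)) (by omega)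
    refine ⟨Function.update N n (min t (cap n)), ?_, ?_⟩
    · intro l
      by_cases h : l = n
      · subst h; simp
      · rw [Function.update_of_ne h]; exact hN l
    · rw [sum_range_succ, Function.update_self, sum_congr rfl (g := N), hs]
      · omega
      · intro l hl
        rw [Function.update_of_ne]
        rintro rfl
        simp at hl

/-- 0/1-matrices with constant column sums, given row sums and one forbidden cell per column -/
theorem greedy (k α : ℕ) (f : ℕ → ℕ) : ∀ (β : ℕ) (N : ℕ → ℕ), (∀ w < β, f w < k) →
    ∑ l ∈ range k, N l = α * β →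
    (∀ l < k, N l + #{w ∈ range β | f w = l} ≤ β) →
    ∃ S : ℕ → Finset ℕ, (∀ w < β, S w ⊆ range k ∧ #(S w) = α ∧ f w ∉ S w) ∧
      ∀ l < k, #{w ∈ range β | l ∈ S w} ≤ N l := by
  intro β
  induction β with
  | zero =>
    intro N _ _ _
    exact ⟨fun _ => ∅, fun w hw => by omega, fun l _ => by simp⟩
  | succ β ih =>
    intro N hf hs hc
    have hF : ∀ l, #{w ∈ range (β + 1) | f w = l} =
        #{w ∈ range β | f w = l} + if f β = l then 1 else 0 := by
      intro l
      rw [range_add_one, filter_insert]
      split
      · rw [card_insert_of_notMem (by simp)]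
      · rfl
    have hFb : ∀ l, #{w ∈ range β | f w = l} ≤ β := fun l =>
      (card_filter_le _ _).trans (by simp)
    let T : Finset ℕ := {l ∈ range k | l ≠ f β ∧ N l + #{w ∈ range (β + 1) | f w = l} = β + 1}
    let Cd : Finset ℕ := {l ∈ range k | l ≠ f β ∧ 0 < N l}
    have hTC : T ⊆ Cd := by
      intro l hl
      simp only [T, Cd, mem_filter] at hl ⊢
      refine ⟨hl.1, hl.2.1, ?_⟩
      have h1 := hF l
      rw [if_neg (fun h => hl.2.1 h.symm)] at h1
      have := hFb l
      have := hl.2.2
      omega
    have hT : #T ≤ α := by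
      have h1 : ∑ l ∈ T, (N l + #{w ∈ range (β + 1) | f w = l}) = #T * (β + 1) := by
        rw [sum_congr rfl (g := fun _ => β + 1), sum_const, smul_eq_mul]
        intro l hl
        exact (mem_filter.1 hl).2.2
      have h2 : ∑ l ∈ T, N l ≤ α * (β + 1) := by
        rw [← hs]
        exact sum_le_sum_of_subset (filter_subset _ _)
      have h3 : ∑ l ∈ T, #{w ∈ range (β + 1) | f w = l} ≤ β := by
        have : ∑ l ∈ T, #{w ∈ range (β + 1) | f w = l} = ∑ l ∈ T, #{w ∈ range β | f w = l} := by
          apply sum_congr rfl
          intro l hl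
          rw [hF, if_neg]
          · rfl
          · exact fun h => (mem_filter.1 hl).2.1 h.symm
        rw [this, ← card_biUnion]
        · calc _ ≤ #(range β) := card_le_card (by
                intro w hw
                simp only [mem_biUnion, mem_filter] at hw
                obtain ⟨_, _, h, _⟩ := hw
                exact h)
            _ = β := card_range β
        · intro a _ b _ hab
          show Disjoint _ _
          rw [disjoint_left]
          intro w h1 h2
          exact hab ((mem_filter.1 h1).2.symm.trans (mem_filter.1 h2).2)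
      rw [sum_add_distrib] at h1
      by_contra hcon
      push Not at hcon
      have : (α + 1) * (β + 1) ≤ #T * (β + 1) := Nat.mul_le_mul_right _ hcon
      nlinarith
    have hC : α ≤ #Cd := by
      have h1 : ∑ l ∈ range k, N l ≤ ∑ l ∈ Cd, N l + N (f β) := by
        have h2 : ∑ l ∈ range k, N l = ∑ l ∈ insert (f β) Cd, N l := by
          symm
          apply sum_subset
          · intro l hl
            rcases mem_insert.1 hl with rfl | hl
            · exact mem_range.2 (hf β (by omega))
            · exact (mem_filter.1 hl).1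
          · intro l hl hl'
            by_contra h0
            apply hl'
            by_cases h : l = f β
            · rw [h]; exact mem_insert_self _ _
            · exact mem_insert_of_mem (mem_filter.2 ⟨hl, h, by omega⟩)
        rw [h2, sum_insert (by simp [Cd])]
        omega
      have h3 : N (f β) ≤ β := by
        have := hc (f β) (hf β (by omega))
        rw [hF, if_pos rfl] at this
        omega
      have h4 : ∑ l ∈ Cd, N l ≤ #Cd * (β + 1) := by
        rw [← smul_eq_mul, ← sum_const]
        apply sum_le_sum
        intro l hl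
        have := hc l (mem_range.1 (mem_filter.1 hl).1)
        omega
      by_contra hcon
      push Not at hcon
      have : #Cd * (β + 1) + (β + 1) ≤ α * (β + 1) := by
        have : (#Cd + 1) * (β + 1) ≤ α * (β + 1) := Nat.mul_le_mul_right _ hcon
        linarith
      rw [hs] at h1
      omega
    obtain ⟨S₀, hS1, hS2, hS3⟩ := exists_subsuperset_card_eq hTC hT hC
    have hS0N : ∀ l ∈ S₀, 0 < N l := fun l hl => (mem_filter.1 (hS2 hl)).2.2
    have hS0k : S₀ ⊆ range k := fun l hl => (mem_filter.1 (hS2 hl)).1
    obtain ⟨S, h1, h2⟩ := ih (fun l => N l - if l ∈ S₀ then 1 else 0)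
      (fun w hw => hf w (by omega)) (by
        have : ∑ l ∈ range k, (N l - if l ∈ S₀ then 1 else 0) + #S₀ = ∑ l ∈ range k, N l := by
          have h3 : #S₀ = ∑ l ∈ range k, if l ∈ S₀ then 1 else 0 := by
            rw [sum_ite_mem, inter_eq_right.2 hS0k, sum_const, smul_eq_mul, mul_one]
          rw [h3, ← sum_add_distrib]
          apply sum_congr rfl
          intro l _
          split
          · rename_i h
            have := hS0N l h
            omega
          · omega
        rw [hS3, hs] at this
        have h5 : α * (β + 1) = α * β + α := by ring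
        omega) (by
        intro l hl
        have h6 := hc l hl
        have h7 := hF l
        by_cases ha : f β = l
        · rw [if_pos ha] at h7
          omega
        · rw [if_neg ha] at h7
          by_cases hb : l ∈ S₀
          · have := hS0N l hb
            simp only [hb, if_true]
            omega
          · simp only [hb, if_false]
            have : N l + #{w ∈ range (β + 1) | f w = l} ≠ β + 1 := by
              intro h
              exact hb (hS1 (mem_filter.2 ⟨mem_range.2 hl, fun h => ha h.symm, h⟩))
            omega)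
    refine ⟨fun w => if w = β then S₀ else S w, ?_, ?_⟩
    · intro w hw
      by_cases h : w = β
      · subst h
        simp only [if_true]
        exact ⟨hS0k, hS3, fun hh => (mem_filter.1 (hS2 hh)).2.1 rfl⟩
      · simp only [h, if_false]
        exact h1 w (by omega)
    · intro l hl
      have h8 := h2 l hl
      have h9 : #{w ∈ range (β + 1) | l ∈ if w = β then S₀ else S w} =
          #{w ∈ range β | l ∈ S w} + if l ∈ S₀ then 1 else 0 := by
        rw [range_add_one, filter_insert]
        have h10 : {w ∈ range β | l ∈ if w = β then S₀ else S w} =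
            {w ∈ range β | l ∈ S w} := by
          apply filter_congr
          intro w hw
          rw [if_neg]
          rintro rfl
          simp at hw
        rw [h10]
        simp only [if_true]
        split
        · rw [card_insert_of_notMem (by simp)]
        · rfl
      rw [h9]
      split
      · rename_i h
        have := hS0N l h
        simp only [h, if_true] at h8
        omega
      · rename_i h
        simp only [h, if_false] at h8
        omega

theorem exists_enum (S : Finset ℕ) : ∃ φ : ℕ → ℕ, (∀ j < #S, φ j ∈ S) ∧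
    (∀ j < #S, ∀ j' < #S, φ j = φ j' → j = j') ∧ ∀ x ∈ S, ∃ j < #S, φ j = x := by
  have hlen : S.toList.length = #S := length_toList S
  refine ⟨fun j => S.toList.getD j 0, ?_, ?_, ?_⟩
  · intro j hj
    rw [← hlen] at hj
    simp only [List.getD_eq_getElem _ _ hj]
    exact mem_toList.1 (List.getElem_mem hj)
  · intro j hj j' hj' h
    rw [← hlen] at hj hj'
    simp only [List.getD_eq_getElem _ _ hj, List.getD_eq_getElem _ _ hj'] at h
    exact (List.Nodup.getElem_inj_iff (nodup_toList S)).1 h
  · intro x hx
    obtain ⟨j, hj, h⟩ := List.mem_iff_getElem.1 (mem_toList.2 hx)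
    refine ⟨j, by rw [← hlen]; exact hj, ?_⟩
    simp only [List.getD_eq_getElem _ _ hj]
    exact h

theorem exists_surj {A B : Finset ℕ} {β : ℕ} (hA : ∀ w ∈ A, w < β) (hβ : 0 < β)
    (h : #A ≤ #B) : ∃ φ : ℕ → ℕ, (∀ w ∈ A, ∃ i ∈ B, φ i = w) ∧ ∀ i, φ i < β := by
  classical
  obtain ⟨a, ha1, ha2, ha3⟩ := exists_enum A
  obtain ⟨b, hb1, hb2, hb3⟩ := exists_enum B
  refine ⟨fun i => if h : ∃ j < #A, b j = i then a h.choose else 0, ?_, ?_⟩
  · intro w hw
    obtain ⟨j, hj, rfl⟩ := ha3 w hw
    refine ⟨b j, hb1 j (by omega), ?_⟩
    have hex : ∃ j' < #A, b j' = b j := ⟨j, hj, rfl⟩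
    simp only [hex, dif_pos]
    have h1 := hex.choose_spec
    have : hex.choose = j := hb2 _ (by omega) _ (by omega) h1.2
    rw [this]
  · intro i
    by_cases hex : ∃ j < #A, b j = i
    · simp only [hex, dif_pos]
      exact hA _ (ha1 _ hex.choose_spec.1)
    · simp only [hex, dif_neg, not_false_eq_true]
      exact hβ

/-! ### The counting -/

/-- number of items `n < L` in the half slot `(l + 1, e)` -/
def hh (K L l : ℕ) (e : Bool) : ℕ := #{n ∈ range L | (n / 2) % K = l ∧ n % 2 = e.toNat}

theorem hh_le {K L l Q : ℕ} {e : Bool} (hQ : ∀ n < L, (n / 2) % K = l → n % 2 = e.toNat →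
    n / 2 / K < Q) : hh K L l e ≤ Q := by
  unfold hh
  calc #{n ∈ range L | (n / 2) % K = l ∧ n % 2 = e.toNat} ≤ #(range Q) := by
        apply card_le_card_of_injOn (fun n => n / 2 / K)
        · intro n hn
          have hn' := mem_filter.1 hn
          exact mem_coe.2 (mem_range.2 (hQ n (mem_range.1 hn'.1) hn'.2.1 hn'.2.2))
        · intro n hn m hm h
          have hn' := (mem_filter.1 hn).2
          have hm' := (mem_filter.1 hm).2
          simp only at h
          have e1 := Nat.div_add_mod (n / 2) K
          have e2 := Nat.div_add_mod (m / 2) K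
          rw [h, hn'.1] at e1
          rw [hm'.1] at e2
          have : n / 2 = m / 2 := by omega
          omega
    _ = Q := card_range Q

theorem hh_true_le (K L l : ℕ) : hh K L l true ≤ hh K L l false := by
  unfold hh
  apply card_le_card_of_injOn (fun n => n - 1)
  · intro n hn
    have hn' := mem_filter.1 hn
    have h1 := mem_range.1 hn'.1
    have h2 : n % 2 = 1 := hn'.2.2
    refine mem_coe.2 (mem_filter.2 ⟨mem_range.2 (by show n - 1 < L; omega), ?_, ?_⟩)
    · have : (n - 1) / 2 = n / 2 := by omega
      simp only [this]
      exact hn'.2.1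
    · show (n - 1) % 2 = 0
      omega
  · intro n hn m hm h
    have h1 : n % 2 = 1 := (mem_filter.1 hn).2.2
    have h2 : m % 2 = 1 := (mem_filter.1 hm).2.2
    simp only at h
    omega

theorem sum_hh_le {K L : ℕ} (hK : 0 < K) : ∑ l ∈ range K, hh K L l false ≤ (L + 1) / 2 := by
  have h1 : #{n ∈ range L | n % 2 = 0} = ∑ l ∈ range K,
      #{n ∈ {n ∈ range L | n % 2 = 0} | (n / 2) % K = l} := by
    apply card_eq_sum_card_fiberwise
    intro n _
    exact mem_coe.2 (mem_range.2 (Nat.mod_lt _ hK))
  have h2 : ∑ l ∈ range K, hh K L l false = #{n ∈ range L | n % 2 = 0} := by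
    rw [h1]
    apply sum_congr rfl
    intro l _
    unfold hh
    congr 1
    ext n
    simp only [mem_filter, mem_range, Bool.toNat_false]
    tauto
  rw [h2]
  calc #{n ∈ range L | n % 2 = 0} ≤ #(range ((L + 1) / 2)) := by
        apply card_le_card_of_injOn (fun n => n / 2)
        · intro n hn
          have hn' := mem_filter.1 hn
          have h3 := mem_range.1 hn'.1
          refine mem_coe.2 (mem_range.2 ?_)
          simp only
          have := hn'.2
          omega
        · intro n hn m hm h
          have h3 := (mem_filter.1 hn).2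
          have h4 := (mem_filter.1 hm).2
          simp only at h
          omega
    _ = (L + 1) / 2 := card_range _

/-- **The combinatorial data exist.** -/
theorem exists_dat {k α β : ℕ} (hk : α + 3 ≤ k) (hα : 1 ≤ α) (hβ : k + 1 ≤ β)
    (h : 2 * (α * β) + α + β + 1 ≤ 2 * (k * (k - 1))) : Nonempty (Dat k α β) := by
  classical
  obtain ⟨K, rfl⟩ : ∃ K, k = K + 1 := ⟨k - 1, by omega⟩
  simp only [Nat.add_sub_cancel] at h
  have hK : 2 ≤ K := by omega
  let L := α + β + 1
  let fl : ℕ → ℕ := fun w => 1 + ((α + 1 + w) / 2) % K
  let fe : ℕ → Bool := fun w => decide ((α + 1 + w) % 2 = 1)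
  have hfe : ∀ w, (fe w).toNat = (α + 1 + w) % 2 := by
    intro w
    rcases Nat.mod_two_eq_zero_or_one (α + 1 + w) with h | h <;> simp [fe, h]
  have hflt : ∀ w, fl w < K + 1 := by
    intro w
    have := Nat.mod_lt ((α + 1 + w) / 2) (by omega : 0 < K)
    simp only [fl]
    omega
  have hf1 : ∀ w, 1 ≤ fl w := fun w => by simp only [fl]; omega
  -- Claim B
  have hB : ∀ l, hh K L l true ≤ β - K := by
    intro l
    apply hh_le
    intro n hn h1 h2
    by_contra hcon
    push Not at hcon
    obtain ⟨x, hx⟩ : ∃ x, β = K + x := ⟨β - K, by omega⟩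
    have hx2 : 2 ≤ x := by omega
    have e1 := Nat.div_add_mod (n / 2) K
    have h3 : K * x ≤ K * (n / 2 / K) := Nat.mul_le_mul_left _ (by omega)
    have h4 : K * (x - 1) + K = K * x := by
      obtain ⟨y, rfl⟩ : ∃ y, x = y + 1 := ⟨x - 1, by omega⟩
      simp only [Nat.add_sub_cancel]; ring
    have h5 : 2 * (x - 1) ≤ K * (x - 1) := Nat.mul_le_mul_right _ hK
    have h6 : n < α + β + 1 := hn
    omega
  -- Claim C
  have hC : ∀ l e, hh K L l e ≤ K := by
    intro l e
    apply hh_le
    intro n hn h1 h2
    by_contra hcon
    push Not at hcon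
    have e1 := Nat.div_add_mod (n / 2) K
    have h3 : K * K ≤ K * (n / 2 / K) := Nat.mul_le_mul_left _ hcon
    have h6 : n < α + β + 1 := hn
    have h7 : 1 * β ≤ α * β := Nat.mul_le_mul_right _ hα
    have h8 : (K + 1) * K = K * K + K := by ring
    omega
  -- Claim E
  have hE : ∀ l, 1 ≤ l → l < K + 1 → ∀ e, #{w ∈ range β | fl w = l ∧ fe w = e} +
      (if task l e ≤ α then 1 else 0) ≤ hh K L (l - 1) e := by
    intro l hl hlk e
    have h1 : #{w ∈ range β | fl w = l ∧ fe w = e} =
        #(Finset.image (fun w => α + 1 + w) {w ∈ range β | fl w = l ∧ fe w = e}) := by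
      rw [card_image_of_injective]
      intro a b hab
      simp only at hab
      omega
    have h2 : (if task l e ≤ α then 1 else 0) =
        #(if task l e ≤ α then ({task l e} : Finset ℕ) else ∅) := by
      split <;> simp
    rw [h1, h2, ← card_union_of_disjoint]
    · unfold hh
      apply card_le_card
      intro n hn
      rcases mem_union.1 hn with hn | hn
      · obtain ⟨w, hw, rfl⟩ := mem_image.1 hn
        have hw' := mem_filter.1 hw
        have h3 := mem_range.1 hw'.1
        refine mem_filter.2 ⟨mem_range.2 (by show α + 1 + w < α + β + 1; omega), ?_, ?_⟩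
        · have h4 := hw'.2.1
          simp only [fl] at h4
          omega
        · rw [← hfe, hw'.2.2]
      · split at hn
        · rename_i ht
          rw [mem_singleton] at hn
          subst hn
          have h3 : task l e / 2 = l - 1 := by
            unfold task
            cases e <;> simp <;> omega
          have h4 : task l e % 2 = e.toNat := by
            unfold task
            cases e <;> simp
          refine mem_filter.2 ⟨mem_range.2 (by show task l e < α + β + 1; omega), ?_, h4⟩
          rw [h3]
          exact Nat.mod_eq_of_lt (by omega)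
        · simp at hn
    · rw [disjoint_left]
      intro n hn hn'
      obtain ⟨w, _, rfl⟩ := mem_image.1 hn
      split at hn'
      · rename_i ht
        rw [mem_singleton] at hn'
        omega
      · simp at hn'
  -- caps
  let cap : ℕ → ℕ := fun l => if l = 0 then K else K - hh K L (l - 1) false
  have hcapsum : α * β ≤ ∑ l ∈ range (K + 1), cap l := by
    rw [sum_range_succ']
    have h1 : ∑ l ∈ range K, cap (l + 1) + ∑ l ∈ range K, hh K L l false = K * K := by
      rw [← sum_add_distrib]
      calc _ = ∑ l ∈ range K, K := by
            apply sum_congr rfl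
            intro l _
            simp only [cap]
            have := hC l false
            simp
            omega
        _ = K * K := by simp
    have h2 := sum_hh_le (K := K) (L := L) (by omega)
    have h3 : cap 0 = K := by simp [cap]
    have h4 : (K + 1) * K = K * K + K := by ring
    have h5 : L = α + β + 1 := rfl
    omega
  obtain ⟨N, hN1, hN2⟩ := exists_le_sum (K + 1) cap _ hcapsum
  -- greedy
  obtain ⟨S, hS1, hS2⟩ := greedy (K + 1) α fl β N (fun w _ => hflt w) hN2 (by
    intro l hl
    have h1 := hN1 l
    rcases Nat.eq_zero_or_pos l with rfl | hl0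
    · have h2 : #{w ∈ range β | fl w = 0} = 0 := by
        rw [card_eq_zero, filter_eq_empty_iff]
        intro w _ h0
        have := hf1 w
        omega
      rw [h2]
      simp only [cap, if_true] at h1
      omega
    · have h2 : #{w ∈ range β | fl w = l} ≤ #{w ∈ range β | fl w = l ∧ fe w = false} +
          #{w ∈ range β | fl w = l ∧ fe w = true} := by
        rw [← card_union_of_disjoint]
        · apply card_le_card
          intro w hw
          have hw' := mem_filter.1 hw
          rw [mem_union, mem_filter, mem_filter]
          cases hfw : fe w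
          · exact Or.inl ⟨hw'.1, hw'.2, rfl⟩
          · exact Or.inr ⟨hw'.1, hw'.2, rfl⟩
        · rw [disjoint_left]
          intro w h3 h4
          have h5 := (mem_filter.1 h3).2.2
          have h6 := (mem_filter.1 h4).2.2
          rw [h5] at h6
          exact absurd h6 (by simp)
      have h3 := hE l hl0 hl false
      have h4 := hE l hl0 hl true
      have h5 := hB (l - 1)
      have h6 := hC (l - 1) false
      simp only [cap, if_neg (by omega : ¬ l = 0)] at h1
      omega)
  -- enumeration of `S w`
  choose φ hφ1 hφ2 hφ3 using fun w => exists_enum (S w)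
  -- slots
  have hslot : ∀ l, l < K + 1 → ∀ e : Bool, ∃ ψ : ℕ → ℕ,
      (∀ w ∈ {w ∈ range β | l ∈ S w ∨ (fl w = l ∧ fe w = e)},
        ∃ i ∈ {i ∈ range (K + 1) | i ≠ l ∧ ¬ (i = 0 ∧ 1 ≤ l ∧ task l e ≤ α)}, ψ i = w) ∧
      ∀ i, ψ i < β := by
    intro l hl e
    apply exists_surj
    · intro w hw
      exact mem_range.1 (mem_filter.1 hw).1
    · omega
    · have h1 : #{w ∈ range β | l ∈ S w ∨ (fl w = l ∧ fe w = e)} ≤
          #{w ∈ range β | l ∈ S w} + #{w ∈ range β | fl w = l ∧ fe w = e} := by
        rw [filter_or]
        exact card_union_le _ _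
      have h2 := hS2 l hl
      have h3 := hN1 l
      rcases Nat.eq_zero_or_pos l with rfl | hl0
      · have h4 : #{w ∈ range β | fl w = 0 ∧ fe w = e} = 0 := by
          rw [card_eq_zero, filter_eq_empty_iff]
          intro w _ h0
          have := hf1 w
          omega
        have h5 : #{i ∈ range (K + 1) | i ≠ 0 ∧ ¬ (i = 0 ∧ 1 ≤ 0 ∧ task 0 e ≤ α)} = K := by
          have : {i ∈ range (K + 1) | i ≠ 0 ∧ ¬ (i = 0 ∧ 1 ≤ 0 ∧ task 0 e ≤ α)} =
              (range (K + 1)).erase 0 := by
            ext i
            simp
            tauto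
          rw [this, card_erase_of_mem (by simp), card_range]
          omega
        rw [h5]
        simp only [cap, if_true] at h3
        omega
      · have h4 := hE l hl0 hl e
        have h5 : hh K L (l - 1) e ≤ hh K L (l - 1) false := by
          cases e
          · exact le_rfl
          · exact hh_true_le _ _ _
        have h6 := hC (l - 1) false
        simp only [cap, if_neg (by omega : ¬ l = 0)] at h3
        by_cases ht : task l e ≤ α
        · have h7 : {i ∈ range (K + 1) | i ≠ l ∧ ¬ (i = 0 ∧ 1 ≤ l ∧ task l e ≤ α)} =
              ((range (K + 1)).erase l).erase 0 := by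
            ext i
            simp only [mem_filter, mem_erase, mem_range]
            constructor
            · rintro ⟨a, b, c⟩
              exact ⟨fun h0 => c ⟨h0, hl0, ht⟩, b, a⟩
            · rintro ⟨a, b, c⟩
              exact ⟨c, b, fun h0 => a h0.1⟩
          rw [h7, card_erase_of_mem, card_erase_of_mem (by simpa using hl), card_range]
          · rw [if_pos ht] at h4
            omega
          · rw [mem_erase]
            exact ⟨by omega, by simp⟩
        · have h7 : {i ∈ range (K + 1) | i ≠ l ∧ ¬ (i = 0 ∧ 1 ≤ l ∧ task l e ≤ α)} =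
              (range (K + 1)).erase l := by
            ext i
            simp only [mem_filter, mem_erase, mem_range]
            constructor
            · rintro ⟨a, b, c⟩
              exact ⟨b, a⟩
            · rintro ⟨a, b⟩
              exact ⟨b, a, fun h0 => ht h0.2.2⟩
          rw [h7, card_erase_of_mem (by simpa using hl), card_range]
          rw [if_neg ht] at h4
          omega
  choose ψ hψ1 hψ2 using hslot
  have h0K : 0 < K + 1 := by omega
  let lam : ℕ → Bool → ℕ → ℕ := fun l e i =>
    if hl : l < K + 1 then (if l = 0 then ψ 0 h0K false i else ψ l hl e i) else 0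
  refine ⟨{
    gz := φ
    fl := fl
    fe := fe
    lam := lam
    hk := hk
    hα := hα
    gz_lt := ?_
    gz_inj := ?_
    fl_pos := fun w _ => hf1 w
    fl_lt := fun w _ => hflt w
    fl_ne := ?_
    slot := ?_
    lam0 := ?_
    lam0_lt := ?_ }⟩
  · intro w hw j hj
    have h1 := hS1 w hw
    exact mem_range.1 (h1.1 (hφ1 w j (by rw [h1.2.1]; exact hj)))
  · intro w hw j hj j' hj' he
    have h1 := hS1 w hw
    exact hφ2 w j (by rw [h1.2.1]; exact hj) j' (by rw [h1.2.1]; exact hj') he
  · intro w hw j hj he
    have h1 := hS1 w hw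
    have h2 := hφ1 w j (by rw [h1.2.1]; exact hj)
    rw [he] at h2
    exact h1.2.2 h2
  · intro l hl e w hw hor
    have hS : l ∈ S w ∨ (fl w = l ∧ fe w = e) := by
      rcases hor with ⟨j, hj, h1⟩ | h1
      · left
        have h2 := hS1 w hw
        rw [← h1]
        exact hφ1 w j (by rw [h2.2.1]; exact hj)
      · exact Or.inr h1
    rcases Nat.eq_zero_or_pos l with rfl | hl0
    · have hS' : 0 ∈ S w ∨ (fl w = 0 ∧ fe w = false) := by
        rcases hS with hS | hS
        · exact Or.inl hS
        · have := hf1 w
          omega
      obtain ⟨i, hi, hi'⟩ := hψ1 0 h0K false w (mem_filter.2 ⟨mem_range.2 hw, hS'⟩)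
      have hi2 := mem_filter.1 hi
      refine ⟨i, mem_range.1 hi2.1, hi2.2.1, fun h0 => hi2.2.1 h0.1, ?_⟩
      simp only [lam, dif_pos h0K, if_true]
      exact hi'
    · obtain ⟨i, hi, hi'⟩ := hψ1 l hl e w (mem_filter.2 ⟨mem_range.2 hw, hS⟩)
      have hi2 := mem_filter.1 hi
      refine ⟨i, mem_range.1 hi2.1, hi2.2.1, hi2.2.2, ?_⟩
      simp only [lam, dif_pos hl, if_neg (by omega : ¬ l = 0)]
      exact hi'
  · simp [lam]
  · simp only [lam, dif_pos h0K, if_true]
    exact hψ2 _ _ _ _

end Pool.Agent.H30.Thk
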