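import Pool.Agent.H30.Thk.Cover
import Pool.Agent.H30.Thk.Exist

/-!
`K_{2k+2α+1, 2k+2β+1}` is a union of `k` plane-drawable graphs.
-/

namespace Pool.Agent.H30.Thk

open Vx Cont

/-- enumeration of the rows or columns -/
def vmap (A B : ℕ → Bool → Vx) (c : Vx) (k α : ℕ) (n : ℕ) : Vx :=
  if n < 2 * k then A (n / 2) (decide (n % 2 = 1))
  else if n < 2 * k + 2 * α then B ((n - 2 * k) / 2) (decide ((n - 2 * k) % 2 = 1))
  else c

theorem vmap_inj {A B : ℕ → Bool → Vx} {c : Vx} {k α : ℕ}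
    (hA : ∀ a b e f, A a e = A b f → a = b ∧ e = f)
    (hB : ∀ a b e f, B a e = B b f → a = b ∧ e = f)
    (hAB : ∀ a b e f, A a e ≠ B b f) (hAc : ∀ a e, A a e ≠ c) (hBc : ∀ a e, B a e ≠ c)
    {n m : ℕ} (hn : n < 2 * k + 2 * α + 1) (hm : m < 2 * k + 2 * α + 1)
    (h : vmap A B c k α n = vmap A B c k α m) : n = m := by
  unfold vmap at h
  split_ifs at h with h1 h2 h3 h4 h5 h6 h7 h8
  · obtain ⟨h9, h10⟩ := hA _ _ _ _ h
    have : (n % 2 = 1) ↔ (m % 2 = 1) := by simpa using h10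
    omega
  · exact (hAB _ _ _ _ h).elim
  · exact (hAc _ _ h).elim
  · exact (hAB _ _ _ _ h.symm).elim
  · obtain ⟨h9, h10⟩ := hB _ _ _ _ h
    have : ((n - 2 * k) % 2 = 1) ↔ ((m - 2 * k) % 2 = 1) := by simpa using h10
    omega
  · exact (hBc _ _ h).elim
  · exact (hAc _ _ h.symm).elim
  · exact (hBc _ _ h.symm).elim
  · omega

/-- **Upper bound**: the decomposition. -/
theorem exists_decomposition {k α β : ℕ} (D : Dat k α β) :
    ∃ H : Fin k → SimpleGraph (Fin (2 * k + 2 * α + 1) ⊕ Fin (2 * k + 2 * β + 1)),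
      (∀ i, Drawable (H i)) ∧ (⨆ i, H i) = completeBipartiteGraph _ _ := by
  classical
  let φ : Fin (2 * k + 2 * α + 1) ⊕ Fin (2 * k + 2 * β + 1) → Vx :=
    Sum.elim (fun a => vmap X Z z0 k α a) (fun b => vmap T W y0 k β b)
  have hrow : ∀ n, Dat.IsRow k α (vmap X Z z0 k α n) := by
    intro n
    unfold vmap
    split_ifs with h1 h2
    · exact Or.inl ⟨_, _, by omega, rfl⟩
    · exact Or.inr (Or.inl ⟨_, _, by omega, rfl⟩)
    · exact Or.inr (Or.inr rfl)
  have hcol : ∀ n, Dat.IsCol k β (vmap T W y0 k β n) := by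
    intro n
    unfold vmap
    split_ifs with h1 h2
    · exact Or.inl ⟨_, _, by omega, rfl⟩
    · exact Or.inr (Or.inl ⟨_, _, by omega, rfl⟩)
    · exact Or.inr (Or.inr rfl)
  have hdisj : ∀ {u}, Dat.IsRow k α u → Dat.IsCol k β u → False := by
    rintro u (⟨_, _, _, rfl⟩ | ⟨_, _, _, rfl⟩ | rfl) (⟨_, _, _, h⟩ | ⟨_, _, _, h⟩ | h) <;>
      simp at h
  have hφ : Function.Injective φ := by
    rintro (a | a) (b | b) h
    · congr 1
      apply Fin.ext
      exact vmap_inj (by simp) (by simp) (by simp) (by simp) (by simp) a.2 b.2 h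
    · have h' : vmap X Z z0 k α a = vmap T W y0 k β b := h
      have h1 := hrow a
      rw [h'] at h1
      exact (hdisj h1 (hcol b)).elim
    · have h' : vmap T W y0 k β a = vmap X Z z0 k α b := h
      have h1 := hrow b
      rw [← h'] at h1
      exact (hdisj h1 (hcol a)).elim
    · congr 1
      apply Fin.ext
      exact vmap_inj (by simp) (by simp) (by simp) (by simp) (by simp) a.2 b.2 h
  let H : Fin k → SimpleGraph (Fin (2 * k + 2 * α + 1) ⊕ Fin (2 * k + 2 * β + 1)) := fun i =>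
    { Adj := fun u v => (completeBipartiteGraph _ _).Adj u v ∧ (D.lay i).Adj (φ u) (φ v)
      symm := ⟨fun u v h => ⟨h.1.symm, h.2.symm⟩⟩
      loopless := ⟨fun u h => h.1.ne rfl⟩ }
  refine ⟨H, ?_, ?_⟩
  · intro i
    exact Drawable.of_cont (D.lay i) (D.ok_lay i) (D.nodup_lay i.2) φ hφ (H i)
      (fun u v h => h.2)
  · apply le_antisymm
    · exact iSup_le fun i u v h => h.1
    · intro u v huv
      rw [SimpleGraph.iSup_adj]
      have key : ∀ a b, ∃ i : Fin k, (D.lay i).Adj (φ (Sum.inr b)) (φ (Sum.inl a)) := by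
        intro a b
        obtain ⟨i, hi, h⟩ := D.cov_all (hrow a) (hcol b)
        exact ⟨⟨i, hi⟩, h⟩
      rcases u with a | b <;> rcases v with a' | b'
      · simp at huv
      · obtain ⟨i, hi⟩ := key a b'
        exact ⟨i, huv, hi.symm⟩
      · obtain ⟨i, hi⟩ := key a' b
        exact ⟨i, huv, hi⟩
      · simp at huv

end Pool.Agent.H30.Thk
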