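import Mathlib

set_option autoImplicit false

/-! # The triangular lattice: edges, faces, and the 2-cover of its cycle space -/

namespace Pool.Agent.H30.Thk

open Finset

abbrev Pt := ℤ × ℤ

/-- the three edge directions -/
def dl : Fin 3 → Pt := ![(1, 0), (0, 1), (1, 1)]

/-- lattice edges: start point and direction -/
abbrev Ed := Pt × Fin 3

/-- end point of an edge -/
def tip (e : Ed) : Pt := e.1 + dl e.2

/-- adjacency in the triangular lattice -/
def LAdj (p q : Pt) : Prop := ∃ d : Fin 3, q = p + dl d ∨ p = q + dl d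

theorem LAdj.symm {p q : Pt} (h : LAdj p q) : LAdj q p := by
  obtain ⟨d, h | h⟩ := h
  · exact ⟨d, Or.inr h⟩
  · exact ⟨d, Or.inl h⟩

theorem dl_ne_zero (d : Fin 3) : dl d ≠ 0 := by
  fin_cases d <;> simp [dl]

theorem tip_ne (e : Ed) : tip e ≠ e.1 := by
  intro h
  have : dl e.2 = 0 := by
    unfold tip at h
    have := congrArg (fun x => x - e.1) h
    simpa using this
  exact dl_ne_zero _ this

/-- 1-chains modulo two (all functions) -/
abbrev Ch := Ed → ZMod 2

/-- boundary at a lattice point -/
def bd (c : Ch) (p : Pt) : ZMod 2 :=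
  ∑ d : Fin 3, (c (p, d) + c (p - dl d, d))

theorem bd_add (c c' : Ch) (p : Pt) : bd (c + c') p = bd c p + bd c' p := by
  simp only [bd, Pi.add_apply, ← Finset.sum_add_distrib]
  refine Finset.sum_congr rfl fun d _ => ?_
  ring

theorem bd_smul (a : ZMod 2) (c : Ch) (p : Pt) : bd (a • c) p = a * bd c p := by
  simp only [bd, Pi.smul_apply, smul_eq_mul, Finset.mul_sum]
  refine Finset.sum_congr rfl fun d _ => ?_
  ring

theorem bd_zero (p : Pt) : bd 0 p = 0 := by
  simp [bd]

theorem bd_sum {ι : Type*} (s : Finset ι) (c : ι → Ch) (p : Pt) :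
    bd (∑ i ∈ s, c i) p = ∑ i ∈ s, bd (c i) p := by
  classical
  induction s using Finset.induction_on with
  | empty => simp [bd_zero]
  | insert a s ha ih => rw [Finset.sum_insert ha, Finset.sum_insert ha, bd_add, ih]

/-- the chain of a single edge -/
def one (e : Ed) : Ch := Pi.single e 1

theorem bd_one (e : Ed) (p : Pt) :
    bd (one e) p = (if p = e.1 then 1 else 0) + (if p = tip e then 1 else 0) := by
  obtain ⟨q, d⟩ := e
  have h1 : ∑ d' : Fin 3, one (q, d) (p, d') = if p = q then 1 else 0 := by
    rw [Finset.sum_eq_single d]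
    · by_cases h : p = q
      · subst h; simp [one]
      · rw [if_neg h, one, Pi.single_eq_of_ne]
        simp [h]
    · intro b _ hb
      rw [one, Pi.single_eq_of_ne]
      simp [hb]
    · simp
  have h2 : ∑ d' : Fin 3, one (q, d) (p - dl d', d') = if p = q + dl d then 1 else 0 := by
    rw [Finset.sum_eq_single d]
    · by_cases h : p = q + dl d
      · subst h; simp [one]
      · rw [if_neg h, one, Pi.single_eq_of_ne]
        intro h'
        apply h
        have := congrArg Prod.fst h'
        simp only at this
        rw [← this]; abel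
    · intro b _ hb
      rw [one, Pi.single_eq_of_ne]
      simp [hb]
    · simp
  unfold bd
  rw [Finset.sum_add_distrib, h1, h2]
  rfl

/-- faces of the lattice: `(p, false)` is the upper left triangle, `(p, true)` the lower right
triangle of the unit square at `p` -/
abbrev Fc := Pt × Bool

/-- first face of an edge -/
def fa1 (e : Ed) : Fc := ![((e.1, true) : Fc), (e.1, false), (e.1, true)] e.2

/-- second face of an edge -/
def fa2 (e : Ed) : Fc :=
  ![((e.1 - (0, 1), false) : Fc), (e.1 - (1, 0), true), (e.1, false)] e.2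

/-- coboundary of a face function -/
def cob (F : Fc → ZMod 2) : Ch := fun e => F (fa1 e) + F (fa2 e)

theorem zmod2_add_self (a : ZMod 2) : a + a = 0 := CharTwo.add_self_eq_zero a

theorem bd_cob (F : Fc → ZMod 2) (p : Pt) : bd (cob F) p = 0 := by
  obtain ⟨i, j⟩ := p
  have e1 : ((i, j) : Pt) - (1, 0) - (0, 1) = (i - 1, j - 1) := by ext <;> simp
  have e2 : ((i, j) : Pt) - (0, 1) - (1, 0) = (i - 1, j - 1) := by ext <;> simp
  have e3 : ((i, j) : Pt) - (1, 1) = (i - 1, j - 1) := by ext <;> simp
  simp only [bd, cob, fa1, fa2, Fin.sum_univ_three, dl, Matrix.cons_val_zero, Matrix.cons_val_one,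
    Matrix.cons_val]
  rw [e1, e2, e3]
  have key : ∀ a b c d e f : ZMod 2,
      (a + b) + (c + d) + ((e + c) + (b + f)) + ((a + e) + (f + d)) = 0 := by
    decide
  exact key _ _ _ _ _ _

/-- **Discrete Poincare lemma.** A 1-cycle vanishing above some height is the coboundary of a face
function. -/
theorem exists_prim (c : Ch) (N : ℤ) (hN : ∀ e : Ed, N < e.1.2 → c e = 0)
    (hc : ∀ p, bd c p = 0) : ∃ F : Fc → ZMod 2, cob F = c := by
  let A : Pt → ZMod 2 := fun p => ∑ t ∈ Finset.Ioc p.2 N, (c ((p.1, t), 0) + c ((p.1, t), 2))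
  have hA1 : ∀ i j : ℤ, A (i, j - 1) = c ((i, j), 0) + c ((i, j), 2) + A (i, j) := by
    intro i j
    by_cases hj : j ≤ N
    · have : Finset.Ioc (j - 1) N = insert j (Finset.Ioc j N) := by
        ext t
        simp only [Finset.mem_Ioc, Finset.mem_insert]
        omega
      simp only [A, this]
      rw [Finset.sum_insert (by simp)]
    · have h1 : Finset.Ioc (j - 1) N = ∅ := by
        rw [Finset.Ioc_eq_empty]; omega
      have h2 : Finset.Ioc j N = ∅ := by
        rw [Finset.Ioc_eq_empty]; omega
      simp only [A, h1, h2, Finset.sum_empty]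
      rw [hN ((i, j), 0) (by simpa using hj), hN ((i, j), 2) (by simpa using hj)]
      simp
  have hA0 : ∀ i j : ℤ, N ≤ j → A (i, j) = 0 := by
    intro i j hj
    have h2 : Finset.Ioc j N = ∅ := by
      rw [Finset.Ioc_eq_empty]; omega
    simp only [A, h2, Finset.sum_empty]
  let F : Fc → ZMod 2 := fun f => if f.2 then c (f.1, 2) + A f.1 else A f.1
  have hF1 : ∀ p, F (p, true) = c (p, 2) + A p := fun p => by simp [F]
  have hF0 : ∀ p, F (p, false) = A p := fun p => by simp [F]
  -- the vertical identity
  have hv : ∀ i : ℤ, ∀ j : ℤ, A (i, j) + (c ((i - 1, j), 2) + A (i - 1, j)) = c ((i, j), 1) := by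
    intro i j
    by_cases hj : N < j
    · rw [hA0 i j hj.le, hA0 (i - 1) j hj.le, hN ((i - 1, j), 2) hj, hN ((i, j), 1) hj]
      simp
    · have hstep : ∀ n : ℕ, ∀ j : ℤ, N + 1 - j = n →
          A (i, j) + (c ((i - 1, j), 2) + A (i - 1, j)) = c ((i, j), 1) := by
        intro n
        induction n with
        | zero =>
          intro j hj
          have hj' : N < j := by push_cast at hj; omega
          rw [hA0 i j hj'.le, hA0 (i - 1) j hj'.le, hN ((i - 1, j), 2) hj', hN ((i, j), 1) hj']
          simp
        | succ n ih =>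
          intro j hj
          have h1 := ih (j + 1) (by push_cast at hj ⊢; omega)
          have h2 := hA1 i (j + 1)
          have h3 := hA1 (i - 1) (j + 1)
          have h4 := hc (i, j + 1)
          simp only [bd, Fin.sum_univ_three, dl, Matrix.cons_val_zero, Matrix.cons_val_one,
            Matrix.cons_val] at h4
          have e1 : ((i, j + 1) : Pt) - (1, 0) = (i - 1, j + 1) := by ext <;> simp
          have e2 : ((i, j + 1) : Pt) - (0, 1) = (i, j) := by ext <;> simp
          have e3 : ((i, j + 1) : Pt) - (1, 1) = (i - 1, j) := by ext <;> simp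
          rw [e1, e2, e3] at h4
          rw [add_sub_cancel_right] at h2 h3
          rw [h2, h3]
          revert h1 h4
          generalize c ((i, j + 1), 0) = x1
          generalize c ((i, j + 1), 2) = x2
          generalize c ((i, j + 1), 1) = x3
          generalize c ((i - 1, j + 1), 0) = x4
          generalize c ((i - 1, j + 1), 2) = x5
          generalize c ((i - 1, j), 2) = x6
          generalize c ((i, j), 1) = x7
          generalize A (i, j + 1) = x8
          generalize A (i - 1, j + 1) = x9
          intro h1 h4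
          have h1' : x3 = x8 + (x5 + x9) := h1.symm
          subst h1'
          have : x1 + x2 + x8 + (x6 + (x4 + x5 + x9)) - x7 =
              (x1 + x4 + (x8 + (x5 + x9) + x7) + (x2 + x6)) - 2 * x7 := by ring
          have h5 : x1 + x2 + x8 + (x6 + (x4 + x5 + x9)) - x7 = 0 := by
            rw [this]
            have h2z : (2 : ZMod 2) = 0 := by decide
            rw [h2z, zero_mul, sub_zero]
            exact h4
          exact sub_eq_zero.1 h5
      obtain ⟨n, hn⟩ := Int.eq_ofNat_of_zero_le (a := N + 1 - j) (by omega)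
      exact hstep n j hn
  refine ⟨F, ?_⟩
  funext e
  obtain ⟨⟨i, j⟩, d⟩ := e
  fin_cases d
  · show F ((i, j), true) + F ((i, j) - (0, 1), false) = c ((i, j), 0)
    rw [hF1, hF0]
    have e1 : ((i, j) : Pt) - (0, 1) = (i, j - 1) := by ext <;> simp
    rw [e1, hA1]
    have h2 : ∀ a b c : ZMod 2, (b + c) + (a + b + c) = a := by decide
    exact h2 _ _ _
  · show F ((i, j), false) + F ((i, j) - (1, 0), true) = c ((i, j), 1)
    rw [hF1, hF0]
    have e1 : ((i, j) : Pt) - (1, 0) = (i - 1, j) := by ext <;> simp
    rw [e1]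
    exact hv i j
  · show F ((i, j), true) + F ((i, j), false) = c ((i, j), 2)
    rw [hF1, hF0]
    have h2 : ∀ a b : ZMod 2, (a + b) + b = a := by decide
    exact h2 _ _

end Pool.Agent.H30.Thk
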