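import Pool.Agent.H30.Thk.Pages

/-!
The layers of the decomposition of `K_{2k+2α+1, 2k+2β+1}` into `k` planar graphs.
-/

open Set

set_option linter.unusedSectionVars false
set_option linter.unusedVariables false

namespace Pool.Agent.H30.Thk

/-- the vertices: rows `X`, `Z`, `z0`, columns `T`, `W`, `y0` -/
inductive Vx
  | X (l : ℕ) (e : Bool)
  | Z (j : ℕ) (e : Bool)
  | z0
  | T (m : ℕ) (e : Bool)
  | W (w : ℕ) (e : Bool)
  | y0
  deriving DecidableEq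

open Vx Cont

/-! ### Vertex sets of contents -/

section Has

variable {V : Type} [DecidableEq V]

/-- `G` has no repeated vertices and all its vertices satisfy `P` -/
def Has (G : Cont V) (P : V → Prop) : Prop := G.ord.Nodup ∧ ∀ v ∈ G.ord, P v

theorem Has.mono {G : Cont V} {P Q : V → Prop} (h : Has G P) (hPQ : ∀ v, P v → Q v) : Has G Q :=
  ⟨h.1, fun v hv => hPQ v (h.2 v hv)⟩

theorem has_nil (P : V → Prop) : Has nil P := ⟨List.nodup_nil, fun v hv => by simp [nil] at hv⟩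

theorem has_sgl {v : V} {P : V → Prop} (h : P v) : Has (sgl v) P :=
  ⟨List.nodup_singleton v, fun w hw => by
    have : w = v := by simpa [sgl] using hw
    rw [this]; exact h⟩

theorem has_app {G H : Cont V} {P Q : V → Prop} (hG : Has G P) (hH : Has H Q)
    (hd : ∀ v, P v → Q v → False) : Has (app G H) (fun v => P v ∨ Q v) := by
  refine ⟨?_, ?_⟩
  · show (G.ord ++ H.ord).Nodup
    rw [List.nodup_append]
    refine ⟨hG.1, hH.1, ?_⟩
    rintro a ha b hb rfl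
    exact hd a (hG.2 a ha) (hH.2 a hb)
  · intro v hv
    rcases List.mem_append.1 hv with hv | hv
    · exact Or.inl (hG.2 v hv)
    · exact Or.inr (hH.2 v hv)

theorem has_opt {C : Prop} [Decidable C] {G : Cont V} {P : V → Prop} (hG : C → Has G P) :
    Has (opt C G) (fun v => C ∧ P v) := by
  unfold opt
  split
  · rename_i h
    exact (hG h).mono fun v hv => ⟨h, hv⟩
  · exact has_nil _

theorem has_fam {ι : Type} {l : List ι} (hl : l.Nodup) {G : ι → Cont V} {P : ι → V → Prop}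
    (hG : ∀ i ∈ l, Has (G i) (P i)) (hd : ∀ i ∈ l, ∀ j ∈ l, ∀ v, P i v → P j v → i = j) :
    Has (fam l G) (fun v => ∃ i ∈ l, P i v) := by
  induction l with
  | nil => exact has_nil _
  | cons i l ih =>
    have h1 := ih (List.nodup_cons.1 hl).2 (fun j hj => hG j (List.mem_cons_of_mem _ hj))
      (fun j hj j' hj' => hd j (List.mem_cons_of_mem _ hj) j' (List.mem_cons_of_mem _ hj'))
    have h2 := hG i (by simp)
    refine (has_app h2 h1 ?_).mono ?_
    · rintro v hv ⟨j, hj, hvj⟩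
      have := hd i (by simp) j (List.mem_cons_of_mem _ hj) v hv hvj
      subst this
      exact (List.nodup_cons.1 hl).1 hj
    · rintro v (hv | ⟨j, hj, hv⟩)
      · exact ⟨i, by simp, hv⟩
      · exact ⟨j, List.mem_cons_of_mem _ hj, hv⟩

theorem has_famR {n : ℕ} {G : ℕ → Cont V} {P : ℕ → V → Prop}
    (hG : ∀ i < n, Has (G i) (P i)) (hd : ∀ i < n, ∀ j < n, ∀ v, P i v → P j v → i = j) :
    Has (fam (List.range n) G) (fun v => ∃ i < n, P i v) := by
  refine (has_fam (List.nodup_range) (fun i hi => hG i (by simpa using hi)) ?_).mono ?_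
  · intro i hi j hj
    exact hd i (by simpa using hi) j (by simpa using hj)
  · rintro v ⟨i, hi, hv⟩
    exact ⟨i, by simpa using hi, hv⟩

theorem has_famB {G : Bool → Cont V} {P : Bool → V → Prop}
    (hG : ∀ i, Has (G i) (P i)) (hd : ∀ v, P false v → P true v → False) :
    Has (fam [false, true] G) (fun v => ∃ i, P i v) := by
  refine (has_fam (by simp) (fun i _ => hG i) ?_).mono ?_
  · rintro (_ | _) _ (_ | _) _ v h1 h2
    · rfl
    · exact (hd v h1 h2).elim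
    · exact (hd v h2 h1).elim
    · rfl
  · rintro v ⟨i, _, hv⟩
    exact ⟨i, hv⟩

theorem has_nest {c d : V} {G : Cont V} {P : V → Prop} (hG : Has G P) (hc : ¬ P c) (hd : ¬ P d)
    (hcd : c ≠ d) : Has (nest c d G) (fun v => v = c ∨ v = d ∨ P v) := by
  refine ⟨?_, ?_⟩
  · show (c :: (G.ord ++ [d])).Nodup
    rw [List.nodup_cons, List.nodup_append]
    refine ⟨?_, hG.1, List.nodup_singleton d, ?_⟩
    · intro h
      rcases List.mem_append.1 h with h | h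
      · exact hc (hG.2 c h)
      · exact hcd (by simpa using h)
    · rintro a ha b hb rfl
      have : a = d := by simpa using hb
      subst this
      exact hd (hG.2 a ha)
  · intro v hv
    rcases List.mem_cons.1 hv with hv | hv
    · exact Or.inl hv
    · rcases List.mem_append.1 hv with hv | hv
      · exact Or.inr (Or.inr (hG.2 v hv))
      · exact Or.inr (Or.inl (by simpa using hv))

theorem has_tri {c d z : V} {G H : Cont V} {P Q : V → Prop} (hG : Has G P) (hH : Has H Q)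
    (hPQ : ∀ v, P v → Q v → False) (hc : ¬ P c ∧ ¬ Q c) (hd : ¬ P d ∧ ¬ Q d) (hz : ¬ P z ∧ ¬ Q z)
    (hcd : c ≠ d) (hcz : c ≠ z) (hzd : z ≠ d) :
    Has (tri c d z G H) (fun v => v = c ∨ v = d ∨ v = z ∨ P v ∨ Q v) := by
  have h1 : Has (app (app (sgl c) G) (app (sgl z) (app H (sgl d))))
      (fun v => (v = c ∨ P v) ∨ (v = z ∨ (Q v ∨ v = d))) := by
    refine has_app (has_app (has_sgl rfl) hG ?_) (has_app (has_sgl rfl)
      (has_app hH (has_sgl rfl) ?_) ?_) ?_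
    · rintro v rfl h; exact hc.1 h
    · rintro v h rfl; exact hd.2 h
    · rintro v rfl (h | h)
      · exact hz.2 h
      · exact hzd h
    · rintro v (rfl | h) (h' | h' | h')
      · exact hcz h'
      · exact hc.2 h'
      · exact hcd h'
      · subst h'; exact hz.1 h
      · exact hPQ v h h'
      · subst h'; exact hd.1 h
  have e : (tri c d z G H).ord = (app (app (sgl c) G) (app (sgl z) (app H (sgl d)))).ord := by
    simp [tri, app, sgl]
  refine ⟨by rw [e]; exact h1.1, ?_⟩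
  intro v hv
  rw [e] at hv
  rcases h1.2 v hv with (h | h) | (h | h | h) <;> tauto

end Has

/-- task number of the half slot `(l, e)` -/
def task (l : ℕ) (e : Bool) : ℕ := 2 * (l - 1) + e.toNat

/-- the combinatorial data of the construction -/
structure Dat (k α β : ℕ) where
  /-- layer in which `Z j` and `W w` are joined -/
  gz : ℕ → ℕ → ℕ
  /-- layer in which `z0` and `W w` are joined -/
  fl : ℕ → ℕ
  /-- side -/
  fe : ℕ → Bool
  /-- label of `X l e` in layer `i` -/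
  lam : ℕ → Bool → ℕ → ℕ
  hk : α + 3 ≤ k
  hα : 1 ≤ α
  gz_lt : ∀ w < β, ∀ j < α, gz w j < k
  gz_inj : ∀ w < β, ∀ j < α, ∀ j' < α, gz w j = gz w j' → j = j'
  fl_pos : ∀ w < β, 1 ≤ fl w
  fl_lt : ∀ w < β, fl w < k
  fl_ne : ∀ w < β, ∀ j < α, gz w j ≠ fl w
  slot : ∀ l < k, ∀ e, ∀ w < β, ((∃ j < α, gz w j = l) ∨ (fl w = l ∧ fe w = e)) →
    ∃ i < k, i ≠ l ∧ ¬ (i = 0 ∧ 1 ≤ l ∧ task l e ≤ α) ∧ lam l e i = w
  lam0 : lam 0 false 1 = lam 0 true 1
  lam0_lt : lam 0 false 1 < β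

namespace Dat

variable {k α β : ℕ} (D : Dat k α β)

/-- rows in the pair `W w` in layer `i` -/
def rows (i w : ℕ) : Cont Vx :=
  app (opt (i = 1 ∧ D.lam 0 false 1 = w) (tri (X 0 false) (X 0 true) y0 nil nil))
    (fam (List.range k) fun l => fam [false, true] fun e =>
      opt (l ≠ i ∧ ¬ (i = 1 ∧ l = 0) ∧ ¬ (i = 0 ∧ 1 ≤ l ∧ task l e ≤ α) ∧ D.lam l e i = w)
        (sgl (X l e)))

/-- the pair `W w` with its content in layer `i` -/
def om (i w : ℕ) : Cont Vx := nest (W w false) (W w true) (D.rows i w)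

/-- `W w` is in some `Z j` in layer `i` -/
def inZ (i w : ℕ) : Prop := ∃ j < α, D.gz w j = i

instance (i w : ℕ) : Decidable (D.inZ i w) := by unfold inZ; infer_instance

/-- the pair `Z j` with its content in layer `i` -/
def zc (i j : ℕ) : Cont Vx :=
  nest (Z j false) (Z j true)
    (app (fam (List.range β) fun w => opt (D.gz w j = i) (D.om i w))
      (fam [false, true] fun e => opt (1 ≤ i ∧ task i e = j) (sgl (T 0 e))))

/-- the content of `X 0` in layer `0` -/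
def XC0 : Cont Vx :=
  app (fam (List.range k) fun m => fam [false, true] fun e => opt (1 ≤ m) (sgl (T m e)))
    (fam (List.range β) fun w => opt (¬ D.inZ 0 w) (D.om 0 w))

/-- the sides of `y0` in layer `0` -/
def H0 (e : Bool) : Cont Vx :=
  app (fam (List.range α) fun j => opt (j % 2 = e.toNat) (D.zc 0 j))
    (opt (α % 2 = e.toNat) (sgl z0))

/-- layer `0` -/
def lay0 : Cont Vx :=
  nest (T 0 false) (T 0 true)
    (app (nest (X 0 false) (X 0 true) D.XC0)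
      (app (fam (List.range k) fun l => fam [false, true] fun e =>
          opt (2 ≤ l ∧ task l e ≤ α) (sgl (X l e)))
        (tri (X 1 false) (X 1 true) y0 (D.H0 false) (D.H0 true))))

/-- base of `z0` in layer `i` -/
def b (k i : ℕ) : ℕ := if i + 1 < k then i + 1 else 1

/-- the sides of `z0` in layer `i` -/
def GS (i : ℕ) (e : Bool) : Cont Vx :=
  app (fam (List.range β) fun w => opt (D.fl w = i ∧ D.fe w = e) (D.om i w))
    (opt (task i e = α) (sgl (T 0 e)))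

/-- the content of `X i` in layer `i ≥ 1` -/
def XC (i : ℕ) : Cont Vx :=
  app (tri (T (b k i) false) (T (b k i) true) z0 (D.GS i false) (D.GS i true))
    (app (fam (List.range k) fun m => fam [false, true] fun e =>
        opt (m ≠ i ∧ m ≠ b k i ∧ (m = 0 → α < task i e)) (sgl (T m e)))
      (app (fam (List.range β) fun w => opt (¬ D.inZ i w ∧ D.fl w ≠ i) (D.om i w))
        (opt (2 ≤ i) (sgl y0))))

/-- layer `i ≥ 1` -/
def lay1 (i : ℕ) : Cont Vx :=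
  nest (T i false) (T i true)
    (app (nest (X i false) (X i true) (D.XC i)) (fam (List.range α) fun j => D.zc i j))

/-- the layers -/
def lay (i : ℕ) : Cont Vx := if i = 0 then D.lay0 else D.lay1 i

/-! ### The layers are two-page drawings -/

theorem ok_rows (i w : ℕ) : (D.rows i w).Ok :=
  ok_app (ok_opt (ok_tri ok_nil ok_nil)) (ok_fam fun _ => ok_fam fun _ => ok_opt (ok_sgl _))

theorem ok_om (i w : ℕ) : (D.om i w).Ok := ok_nest (D.ok_rows i w)

theorem ok_zc (i j : ℕ) : (D.zc i j).Ok :=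
  ok_nest (ok_app (ok_fam fun _ => ok_opt (D.ok_om _ _)) (ok_fam fun _ => ok_opt (ok_sgl _)))

theorem ok_lay (i : ℕ) : (D.lay i).Ok := by
  unfold lay
  split
  · refine ok_nest (ok_app (ok_nest (ok_app (ok_fam fun _ => ok_fam fun _ => ok_opt (ok_sgl _))
      (ok_fam fun _ => ok_opt (D.ok_om _ _)))) (ok_app (ok_fam fun _ => ok_fam fun _ =>
        ok_opt (ok_sgl _)) (ok_tri ?_ ?_)))
    all_goals exact ok_app (ok_fam fun _ => ok_opt (D.ok_zc _ _)) (ok_opt (ok_sgl _))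
  · refine ok_nest (ok_app (ok_nest (ok_app (ok_tri ?_ ?_) (ok_app (ok_fam fun _ => ok_fam fun _ =>
      ok_opt (ok_sgl _)) (ok_app (ok_fam fun _ => ok_opt (D.ok_om _ _)) (ok_opt (ok_sgl _))))))
      (ok_fam fun _ => D.ok_zc _ _))
    all_goals exact ok_app (ok_fam fun _ => ok_opt (D.ok_om _ _)) (ok_opt (ok_sgl _))

/-! ### No repeated vertices -/

/-- the vertices in the pairs `W` in layer `i` -/
def kind (_D : Dat k α β) (i : ℕ) (v : Vx) : Prop :=
  (∃ w e, v = W w e) ∨ (∃ l e, v = X l e ∧ l ≠ i ∧ ¬ (i = 0 ∧ 1 ≤ l ∧ task l e ≤ α)) ∨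
    (v = y0 ∧ i = 1)

/-- the label of a vertex in layer `i` -/
def ow (i : ℕ) : Vx → ℕ
  | X l e => D.lam l e i
  | W w _ => w
  | y0 => D.lam 0 false 1
  | _ => 0

theorem has_rows (i w : ℕ) : Has (D.rows i w) (fun v =>
    (∃ l e, v = X l e ∧ l ≠ i ∧ ¬ (i = 0 ∧ 1 ≤ l ∧ task l e ≤ α) ∧ D.lam l e i = w) ∨
      (v = y0 ∧ i = 1 ∧ D.lam 0 false 1 = w)) := by
  refine (has_app (P := fun v => (i = 1 ∧ D.lam 0 false 1 = w) ∧
      (v = X 0 false ∨ v = X 0 true ∨ v = y0 ∨ False ∨ False))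
    (Q := fun v => ∃ l < k, ∃ e, (l ≠ i ∧ ¬ (i = 1 ∧ l = 0) ∧
      ¬ (i = 0 ∧ 1 ≤ l ∧ task l e ≤ α) ∧ D.lam l e i = w) ∧ v = X l e) ?_ ?_ ?_).mono ?_
  · refine has_opt fun _ => has_tri (has_nil _) (has_nil _) ?_ ?_ ?_ ?_ ?_ ?_ ?_ <;> simp
  · refine has_famR (fun l _ => has_famB (fun e => has_opt fun _ => has_sgl rfl) ?_) ?_
    · rintro v ⟨_, rfl⟩ ⟨_, h⟩
      simp at h
    · rintro l _ l' _ v ⟨e, _, rfl⟩ ⟨e', _, h⟩
      simp at h
      exact h.1
  · rintro v ⟨⟨h1, _⟩, h2⟩ ⟨l, _, e, ⟨_, h3, _⟩, h4⟩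
    rcases h2 with h2 | h2 | h2 | h2 | h2
    · rw [h2] at h4
      simp only [X.injEq] at h4
      exact h3 ⟨h1, h4.1.symm⟩
    · rw [h2] at h4
      simp only [X.injEq] at h4
      exact h3 ⟨h1, h4.1.symm⟩
    · rw [h2] at h4
      simp at h4
    · exact h2
    · exact h2
  · rintro v (⟨⟨h1, h1'⟩, h2⟩ | ⟨l, _, e, ⟨h2, h3, h4, h5⟩, rfl⟩)
    · rcases h2 with h2 | h2 | h2 | h2 | h2
      · exact Or.inl ⟨0, false, h2, by omega, by omega, by rw [h1]; exact h1'⟩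
      · exact Or.inl ⟨0, true, h2, by omega, by omega, by rw [h1, ← D.lam0]; exact h1'⟩
      · exact Or.inr ⟨h2, h1, h1'⟩
      · exact h2.elim
      · exact h2.elim
    · exact Or.inl ⟨l, e, rfl, h2, h4, h5⟩

theorem has_om (i w : ℕ) : Has (D.om i w) (fun v => D.ow i v = w ∧ D.kind i v) := by
  refine (has_nest (D.has_rows i w) ?_ ?_ ?_).mono ?_
  · simp
  · simp
  · simp
  · rintro v (rfl | rfl | ⟨l, e, rfl, h1, h2, h3⟩ | ⟨rfl, h1, h2⟩)
    · exact ⟨rfl, Or.inl ⟨w, false, rfl⟩⟩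
    · exact ⟨rfl, Or.inl ⟨w, true, rfl⟩⟩
    · exact ⟨h3, Or.inr (Or.inl ⟨l, e, rfl, h1, h2⟩)⟩
    · exact ⟨h2, Or.inr (Or.inr ⟨rfl, h1⟩)⟩

theorem has_famOm (i : ℕ) (Q : ℕ → Prop) [DecidablePred Q] :
    Has (fam (List.range β) fun w => opt (Q w) (D.om i w))
      (fun v => D.kind i v ∧ D.ow i v < β ∧ Q (D.ow i v)) := by
  refine (has_famR (fun w _ => has_opt fun _ => D.has_om i w) ?_).mono ?_
  · rintro w _ w' _ v ⟨_, h1, _⟩ ⟨_, h2, _⟩
    rw [← h1, ← h2]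
  · rintro v ⟨w, hw, h1, h2, h3⟩
    rw [h2]
    exact ⟨h3, hw, h1⟩

theorem kind_T {i m : ℕ} {e : Bool} : ¬ D.kind i (T m e) := by simp [kind]
theorem kind_Z {i m : ℕ} {e : Bool} : ¬ D.kind i (Z m e) := by simp [kind]
theorem kind_z0 {i : ℕ} : ¬ D.kind i z0 := by simp [kind]
theorem kind_y0 {i : ℕ} : D.kind i y0 ↔ i = 1 := by simp [kind]
theorem kind_X {i l : ℕ} {e : Bool} :
    D.kind i (X l e) ↔ l ≠ i ∧ ¬ (i = 0 ∧ 1 ≤ l ∧ task l e ≤ α) := by
  constructor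
  · rintro (⟨w, e', h⟩ | ⟨l', e', h, h'⟩ | ⟨h, _⟩)
    · simp at h
    · simp only [X.injEq] at h
      obtain ⟨rfl, rfl⟩ := h
      exact h'
    · simp at h
  · intro h
    exact Or.inr (Or.inl ⟨l, e, rfl, h⟩)

theorem has_T (P : ℕ → Bool → Prop) [∀ m e, Decidable (P m e)] :
    Has (fam (List.range k) fun m => fam [false, true] fun e => opt (P m e) (sgl (T m e)))
      (fun v => ∃ m e, v = T m e ∧ P m e) := by
  refine (has_famR (P := fun m v => ∃ e, P m e ∧ v = T m e)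
    (fun l _ => has_famB (fun e => has_opt fun _ => has_sgl rfl) ?_) ?_).mono ?_
  · rintro v ⟨_, rfl⟩ ⟨_, h⟩
    simp at h
  · rintro l _ l' _ v ⟨e, _, rfl⟩ ⟨e', _, h⟩
    simp at h
    exact h.1
  · rintro v ⟨m, _, e, h, rfl⟩
    exact ⟨m, e, rfl, h⟩

theorem has_X (P : ℕ → Bool → Prop) [∀ m e, Decidable (P m e)] :
    Has (fam (List.range k) fun m => fam [false, true] fun e => opt (P m e) (sgl (X m e)))
      (fun v => ∃ m e, v = X m e ∧ P m e) := by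
  refine (has_famR (P := fun m v => ∃ e, P m e ∧ v = X m e)
    (fun l _ => has_famB (fun e => has_opt fun _ => has_sgl rfl) ?_) ?_).mono ?_
  · rintro v ⟨_, rfl⟩ ⟨_, h⟩
    simp at h
  · rintro l _ l' _ v ⟨e, _, rfl⟩ ⟨e', _, h⟩
    simp at h
    exact h.1
  · rintro v ⟨m, _, e, h, rfl⟩
    exact ⟨m, e, rfl, h⟩

theorem has_zc (i j : ℕ) : Has (D.zc i j) (fun v =>
    (∃ e, v = Z j e) ∨ (D.kind i v ∧ D.ow i v < β ∧ D.gz (D.ow i v) j = i) ∨
      (∃ e, v = T 0 e ∧ 1 ≤ i ∧ task i e = j)) := by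
  refine (has_nest (has_app (D.has_famOm i (fun w => D.gz w j = i))
    (has_famB (P := fun e v => (1 ≤ i ∧ task i e = j) ∧ v = T 0 e)
      (fun e => has_opt fun _ => has_sgl rfl) ?_) ?_) ?_ ?_ ?_).mono ?_
  · rintro v ⟨_, rfl⟩ ⟨_, h⟩
    simp at h
  · rintro v ⟨h1, _⟩ ⟨e, _, rfl⟩
    exact D.kind_T h1
  · rintro (⟨h, _⟩ | ⟨e, _, h⟩)
    · exact D.kind_Z h
    · simp at h
  · rintro (⟨h, _⟩ | ⟨e, _, h⟩)
    · exact D.kind_Z h
    · simp at h
  · simp
  · rintro v (rfl | rfl | h | ⟨e, h1, rfl⟩)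
    · exact Or.inl ⟨_, rfl⟩
    · exact Or.inl ⟨_, rfl⟩
    · exact Or.inr (Or.inl h)
    · exact Or.inr (Or.inr ⟨e, rfl, h1⟩)

/-- disjointness of the contents of different `Z j` -/
theorem zc_disj {i j j' : ℕ} (hj : j < α) (hj' : j' < α) {v : Vx}
    (h : (∃ e, v = Z j e) ∨ (D.kind i v ∧ D.ow i v < β ∧ D.gz (D.ow i v) j = i) ∨
      (∃ e, v = T 0 e ∧ 1 ≤ i ∧ task i e = j))
    (h' : (∃ e, v = Z j' e) ∨ (D.kind i v ∧ D.ow i v < β ∧ D.gz (D.ow i v) j' = i) ∨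
      (∃ e, v = T 0 e ∧ 1 ≤ i ∧ task i e = j')) : j = j' := by
  rcases h with ⟨e, rfl⟩ | ⟨h1, h2, h3⟩ | ⟨e, rfl, h1, h2⟩
  · rcases h' with ⟨e', h'⟩ | ⟨h1, _⟩ | ⟨e', h', _⟩
    · simp at h'; exact h'.1
    · exact absurd h1 D.kind_Z
    · simp at h'
  · rcases h' with ⟨e', rfl⟩ | ⟨_, _, h4⟩ | ⟨e', rfl, _⟩
    · exact absurd h1 D.kind_Z
    · exact D.gz_inj _ h2 j hj j' hj' (h3.trans h4.symm)
    · exact absurd h1 D.kind_T
  · rcases h' with ⟨e', h'⟩ | ⟨h3, _⟩ | ⟨e', h', _, h3⟩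
    · simp at h'
    · exact absurd h3 D.kind_T
    · simp only [T.injEq, true_and] at h'
      subst h'
      rw [← h2, ← h3]

theorem has_H0 (e : Bool) : Has (D.H0 e) (fun v =>
    (∃ j < α, j % 2 = e.toNat ∧ ((∃ e, v = Z j e) ∨
      (D.kind 0 v ∧ D.ow 0 v < β ∧ D.gz (D.ow 0 v) j = 0))) ∨ (v = z0 ∧ α % 2 = e.toNat)) := by
  refine (has_app (has_famR (fun j _ => has_opt fun _ => D.has_zc 0 j) ?_)
    (has_opt fun _ => has_sgl rfl) (Q := fun v => (α % 2 = e.toNat) ∧ v = z0) ?_).mono ?_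
  · rintro j hj j' hj' v ⟨_, h⟩ ⟨_, h'⟩
    exact D.zc_disj hj hj' h h'
  · rintro v ⟨j, _, _, h⟩ ⟨_, rfl⟩
    rcases h with ⟨e, h⟩ | ⟨h, _⟩ | ⟨e, h, _⟩
    · simp at h
    · exact D.kind_z0 h
    · simp at h
  · rintro v (⟨j, hj, h1, h⟩ | ⟨h1, rfl⟩)
    · refine Or.inl ⟨j, hj, h1, ?_⟩
      rcases h with h | h | ⟨_, _, h, _⟩
      · exact Or.inl h
      · exact Or.inr h
      · omega
    · exact Or.inr ⟨rfl, h1⟩

theorem has_lay0 : Has D.lay0 (fun _ => True) := by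
  have hX : Has (nest (X 0 false) (X 0 true) D.XC0) (fun v => (∃ e, v = X 0 e) ∨
      (∃ m e, v = T m e ∧ 1 ≤ m) ∨ (D.kind 0 v ∧ D.ow 0 v < β ∧ ¬ D.inZ 0 (D.ow 0 v))) := by
    refine (has_nest (has_app (has_T (fun m _ => 1 ≤ m))
      (D.has_famOm 0 (fun w => ¬ D.inZ 0 w)) ?_) ?_ ?_ ?_).mono ?_
    · rintro v ⟨m, e, rfl, _⟩ ⟨h, _⟩
      exact D.kind_T h
    · rintro (⟨m, e, h, _⟩ | ⟨h, _⟩)
      · simp at h
      · simp [kind] at h
    · rintro (⟨m, e, h, _⟩ | ⟨h, _⟩)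
      · simp at h
      · simp [kind] at h
    · simp
    · rintro v (rfl | rfl | h | h)
      · exact Or.inl ⟨_, rfl⟩
      · exact Or.inl ⟨_, rfl⟩
      · exact Or.inr (Or.inl h)
      · exact Or.inr (Or.inr h)
  have hk1 : ∀ e, ¬ D.kind 0 (X 1 e) := by
    intro e
    have h1 := D.hα
    have h2 : task 1 e ≤ α := by
      cases e <;> simp [task] <;> omega
    rw [D.kind_X]
    exact fun h => h.2 ⟨rfl, le_refl _, h2⟩
  have hy : ¬ D.kind 0 y0 := by simp [kind]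
  have hT : Has (tri (X 1 false) (X 1 true) y0 (D.H0 false) (D.H0 true)) (fun v =>
      (∃ e, v = X 1 e) ∨ v = y0 ∨ v = z0 ∨ (∃ j e, v = Z j e) ∨
        (D.kind 0 v ∧ D.ow 0 v < β ∧ D.inZ 0 (D.ow 0 v))) := by
    refine (has_tri (D.has_H0 false) (D.has_H0 true) ?_ ?_ ?_ ?_ ?_ ?_ ?_).mono ?_
    · rintro v (⟨j, hj, h1, h2⟩ | ⟨h1, h2⟩) (⟨j', hj', h3, h4⟩ | ⟨h3, h4⟩)
      · have hjj : j = j' := D.zc_disj hj hj' (i := 0) (v := v)
          (by tauto) (by tauto)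
        subst hjj
        simp at h1 h3
        omega
      · subst h3
        rcases h2 with ⟨e, h2⟩ | ⟨h2, _⟩
        · simp at h2
        · exact D.kind_z0 h2
      · subst h1
        rcases h4 with ⟨e, h4⟩ | ⟨h4, _⟩
        · simp at h4
        · exact D.kind_z0 h4
      · simp at h2 h4
        omega
    · constructor <;>
      · rintro (⟨j, _, _, ⟨e, h⟩ | ⟨h, _⟩⟩ | ⟨h, _⟩)
        · simp at h
        · exact hk1 _ h
        · simp at h
    · constructor <;>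
      · rintro (⟨j, _, _, ⟨e, h⟩ | ⟨h, _⟩⟩ | ⟨h, _⟩)
        · simp at h
        · exact hk1 _ h
        · simp at h
    · constructor <;>
      · rintro (⟨j, _, _, ⟨e, h⟩ | ⟨h, _⟩⟩ | ⟨h, _⟩)
        · simp at h
        · exact hy h
        · simp at h
    · simp
    · simp
    · simp
    · have key : ∀ (e : Bool) (v : Vx), ((∃ j < α, j % 2 = e.toNat ∧ ((∃ e, v = Z j e) ∨
          (D.kind 0 v ∧ D.ow 0 v < β ∧ D.gz (D.ow 0 v) j = 0))) ∨ (v = z0 ∧ α % 2 = e.toNat)) →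
          (∃ e, v = X 1 e) ∨ v = y0 ∨ v = z0 ∨ (∃ j e, v = Z j e) ∨
            (D.kind 0 v ∧ D.ow 0 v < β ∧ D.inZ 0 (D.ow 0 v)) := by
        rintro e v (⟨j, hj, _, ⟨e', h⟩ | ⟨h1, h2, h3⟩⟩ | ⟨h, _⟩)
        · exact Or.inr (Or.inr (Or.inr (Or.inl ⟨j, e', h⟩)))
        · exact Or.inr (Or.inr (Or.inr (Or.inr ⟨h1, h2, j, hj, h3⟩)))
        · exact Or.inr (Or.inr (Or.inl h))
      rintro v (rfl | rfl | rfl | h | h)
      · exact Or.inl ⟨_, rfl⟩
      · exact Or.inl ⟨_, rfl⟩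
      · exact Or.inr (Or.inl rfl)
      · exact key _ _ h
      · exact key _ _ h
  have hHang : Has (fam (List.range k) fun l => fam [false, true] fun e =>
      opt (2 ≤ l ∧ task l e ≤ α) (sgl (X l e))) (fun v => ∃ l e, v = X l e ∧
        (2 ≤ l ∧ task l e ≤ α)) := has_X (fun l e => 2 ≤ l ∧ task l e ≤ α)
  refine (has_nest (has_app hX (has_app hHang hT ?_) ?_) ?_ ?_ ?_).mono (fun _ _ => trivial)
  · rintro v ⟨l, e, rfl, h1, h2⟩ (⟨e', h⟩ | h | h | ⟨j, e', h⟩ | ⟨h, _⟩)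
    · simp at h; omega
    · simp at h
    · simp at h
    · simp at h
    · exact (D.kind_X.1 h).2 ⟨rfl, by omega, h2⟩
  · rintro v (⟨e, rfl⟩ | ⟨m, e, rfl, h1⟩ | ⟨h1, h2, h3⟩) (⟨l, e', h, h4⟩ | ⟨e', h⟩ | h | h |
      ⟨j, e', h⟩ | ⟨h, h5, h6⟩)
    · simp at h; omega
    · simp at h
    · simp at h
    · simp at h
    · simp at h
    · exact (D.kind_X.1 h).1 rfl
    · simp at h
    · simp at h
    · simp at h
    · simp at h
    · simp at h
    · exact D.kind_T h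
    · subst h
      exact (D.kind_X.1 h1).2 ⟨rfl, by omega, h4.2⟩
    · subst h
      exact hk1 _ h1
    · subst h
      exact hy h1
    · subst h
      exact D.kind_z0 h1
    · subst h
      exact D.kind_Z h1
    · exact h3 h6
  · rintro ((⟨e, h⟩ | ⟨m, e, h, h1⟩ | ⟨h, _⟩) | ⟨l, e, h, _⟩ | ⟨e, h⟩ | h | h | ⟨j, e, h⟩ | ⟨h, _⟩)
    all_goals first
      | exact D.kind_T h
      | (simp at h; done)
      | (simp at h; omega)
  · rintro ((⟨e, h⟩ | ⟨m, e, h, h1⟩ | ⟨h, _⟩) | ⟨l, e, h, _⟩ | ⟨e, h⟩ | h | h | ⟨j, e, h⟩ | ⟨h, _⟩)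
    all_goals first
      | exact D.kind_T h
      | (simp at h; done)
      | (simp at h; omega)
  · simp

theorem b_pos (i : ℕ) : 1 ≤ b k i := by
  unfold b; split <;> omega

theorem b_ne (D : Dat k α β) {i : ℕ} (hi : i < k) : b k i ≠ i := by
  have := D.hk
  have := D.hα
  unfold b; split <;> omega

theorem has_GS (i : ℕ) (e : Bool) : Has (D.GS i e) (fun v =>
    (D.kind i v ∧ D.ow i v < β ∧ (D.fl (D.ow i v) = i ∧ D.fe (D.ow i v) = e)) ∨
      (task i e = α ∧ v = T 0 e)) := by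
  refine has_app (D.has_famOm i (fun w => D.fl w = i ∧ D.fe w = e)) (has_opt fun _ => has_sgl rfl) ?_
  rintro v ⟨h, _⟩ ⟨_, rfl⟩
  exact D.kind_T h

theorem has_XC {i : ℕ} (hi : 1 ≤ i) (hik : i < k) : Has (D.XC i) (fun v =>
    (∃ m e, v = T m e ∧ m ≠ i ∧ (m = 0 → α ≤ task i e)) ∨ v = z0 ∨
      (D.kind i v ∧ D.ow i v < β ∧ ¬ D.inZ i (D.ow i v)) ∨ (v = y0 ∧ 2 ≤ i)) := by
  have hb1 := b_pos (k := k) i
  have hb2 := D.b_ne hik
  have h1 : Has (tri (T (b k i) false) (T (b k i) true) z0 (D.GS i false) (D.GS i true)) (fun v =>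
      (∃ e, v = T (b k i) e) ∨ v = z0 ∨ (∃ e, v = T 0 e ∧ task i e = α) ∨
        (D.kind i v ∧ D.ow i v < β ∧ D.fl (D.ow i v) = i)) := by
    refine (has_tri (D.has_GS i false) (D.has_GS i true) ?_ ?_ ?_ ?_ ?_ ?_ ?_).mono ?_
    · rintro v (⟨h1, h2, h3, h4⟩ | ⟨h1, rfl⟩) (⟨h5, h6, h7, h8⟩ | ⟨h5, h6⟩)
      · rw [h4] at h8; simp at h8
      · subst h6; exact D.kind_T h1
      · exact D.kind_T h5
      · simp at h6
    · constructor <;>
      · rintro (⟨h1, _⟩ | ⟨_, h⟩)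
        · exact D.kind_T h1
        · first
            | (simp at h; done)
            | (simp at h; omega)
    · constructor <;>
      · rintro (⟨h1, _⟩ | ⟨_, h⟩)
        · exact D.kind_T h1
        · first
            | (simp at h; done)
            | (simp at h; omega)
    · constructor <;>
      · rintro (⟨h1, _⟩ | ⟨_, h⟩)
        · exact D.kind_z0 h1
        · simp at h
    · simp
    · simp
    · simp
    · rintro v (rfl | rfl | rfl | (⟨h1, h2, h3, h4⟩ | ⟨h1, h2⟩) | (⟨h1, h2, h3, h4⟩ | ⟨h1, h2⟩))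
      · exact Or.inl ⟨_, rfl⟩
      · exact Or.inl ⟨_, rfl⟩
      · exact Or.inr (Or.inl rfl)
      · exact Or.inr (Or.inr (Or.inr ⟨h1, h2, h3⟩))
      · exact Or.inr (Or.inr (Or.inl ⟨_, h2, h1⟩))
      · exact Or.inr (Or.inr (Or.inr ⟨h1, h2, h3⟩))
      · exact Or.inr (Or.inr (Or.inl ⟨_, h2, h1⟩))
  have h2 : Has (app (fam (List.range β) fun w => opt (¬ D.inZ i w ∧ D.fl w ≠ i) (D.om i w))
        (opt (2 ≤ i) (sgl y0))) (fun v =>
      (D.kind i v ∧ D.ow i v < β ∧ (¬ D.inZ i (D.ow i v) ∧ D.fl (D.ow i v) ≠ i)) ∨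
        (2 ≤ i ∧ v = y0)) := by
    refine has_app (D.has_famOm i (fun w => ¬ D.inZ i w ∧ D.fl w ≠ i))
      (has_opt fun _ => has_sgl rfl) ?_
    rintro v ⟨h, _⟩ ⟨h', rfl⟩
    have := D.kind_y0.1 h
    omega
  refine (has_app h1 (has_app (has_T (fun m e => m ≠ i ∧ m ≠ b k i ∧ (m = 0 → α < task i e)))
    h2 ?_) ?_).mono ?_
  · rintro v ⟨m, e, rfl, _⟩ (⟨h, _⟩ | ⟨_, h⟩)
    · exact D.kind_T h
    · simp at h
  · rintro v (⟨e, rfl⟩ | rfl | ⟨e, rfl, h⟩ | ⟨h1, h2, h3⟩)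
      (⟨m, e', h4, h5, h6, h7⟩ | ⟨h4, _, _, h5⟩ | ⟨_, h4⟩)
    · simp at h4; omega
    · exact D.kind_T h4
    · simp at h4
    · simp at h4
    · exact D.kind_z0 h4
    · simp at h4
    · simp only [T.injEq] at h4
      obtain ⟨rfl, rfl⟩ := h4
      have := h7 rfl
      omega
    · exact D.kind_T h4
    · simp at h4
    · subst h4; exact D.kind_T h1
    · exact h5 h3
    · subst h4
      have := D.kind_y0.1 h1
      omega
  · rintro v ((⟨e, rfl⟩ | rfl | ⟨e, rfl, h⟩ | ⟨h1, h2, h3⟩) |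
      ⟨m, e, rfl, h1, h2, h3⟩ | ⟨h1, h2, h3, h4⟩ | ⟨h1, rfl⟩)
    · exact Or.inl ⟨_, _, rfl, hb2, by omega⟩
    · exact Or.inr (Or.inl rfl)
    · exact Or.inl ⟨_, _, rfl, by omega, fun _ => h.ge⟩
    · refine Or.inr (Or.inr (Or.inl ⟨h1, h2, ?_⟩))
      rintro ⟨j, hj, h⟩
      exact D.fl_ne _ h2 j hj (h.trans h3.symm)
    · exact Or.inl ⟨_, _, rfl, h1, fun h => (h3 h).le⟩
    · exact Or.inr (Or.inr (Or.inl ⟨h1, h2, h3⟩))
    · exact Or.inr (Or.inr (Or.inr ⟨rfl, h1⟩))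

theorem has_lay1 {i : ℕ} (hi : 1 ≤ i) (hik : i < k) : Has (D.lay1 i) (fun _ => True) := by
  have h1 : Has (nest (X i false) (X i true) (D.XC i)) (fun v => (∃ e, v = X i e) ∨
      (∃ m e, v = T m e ∧ m ≠ i ∧ (m = 0 → α ≤ task i e)) ∨ v = z0 ∨
      (D.kind i v ∧ D.ow i v < β ∧ ¬ D.inZ i (D.ow i v)) ∨ (v = y0 ∧ 2 ≤ i)) := by
    refine (has_nest (D.has_XC hi hik) ?_ ?_ ?_).mono ?_
    · rintro (⟨m, e, h, _⟩ | h | ⟨h, _⟩ | ⟨h, _⟩)
      · simp at h
      · simp at h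
      · exact (D.kind_X.1 h).1 rfl
      · simp at h
    · rintro (⟨m, e, h, _⟩ | h | ⟨h, _⟩ | ⟨h, _⟩)
      · simp at h
      · simp at h
      · exact (D.kind_X.1 h).1 rfl
      · simp at h
    · simp
    · rintro v (rfl | rfl | h)
      · exact Or.inl ⟨_, rfl⟩
      · exact Or.inl ⟨_, rfl⟩
      · exact Or.inr h
  have h2 : Has (fam (List.range α) fun j => D.zc i j) (fun v => (∃ j e, v = Z j e) ∨
      (D.kind i v ∧ D.ow i v < β ∧ D.inZ i (D.ow i v)) ∨ (∃ e, v = T 0 e ∧ task i e < α)) := by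
    refine (has_famR (fun j _ => D.has_zc i j) ?_).mono ?_
    · intro j hj j' hj' v h h'
      exact D.zc_disj hj hj' h h'
    · rintro v ⟨j, hj, ⟨e, h⟩ | ⟨h1, h2, h3⟩ | ⟨e, h1, h2, h3⟩⟩
      · exact Or.inl ⟨j, e, h⟩
      · exact Or.inr (Or.inl ⟨h1, h2, j, hj, h3⟩)
      · exact Or.inr (Or.inr ⟨e, h1, by omega⟩)
  refine (has_nest (has_app h1 h2 ?_) ?_ ?_ ?_).mono (fun _ _ => trivial)
  · rintro v (⟨e, rfl⟩ | ⟨m, e, rfl, h1, h2⟩ | rfl | ⟨h1, h2, h3⟩ | ⟨rfl, h1⟩)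
      (⟨j, e', h4⟩ | ⟨h4, h5, h6⟩ | ⟨e', h4, h5⟩)
    · simp at h4
    · exact (D.kind_X.1 h4).1 rfl
    · simp at h4
    · simp at h4
    · exact D.kind_T h4
    · simp only [T.injEq] at h4
      obtain ⟨rfl, rfl⟩ := h4
      have := h2 rfl
      omega
    · simp at h4
    · exact D.kind_z0 h4
    · simp at h4
    · subst h4; exact D.kind_Z h1
    · exact h3 h6
    · subst h4; exact D.kind_T h1
    · simp at h4
    · have := D.kind_y0.1 h4
      omega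
    · simp at h4
  · rintro ((⟨e, h⟩ | ⟨m, e, h, h1, h2⟩ | h | ⟨h, _⟩ | ⟨h, h1⟩) | (⟨j, e', h⟩ | ⟨h, _⟩ | ⟨e', h, _⟩))
    all_goals first
      | exact D.kind_T h
      | (simp at h; done)
      | (simp at h; omega)
  · rintro ((⟨e, h⟩ | ⟨m, e, h, h1, h2⟩ | h | ⟨h, _⟩ | ⟨h, h1⟩) | (⟨j, e', h⟩ | ⟨h, _⟩ | ⟨e', h, _⟩))
    all_goals first
      | exact D.kind_T h
      | (simp at h; done)
      | (simp at h; omega)
  · simp

theorem nodup_lay {i : ℕ} (hik : i < k) : (D.lay i).ord.Nodup := by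
  unfold lay
  split
  · exact D.has_lay0.1
  · exact (D.has_lay1 (by omega) hik).1

end Dat

end Pool.Agent.H30.Thk
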