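import Pool.Agent.H30.Thk.Lattice

set_option autoImplicit false

/-! # A bipartite graph with a minor model in the triangular lattice has at most `2n` edges -/

namespace Pool.Agent.H30.Thk

open Finset Relation

/-- A minor model of the bipartite graph with edge set `E` in the triangular lattice. -/
structure Model (R C : Type) (E : Finset (R × C)) where
  X : R ⊕ C → Finset Pt
  disj : ∀ v w, v ≠ w → Disjoint (X v) (X w)
  root : R ⊕ C → Pt
  conn : ∀ v, ∀ p ∈ X v, ReflTransGen (fun p q => LAdj p q ∧ p ∈ X v ∧ q ∈ X v) (root v) p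
  edge : ∀ e ∈ E, ∃ h : Ed, (h.1 ∈ X (Sum.inl e.1) ∧ tip h ∈ X (Sum.inr e.2)) ∨
    (h.1 ∈ X (Sum.inr e.2) ∧ tip h ∈ X (Sum.inl e.1))

namespace Model

variable {R C : Type} [Fintype R] [Fintype C] [DecidableEq R] [DecidableEq C]
  {E : Finset (R × C)} (M : Model R C E)

/-- edges incident with a vertex -/
def inc (e : R × C) (v : R ⊕ C) : Prop := v = Sum.inl e.1 ∨ v = Sum.inr e.2

instance (e : R × C) (v : R ⊕ C) : Decidable (inc e v) := by unfold inc; infer_instance

noncomputable def h (e : {x // x ∈ E}) : Ed := (M.edge e.1 e.2).choose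

omit [Fintype R] [Fintype C] [DecidableEq R] [DecidableEq C] in
theorem h_spec (e : {x // x ∈ E}) :
    ((M.h e).1 ∈ M.X (Sum.inl e.1.1) ∧ tip (M.h e) ∈ M.X (Sum.inr e.1.2)) ∨
    ((M.h e).1 ∈ M.X (Sum.inr e.1.2) ∧ tip (M.h e) ∈ M.X (Sum.inl e.1.1)) :=
  (M.edge e.1 e.2).choose_spec

omit [Fintype R] [Fintype C] [DecidableEq R] [DecidableEq C] in
theorem X_unique {v w : R ⊕ C} {p : Pt} (hv : p ∈ M.X v) (hw : p ∈ M.X w) : v = w := by
  by_contra hne
  exact Finset.disjoint_left.1 (M.disj v w hne) hv hw

omit [Fintype R] [Fintype C] [DecidableEq R] [DecidableEq C] in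
theorem h_inj : Function.Injective M.h := by
  intro e e' he
  have h1 := M.h_spec e
  have h2 := M.h_spec e'
  rw [he] at h1
  rcases h1 with ⟨a, b⟩ | ⟨a, b⟩ <;> rcases h2 with ⟨c, d⟩ | ⟨c, d⟩
  · have := M.X_unique a c
    have := M.X_unique b d
    apply Subtype.ext
    apply Prod.ext <;> simp_all
  · have := M.X_unique a c
    simp at this
  · have := M.X_unique a c
    simp at this
  · have := M.X_unique a c
    have := M.X_unique b d
    apply Subtype.ext
    apply Prod.ext <;> simp_all

/-- internal edges of branch sets -/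
def Int (e : Ed) : Prop := ∃ v, e.1 ∈ M.X v ∧ tip e ∈ M.X v

/-- allowed edges -/
def Ok (e : Ed) : Prop := M.Int e ∨ ∃ x, e = M.h x

omit [Fintype R] [Fintype C] [DecidableEq R] [DecidableEq C] in
theorem h_not_int (e : {x // x ∈ E}) : ¬ M.Int (M.h e) := by
  rintro ⟨v, h1, h2⟩
  rcases M.h_spec e with ⟨a, b⟩ | ⟨a, b⟩
  · have := M.X_unique h1 a
    have := M.X_unique h2 b
    simp_all
  · have := M.X_unique h1 a
    have := M.X_unique h2 b
    simp_all

omit [Fintype R] [Fintype C] [DecidableEq R] [DecidableEq C] in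
/-- paths inside branch sets -/
theorem exists_path (v : R ⊕ C) (p : Pt) (hp : p ∈ M.X v) :
    ∃ c : Ch, (∀ e, c e ≠ 0 → M.Int e) ∧ (∃ N : ℤ, ∀ e : Ed, N < e.1.2 → c e = 0) ∧
      ∀ q, bd c q = (if q = M.root v then 1 else 0) + (if q = p then 1 else 0) := by
  have h := M.conn v p hp
  clear hp
  induction h with
  | refl =>
    refine ⟨0, by simp, ⟨0, by simp⟩, fun q => ?_⟩
    rw [bd_zero]
    exact (zmod2_add_self _).symm
  | tail hab hbc ih =>
    rename_i b c'
    obtain ⟨c, h1, ⟨N, h2⟩, h3⟩ := ih
    obtain ⟨⟨d, hd⟩, hb, hc⟩ := hbc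
    have key : ∃ e : Ed, ({e.1, tip e} : Set Pt) = {b, c'} ∧ ∀ q, bd (one e) q =
        (if q = b then 1 else 0) + (if q = c' then 1 else 0) := by
      rcases hd with hd | hd
      · have ht : tip (b, d) = c' := hd.symm
        refine ⟨(b, d), ?_, fun q => ?_⟩
        · rw [ht]
        · rw [bd_one, ht]
      · have ht : tip (c', d) = b := hd.symm
        refine ⟨(c', d), ?_, fun q => ?_⟩
        · rw [ht, Set.pair_comm]
        · rw [bd_one, ht, add_comm]
    obtain ⟨e, he, hbe⟩ := key
    have hemem : M.Int e := by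
      have e1 : e.1 ∈ ({b, c'} : Set Pt) := by rw [← he]; simp
      have e2 : tip e ∈ ({b, c'} : Set Pt) := by rw [← he]; simp
      refine ⟨v, ?_, ?_⟩
      · rcases e1 with h | h
        · rw [h]; exact hb
        · rw [h]; exact hc
      · rcases e2 with h | h
        · rw [h]; exact hb
        · rw [h]; exact hc
    refine ⟨c + one e, ?_, ⟨max N e.1.2, ?_⟩, fun q => ?_⟩
    · intro e' he'
      by_cases h : e' = e
      · rw [h]; exact hemem
      · apply h1
        simpa [one, Pi.single_eq_of_ne h] using he'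
    · intro e' he'
      have h : e' ≠ e := by
        rintro rfl
        exact absurd he' (not_lt.2 (le_max_right _ _))
      simp only [Pi.add_apply, one, Pi.single_eq_of_ne h, add_zero]
      exact h2 e' (lt_of_le_of_lt (le_max_left _ _) he')
    · rw [bd_add, h3, hbe]
      have : ∀ x y z : ZMod 2, (x + y) + (y + z) = x + z := by decide
      exact this _ _ _

/-- The boundary map of the bipartite graph. -/
def bdG (E : Finset (R × C)) : ({x // x ∈ E} → ZMod 2) →ₗ[ZMod 2] (R ⊕ C → ZMod 2) where
  toFun z v := ∑ e : {x // x ∈ E}, if inc e.1 v then z e else 0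
  map_add' z w := by
    funext v
    simp only [Pi.add_apply, ← Finset.sum_add_distrib]
    refine Finset.sum_congr rfl fun e _ => ?_
    split_ifs <;> simp
  map_smul' a z := by
    funext v
    simp only [Pi.smul_apply, smul_eq_mul, RingHom.id_apply, Finset.mul_sum]
    refine Finset.sum_congr rfl fun e _ => ?_
    split_ifs <;> simp

omit [Fintype R] [Fintype C] in
/-- Lifting a cycle of the graph to a lattice cycle. -/
theorem exists_lift (z : {x // x ∈ E} → ZMod 2) (hz : ∀ v, ∑ e : {x // x ∈ E},
    (if inc e.1 v then z e else 0) = 0) :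
    ∃ c : Ch, (∀ p, bd c p = 0) ∧ (∃ N : ℤ, ∀ e : Ed, N < e.1.2 → c e = 0) ∧
      (∀ e, c (M.h e) = z e) ∧ ∀ e, ¬ M.Ok e → c e = 0 := by
  classical
  -- end points of `h e`
  have hend : ∀ e : {x // x ∈ E}, ∃ u w : Pt, u ∈ M.X (Sum.inl e.1.1) ∧
      w ∈ M.X (Sum.inr e.1.2) ∧ ∀ q, bd (one (M.h e)) q =
        (if q = u then 1 else 0) + (if q = w then 1 else 0) := by
    intro e
    rcases M.h_spec e with ⟨a, b⟩ | ⟨a, b⟩
    · exact ⟨_, _, a, b, fun q => bd_one _ _⟩
    · exact ⟨_, _, b, a, fun q => by rw [bd_one, add_comm]⟩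
  choose u w hu hw hb using hend
  choose P hP1 hP2 hP3 using fun e : {x // x ∈ E} => M.exists_path (Sum.inl e.1.1) (u e) (hu e)
  choose Q hQ1 hQ2 hQ3 using fun e : {x // x ∈ E} => M.exists_path (Sum.inr e.1.2) (w e) (hw e)
  let c : Ch := ∑ e : {x // x ∈ E}, z e • (one (M.h e) + P e + Q e)
  refine ⟨c, ?_, ?_, ?_, ?_⟩
  · intro q
    simp only [c]
    rw [bd_sum]
    have h1 : ∀ e : {x // x ∈ E}, bd (z e • (one (M.h e) + P e + Q e)) q =
        z e * (if q = M.root (Sum.inl e.1.1) then 1 else 0) +
        z e * (if q = M.root (Sum.inr e.1.2) then 1 else 0) := by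
      intro e
      rw [bd_smul, bd_add, bd_add, hb, hP3, hQ3]
      have : ∀ a x y s t : ZMod 2, a * (x + y + (s + x) + (t + y)) = a * s + a * t := by decide
      exact this _ _ _ _ _
    rw [Finset.sum_congr rfl fun e _ => h1 e, Finset.sum_add_distrib]
    have h2 : ∀ (f : {x // x ∈ E} → R ⊕ C), (∀ e, inc e.1 (f e)) → True := fun _ _ => trivial
    have h3 : ∑ e : {x // x ∈ E}, z e * (if q = M.root (Sum.inl e.1.1) then 1 else 0) =
        ∑ a ∈ (Finset.univ.image fun e : {x // x ∈ E} => e.1.1),
          (if q = M.root (Sum.inl a) then 1 else 0) *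
            ∑ e : {x // x ∈ E}, (if inc e.1 (Sum.inl a) then z e else 0) := by
      simp only [Finset.mul_sum]
      rw [Finset.sum_comm]
      refine Finset.sum_congr rfl fun e _ => ?_
      rw [Finset.sum_eq_single e.1.1]
      · have : inc e.1 (Sum.inl e.1.1) := Or.inl rfl
        rw [if_pos this, mul_comm]
      · intro a _ ha
        have : ¬ inc e.1 (Sum.inl a) := by
          rintro (h | h)
          · exact ha (Sum.inl.inj h)
          · simp at h
        rw [if_neg this, mul_zero]
      · intro h
        exact absurd (Finset.mem_image_of_mem _ (Finset.mem_univ e)) h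
    have h4 : ∑ e : {x // x ∈ E}, z e * (if q = M.root (Sum.inr e.1.2) then 1 else 0) =
        ∑ a ∈ (Finset.univ.image fun e : {x // x ∈ E} => e.1.2),
          (if q = M.root (Sum.inr a) then 1 else 0) *
            ∑ e : {x // x ∈ E}, (if inc e.1 (Sum.inr a) then z e else 0) := by
      simp only [Finset.mul_sum]
      rw [Finset.sum_comm]
      refine Finset.sum_congr rfl fun e _ => ?_
      rw [Finset.sum_eq_single e.1.2]
      · have : inc e.1 (Sum.inr e.1.2) := Or.inr rfl
        rw [if_pos this, mul_comm]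
      · intro a _ ha
        have : ¬ inc e.1 (Sum.inr a) := by
          rintro (h | h)
          · simp at h
          · exact ha (Sum.inr.inj h)
        rw [if_neg this, mul_zero]
      · intro h
        exact absurd (Finset.mem_image_of_mem _ (Finset.mem_univ e)) h
    rw [h3, h4]
    simp only [hz, mul_zero, Finset.sum_const_zero, add_zero]
  · choose N hN using hP2
    choose N' hN' using hQ2
    refine ⟨∑ e : {x // x ∈ E}, (|N e| + |N' e| + |(M.h e).1.2|), fun e' he' => ?_⟩
    simp only [c, Finset.sum_apply, Pi.smul_apply, Pi.add_apply, smul_eq_mul]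
    refine Finset.sum_eq_zero fun e _ => ?_
    have hle : |N e| + |N' e| + |(M.h e).1.2| ≤
        ∑ e : {x // x ∈ E}, (|N e| + |N' e| + |(M.h e).1.2|) :=
      Finset.single_le_sum (f := fun e : {x // x ∈ E} => |N e| + |N' e| + |(M.h e).1.2|)
        (fun i _ => by positivity) (Finset.mem_univ e)
    have a1 := le_abs_self (N e)
    have a2 := le_abs_self (N' e)
    have a3 := le_abs_self ((M.h e).1.2)
    have b1 := abs_nonneg (N e)
    have b2 := abs_nonneg (N' e)
    have b3 := abs_nonneg ((M.h e).1.2)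
    rw [hN e e' (by omega), hN' e e' (by omega), one, Pi.single_eq_of_ne]
    · simp
    · rintro rfl
      omega
  · intro e0
    simp only [c, Finset.sum_apply, Pi.smul_apply, Pi.add_apply, smul_eq_mul]
    rw [Finset.sum_eq_single e0]
    · have h1 : P e0 (M.h e0) = 0 := by
        by_contra h
        exact M.h_not_int _ (hP1 _ _ h)
      have h2 : Q e0 (M.h e0) = 0 := by
        by_contra h
        exact M.h_not_int _ (hQ1 _ _ h)
      rw [h1, h2]
      simp [one]
    · intro e _ he
      have h1 : P e (M.h e0) = 0 := by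
        by_contra h
        exact M.h_not_int _ (hP1 _ _ h)
      have h2 : Q e (M.h e0) = 0 := by
        by_contra h
        exact M.h_not_int _ (hQ1 _ _ h)
      rw [h1, h2, one, Pi.single_eq_of_ne]
      · simp
      · intro h
        exact he (M.h_inj h).symm
    · simp
  · intro e' he'
    simp only [c, Finset.sum_apply, Pi.smul_apply, Pi.add_apply, smul_eq_mul]
    refine Finset.sum_eq_zero fun e _ => ?_
    have h1 : P e e' = 0 := by
      by_contra h
      exact he' (Or.inl (hP1 _ _ h))
    have h2 : Q e e' = 0 := by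
      by_contra h
      exact he' (Or.inl (hQ1 _ _ h))
    rw [h1, h2, one, Pi.single_eq_of_ne]
    · simp
    · rintro rfl
      exact he' (Or.inr ⟨e, rfl⟩)

omit [Fintype R] [Fintype C] in
/-- A lattice cycle supported on allowed edges induces a cycle of the graph. -/
theorem cross (c : Ch) (hc : ∀ p, bd c p = 0) (hok : ∀ e, ¬ M.Ok e → c e = 0) (v : R ⊕ C) :
    ∑ e : {x // x ∈ E}, (if inc e.1 v then c (M.h e) else 0) = 0 := by
  classical
  let S1 : Finset Ed := (M.X v) ×ˢ Finset.univ
  let S2 : Finset Ed := Finset.univ.biUnion fun d : Fin 3 => (M.X v).image fun p => (p - dl d, d)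
  have m1 : ∀ e, e ∈ S1 ↔ e.1 ∈ M.X v := by intro e; simp [S1]
  have m2 : ∀ e, e ∈ S2 ↔ tip e ∈ M.X v := by
    rintro ⟨p, d⟩
    simp only [S2, Finset.mem_biUnion, Finset.mem_univ, true_and, Finset.mem_image, tip,
      Prod.mk.injEq]
    constructor
    · rintro ⟨d', q, hq, h1, rfl⟩
      rw [← h1]; simpa using hq
    · intro h
      exact ⟨d, _, h, by simp, rfl⟩
  have hsum : ∑ e ∈ S1, c e + ∑ e ∈ S2, c e = 0 := by
    have h1 : ∑ p ∈ M.X v, bd c p = 0 := Finset.sum_eq_zero fun p _ => hc p
    have h2 : ∑ e ∈ S1, c e = ∑ p ∈ M.X v, ∑ d : Fin 3, c (p, d) := by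
      rw [Finset.sum_product]
    have h3 : ∑ e ∈ S2, c e = ∑ p ∈ M.X v, ∑ d : Fin 3, c (p - dl d, d) := by
      rw [Finset.sum_biUnion]
      · rw [Finset.sum_comm]
        refine Finset.sum_congr rfl fun d _ => ?_
        rw [Finset.sum_image]
        intro p _ q _ hpq
        simpa using hpq
      · intro d _ d' _ hdd
        rw [Function.onFun, Finset.disjoint_left]
        intro e he he'
        simp only [Finset.mem_image] at he he'
        obtain ⟨p, -, rfl⟩ := he
        obtain ⟨q, -, hq⟩ := he'
        exact hdd (congrArg Prod.snd hq).symm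
    rw [h2, h3, ← Finset.sum_add_distrib, ← h1]
    refine Finset.sum_congr rfl fun p _ => ?_
    simp only [bd, Finset.sum_add_distrib]
  -- the terms of the symmetric difference
  have hA : ∑ e ∈ S1, c e = ∑ e ∈ S1 \ S2, c e + ∑ e ∈ S1 ∩ S2, c e := by
    rw [← Finset.sum_union (Finset.disjoint_sdiff_inter S1 S2)]
    congr 1
    ext e; simp; tauto
  have hB : ∑ e ∈ S2, c e = ∑ e ∈ S2 \ S1, c e + ∑ e ∈ S1 ∩ S2, c e := by
    rw [Finset.inter_comm, ← Finset.sum_union (Finset.disjoint_sdiff_inter S2 S1)]
    congr 1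
    ext e; simp; tauto
  have hD : ∑ e ∈ (S1 \ S2) ∪ (S2 \ S1), c e = 0 := by
    rw [Finset.sum_union]
    · rw [hA, hB] at hsum
      have : ∀ x y t : ZMod 2, x + t + (y + t) = 0 → x + y = 0 := by decide
      exact this _ _ _ hsum
    · rw [Finset.disjoint_left]
      intro e he he'
      simp only [Finset.mem_sdiff] at he he'
      exact he.2 he'.1
  rw [← Finset.sum_filter]
  have himg : ∑ e ∈ Finset.univ.filter (fun e : {x // x ∈ E} => inc e.1 v), c (M.h e) =
      ∑ e ∈ (Finset.univ.filter (fun e : {x // x ∈ E} => inc e.1 v)).image M.h, c e := by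
    rw [Finset.sum_image]
    intro a _ b _ hab
    exact M.h_inj hab
  rw [himg]
  refine Eq.trans (Finset.sum_subset ?_ ?_) hD
  · intro e he
    simp only [Finset.mem_image, Finset.mem_filter, Finset.mem_univ, true_and] at he
    obtain ⟨x, hx, rfl⟩ := he
    simp only [Finset.mem_union, Finset.mem_sdiff, m1, m2]
    rcases M.h_spec x with ⟨a, b⟩ | ⟨a, b⟩ <;> rcases hx with rfl | rfl
    · left; exact ⟨a, fun h => by have := M.X_unique h b; simp at this⟩
    · right; exact ⟨b, fun h => by have := M.X_unique h a; simp at this⟩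
    · right; exact ⟨b, fun h => by have := M.X_unique h a; simp at this⟩
    · left; exact ⟨a, fun h => by have := M.X_unique h b; simp at this⟩
  · intro e he hne
    by_contra hce
    have hoke : M.Ok e := by
      by_contra h
      exact hce (hok e h)
    rcases hoke with ⟨w, h1, h2⟩ | ⟨x, rfl⟩
    · simp only [Finset.mem_union, Finset.mem_sdiff, m1, m2] at he
      rcases he with ⟨h3, h4⟩ | ⟨h3, h4⟩
      · have := M.X_unique h1 h3
        subst this
        exact h4 h2
      · have := M.X_unique h2 h3
        subst this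
        exact h4 h1
    · apply hne
      refine Finset.mem_image_of_mem _ ?_
      simp only [Finset.mem_filter, Finset.mem_univ, true_and]
      simp only [Finset.mem_union, Finset.mem_sdiff, m1, m2] at he
      rcases M.h_spec x with ⟨a, b⟩ | ⟨a, b⟩ <;> rcases he with ⟨h3, h4⟩ | ⟨h3, h4⟩
      · left; exact M.X_unique h3 a
      · right; exact M.X_unique h3 b
      · right; exact M.X_unique h3 a
      · left; exact M.X_unique h3 b

omit [Fintype R] [Fintype C] in
/-- A nonzero cycle of a simple bipartite graph has at least four edges. -/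
theorem four_le (z : {x // x ∈ E} → ZMod 2) (hz : ∀ v, ∑ e : {x // x ∈ E},
    (if inc e.1 v then z e else 0) = 0) (hne : z ≠ 0) :
    4 ≤ (Finset.univ.filter fun e => z e ≠ 0).card := by
  classical
  have key : ∀ (e0 : {x // x ∈ E}) (v : R ⊕ C), inc e0.1 v → z e0 ≠ 0 →
      ∃ e1, e1 ≠ e0 ∧ inc e1.1 v ∧ z e1 ≠ 0 := by
    intro e0 v hv h0
    by_contra hcon
    push Not at hcon
    have := hz v
    rw [Finset.sum_eq_single e0] at this
    · rw [if_pos hv] at this
      exact h0 this
    · intro e _ he
      by_cases hi : inc e.1 v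
      · rw [if_pos hi]; exact hcon e he hi
      · rw [if_neg hi]
    · simp
  obtain ⟨e0, h0⟩ : ∃ e, z e ≠ 0 := by
    by_contra h
    push Not at h
    exact hne (funext h)
  obtain ⟨e1, n1, i1, z1⟩ := key e0 (Sum.inl e0.1.1) (Or.inl rfl) h0
  obtain ⟨e2, n2, i2, z2⟩ := key e0 (Sum.inr e0.1.2) (Or.inr rfl) h0
  obtain ⟨e3, n3, i3, z3⟩ := key e1 (Sum.inr e1.1.2) (Or.inr rfl) z1
  have a1 : e0.1.1 = e1.1.1 := by
    rcases i1 with h | h
    · exact Sum.inl.inj h
    · simp at h
  have a2 : e0.1.2 = e2.1.2 := by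
    rcases i2 with h | h
    · simp at h
    · exact Sum.inr.inj h
  have a3 : e1.1.2 = e3.1.2 := by
    rcases i3 with h | h
    · simp at h
    · exact Sum.inr.inj h
  have b1 : e0.1.2 ≠ e1.1.2 := fun h => n1 (Subtype.ext (Prod.ext a1.symm h.symm))
  have d12 : e1 ≠ e2 := by
    rintro rfl; exact b1 a2
  have d30 : e3 ≠ e0 := by
    rintro rfl; exact b1 a3.symm
  have d32 : e3 ≠ e2 := by
    rintro rfl; exact b1 (a2.trans a3.symm)
  have hsub : ({e0, e1, e2, e3} : Finset {x // x ∈ E}) ⊆ Finset.univ.filter fun e => z e ≠ 0 := by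
    intro e he
    simp only [Finset.mem_insert, Finset.mem_singleton] at he
    simp only [Finset.mem_filter, Finset.mem_univ, true_and]
    rcases he with rfl | rfl | rfl | rfl <;> assumption
  have hcard : ({e0, e1, e2, e3} : Finset {x // x ∈ E}).card = 4 := by
    rw [Finset.card_insert_of_notMem, Finset.card_insert_of_notMem, Finset.card_insert_of_notMem,
      Finset.card_singleton]
    · simp only [Finset.mem_singleton]; exact d32.symm
    · simp only [Finset.mem_insert, Finset.mem_singleton, not_or]; exact ⟨d12, n3.symm⟩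
    · simp only [Finset.mem_insert, Finset.mem_singleton, not_or]
      exact ⟨n1.symm, n2.symm, d30.symm⟩
  rw [← hcard]
  exact Finset.card_le_card hsub

/-- two faces are related when they are separated by a forbidden edge -/
def FRel (f g : Fc) : Prop := ∃ e : Ed, ¬ M.Ok e ∧ f = fa1 e ∧ g = fa2 e

/-- regions -/
def Reg : Type := Quot M.FRel

/-- the region of a face -/
def reg (f : Fc) : M.Reg := Quot.mk M.FRel f

omit [Fintype R] [Fintype C] [DecidableEq R] [DecidableEq C] in
theorem reg_sound {f g : Fc} (h : M.FRel f g) : M.reg f = M.reg g := Quot.sound h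

omit [Fintype R] [Fintype C] [DecidableEq R] [DecidableEq C] in
theorem exists_lift_fun (F : Fc → ZMod 2) (h : ∀ f g, M.FRel f g → F f = F g) :
    ∃ G : M.Reg → ZMod 2, ∀ f, G (M.reg f) = F f := ⟨Quot.lift F h, fun _ => rfl⟩

open Classical in
/-- boundary of a region, as an edge vector of the graph -/
noncomputable def creg (κ : M.Reg) (e : {x // x ∈ E}) : ZMod 2 :=
  (if M.reg (fa1 (M.h e)) = κ then 1 else 0) +
    (if M.reg (fa2 (M.h e)) = κ then 1 else 0)

omit [Fintype R] [Fintype C] in
theorem creg_cycle (κ : M.Reg) (v : R ⊕ C) :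
    ∑ e : {x // x ∈ E}, (if inc e.1 v then M.creg κ e else 0) = 0 := by
  classical
  let F : Fc → ZMod 2 := fun f => if M.reg f = κ then 1 else 0
  have := M.cross (cob F) (bd_cob F) ?_ v
  · exact this
  · intro e he
    have h1 : M.reg (fa1 e) = M.reg (fa2 e) := M.reg_sound ⟨e, he, rfl, rfl⟩
    simp only [cob, F, h1]
    exact zmod2_add_self _

include M in
theorem card_le : E.card ≤ 2 * (Fintype.card R + Fintype.card C) := by
  classical
  let K0 : Finset M.Reg := (Finset.univ.image fun e : {x // x ∈ E} =>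
    M.reg (fa1 (M.h e))) ∪ (Finset.univ.image fun e : {x // x ∈ E} =>
    M.reg (fa2 (M.h e)))
  let K : Finset M.Reg := K0.filter fun κ => M.creg κ ≠ 0
  let Z := LinearMap.ker (bdG E)
  have hspan : Z ≤ Submodule.span (ZMod 2) ((K.image fun κ => M.creg κ : Finset _) : Set _) := by
    intro z hz
    have hz' : ∀ v, ∑ e : {x // x ∈ E}, (if inc e.1 v then z e else 0) = 0 := by
      intro v
      exact congrFun (LinearMap.mem_ker.1 hz) v
    obtain ⟨c, hc, ⟨N, hN⟩, hce, hok⟩ := M.exists_lift z hz'
    obtain ⟨F, hF⟩ := exists_prim c N hN hc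
    have hresp : ∀ f g, M.FRel f g → F f = F g := by
      rintro f g ⟨e, he, rfl, rfl⟩
      have := congrFun hF e
      rw [hok e he] at this
      simp only [cob] at this
      have h2 : ∀ a b : ZMod 2, a + b = 0 → a = b := by decide
      exact h2 _ _ this
    obtain ⟨G, hG⟩ := M.exists_lift_fun F hresp
    have hzeq : z = ∑ κ ∈ K, G κ • M.creg κ := by
      have h1 : ∑ κ ∈ K, G κ • M.creg κ = ∑ κ ∈ K0, G κ • M.creg κ := by
        refine Finset.sum_subset (Finset.filter_subset _ _) ?_
        intro κ hκ hn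
        have : M.creg κ = 0 := by
          by_contra h
          exact hn (Finset.mem_filter.2 ⟨hκ, h⟩)
        rw [this, smul_zero]
      rw [h1]
      funext e
      rw [Finset.sum_apply]
      simp only [Pi.smul_apply, smul_eq_mul, creg, mul_add, mul_ite, mul_one, mul_zero]
      rw [Finset.sum_add_distrib, Finset.sum_ite_eq, Finset.sum_ite_eq, if_pos, if_pos, hG, hG,
        ← hce, ← hF]
      · rfl
      · exact Finset.mem_union_right _ (Finset.mem_image_of_mem _ (Finset.mem_univ e))
      · exact Finset.mem_union_left _ (Finset.mem_image_of_mem _ (Finset.mem_univ e))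
    rw [hzeq]
    refine Submodule.sum_mem _ fun κ hκ => Submodule.smul_mem _ _ (Submodule.subset_span ?_)
    simp only [Finset.coe_image, Set.mem_image, Finset.mem_coe]
    exact ⟨κ, hκ, rfl⟩
  have h1 : Module.finrank (ZMod 2) Z ≤ K.card := by
    calc Module.finrank (ZMod 2) Z ≤ Module.finrank (ZMod 2)
          (Submodule.span (ZMod 2) ((K.image fun κ => M.creg κ : Finset _) : Set
            ({x // x ∈ E} → ZMod 2))) := Submodule.finrank_mono hspan
      _ ≤ (K.image fun κ => M.creg κ).card := finrank_span_finset_le_card _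
      _ ≤ K.card := Finset.card_image_le
  have h2 : E.card ≤ Module.finrank (ZMod 2) Z + (Fintype.card R + Fintype.card C) := by
    have h3 := LinearMap.finrank_range_add_finrank_ker (bdG E)
    have h4 : Module.finrank (ZMod 2) ({x // x ∈ E} → ZMod 2) = E.card := by
      rw [Module.finrank_fintype_fun_eq_card]
      simp
    have h5 : Module.finrank (ZMod 2) (LinearMap.range (bdG E)) ≤
        Fintype.card R + Fintype.card C := by
      calc _ ≤ Module.finrank (ZMod 2) (R ⊕ C → ZMod 2) := Submodule.finrank_le _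
        _ = _ := by rw [Module.finrank_fintype_fun_eq_card, Fintype.card_sum]
    rw [h4] at h3
    have : Module.finrank (ZMod 2) Z = Module.finrank (ZMod 2) (LinearMap.ker (bdG E)) := rfl
    omega
  have h3 : 4 * K.card ≤ 2 * E.card := by
    have h4 : ∑ κ ∈ K, (Finset.univ.filter fun e => M.creg κ e ≠ 0).card ≥ ∑ κ ∈ K, 4 := by
      refine Finset.sum_le_sum fun κ hκ => ?_
      exact four_le _ (M.creg_cycle κ) (Finset.mem_filter.1 hκ).2
    have h5 : ∑ κ ∈ K, (Finset.univ.filter fun e => M.creg κ e ≠ 0).card =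
        ∑ e : {x // x ∈ E}, (K.filter fun κ => M.creg κ e ≠ 0).card := by
      simp only [Finset.card_filter]
      rw [Finset.sum_comm]
    have h6 : ∀ e : {x // x ∈ E}, (K.filter fun κ => M.creg κ e ≠ 0).card ≤ 2 := by
      intro e
      calc (K.filter fun κ => M.creg κ e ≠ 0).card ≤
          ({M.reg (fa1 (M.h e)), M.reg (fa2 (M.h e))} : Finset M.Reg).card := by
            refine Finset.card_le_card fun κ hκ => ?_
            have := (Finset.mem_filter.1 hκ).2
            simp only [Finset.mem_insert, Finset.mem_singleton]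
            by_contra hcon
            push Not at hcon
            apply this
            simp only [creg]
            rw [if_neg hcon.1.symm, if_neg hcon.2.symm, add_zero]
        _ ≤ 2 := Finset.card_le_two
    have h7 : ∑ e : {x // x ∈ E}, (K.filter fun κ => M.creg κ e ≠ 0).card ≤
        ∑ _e : {x // x ∈ E}, 2 := Finset.sum_le_sum fun e _ => h6 e
    simp only [Finset.sum_const, smul_eq_mul, Finset.card_univ, Fintype.card_coe] at h4 h7
    omega
  omega

end Model

end Pool.Agent.H30.Thk
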