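import Pool.Agent.H30.Thk.Book

/-!
An algebra of two-page book drawings (contents): concatenation, nesting in a pair of poles,
and splitting a pair of poles by a single vertex.
-/

open Set

set_option linter.unusedSectionVars false
set_option linter.unusedVariables false

namespace Pool.Agent.H30.Thk

variable {V : Type} [DecidableEq V]

/-- One page of a book drawing. The arcs are oriented from left to right, `X` consists of
vertices which are not strictly below an arc. -/
structure Page (l : List V) (A : Set (V × V)) (X : Set V) : Prop where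
  mem : ∀ u v, (u, v) ∈ A → u ∈ l ∧ v ∈ l
  lt : ∀ u v, (u, v) ∈ A → l.idxOf u < l.idxOf v
  nc : ∀ u v u' v', (u, v) ∈ A → (u', v') ∈ A → l.idxOf u < l.idxOf u' → l.idxOf u' < l.idxOf v →
    l.idxOf v < l.idxOf v' → False
  sub : ∀ v ∈ X, v ∈ l
  exp : ∀ x ∈ X, ∀ u v, (u, v) ∈ A → l.idxOf u < l.idxOf x → l.idxOf x < l.idxOf v → False

namespace Page

variable {l l₁ l₂ : List V} {A A₁ A₂ : Set (V × V)} {X X₁ X₂ : Set V}

theorem mono (h : Page l A₁ X₁) (hA : A₂ ⊆ A₁) (hX : X₂ ⊆ X₁) : Page l A₂ X₂ where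
  mem u v huv := h.mem u v (hA huv)
  lt u v huv := h.lt u v (hA huv)
  nc u v u' v' h1 h2 := h.nc u v u' v' (hA h1) (hA h2)
  sub v hv := h.sub v (hX hv)
  exp x hx u v huv := h.exp x (hX hx) u v (hA huv)

theorem noarc (l : List V) : Page l ∅ {v | v ∈ l} where
  mem u v h := h.elim
  lt u v h := h.elim
  nc u v u' v' h := h.elim
  sub v h := h
  exp x _ u v h := h.elim

theorem app (hn : (l₁ ++ l₂).Nodup) (h₁ : Page l₁ A₁ X₁) (h₂ : Page l₂ A₂ X₂) :
    Page (l₁ ++ l₂) (A₁ ∪ A₂) (X₁ ∪ X₂) := by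
  have hd := List.disjoint_of_nodup_append hn
  have i1 : ∀ v ∈ l₁, (l₁ ++ l₂).idxOf v = l₁.idxOf v := fun v hv =>
    List.idxOf_append_of_mem hv
  have i2 : ∀ v ∈ l₂, (l₁ ++ l₂).idxOf v = l₁.length + l₂.idxOf v := fun v hv =>
    List.idxOf_append_of_notMem (fun h => hd h hv)
  have b1 : ∀ v ∈ l₁, l₁.idxOf v < l₁.length := fun v hv => List.idxOf_lt_length_iff.2 hv
  refine ⟨?_, ?_, ?_, ?_, ?_⟩
  · rintro u v (h | h)
    · exact ⟨List.mem_append_left _ (h₁.mem u v h).1, List.mem_append_left _ (h₁.mem u v h).2⟩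
    · exact ⟨List.mem_append_right _ (h₂.mem u v h).1, List.mem_append_right _ (h₂.mem u v h).2⟩
  · rintro u v (h | h)
    · rw [i1 _ (h₁.mem u v h).1, i1 _ (h₁.mem u v h).2]
      exact h₁.lt u v h
    · rw [i2 _ (h₂.mem u v h).1, i2 _ (h₂.mem u v h).2]
      have := h₂.lt u v h
      omega
  · rintro u v u' v' (h | h) (h' | h')
    · rw [i1 _ (h₁.mem u v h).1, i1 _ (h₁.mem u v h).2, i1 _ (h₁.mem u' v' h').1,
        i1 _ (h₁.mem u' v' h').2]
      exact h₁.nc u v u' v' h h'
    · rw [i1 _ (h₁.mem u v h).1, i1 _ (h₁.mem u v h).2, i2 _ (h₂.mem u' v' h').1,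
        i2 _ (h₂.mem u' v' h').2]
      have := b1 _ (h₁.mem u v h).2
      omega
    · rw [i2 _ (h₂.mem u v h).1, i2 _ (h₂.mem u v h).2, i1 _ (h₁.mem u' v' h').1,
        i1 _ (h₁.mem u' v' h').2]
      have := b1 _ (h₁.mem u' v' h').1
      omega
    · rw [i2 _ (h₂.mem u v h).1, i2 _ (h₂.mem u v h).2, i2 _ (h₂.mem u' v' h').1,
        i2 _ (h₂.mem u' v' h').2]
      have := h₂.nc u v u' v' h h'
      intro a b c
      exact this (by omega) (by omega) (by omega)
  · rintro v (h | h)
    · exact List.mem_append_left _ (h₁.sub v h)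
    · exact List.mem_append_right _ (h₂.sub v h)
  · rintro x (hx | hx) u v (h | h)
    · rw [i1 _ (h₁.mem u v h).1, i1 _ (h₁.mem u v h).2, i1 _ (h₁.sub x hx)]
      exact h₁.exp x hx u v h
    · rw [i2 _ (h₂.mem u v h).1, i1 _ (h₁.sub x hx)]
      have := b1 _ (h₁.sub x hx)
      omega
    · rw [i1 _ (h₁.mem u v h).2, i2 _ (h₂.sub x hx)]
      have := b1 _ (h₁.mem u v h).2
      omega
    · rw [i2 _ (h₂.mem u v h).1, i2 _ (h₂.mem u v h).2, i2 _ (h₂.sub x hx)]
      have := h₂.exp x hx u v h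
      intro a b
      exact this (by omega) (by omega)

/-- put a new vertex at the left and join it to the exposed vertices and possibly to the last
vertex of a longer list -/
theorem left {c : V} (hn : (c :: l).Nodup) (h : Page l A X) :
    Page (c :: l) (A ∪ {e | e.1 = c ∧ e.2 ∈ X}) {c} := by
  have hc : c ∉ l := (List.nodup_cons.1 hn).1
  have i0 : (c :: l).idxOf c = 0 := by simp
  have i1 : ∀ v ∈ l, (c :: l).idxOf v = l.idxOf v + 1 := fun v hv => by
    rw [List.idxOf_cons_ne]
    rintro rfl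
    exact hc hv
  refine ⟨?_, ?_, ?_, ?_, ?_⟩
  · rintro u v (huv | ⟨h1, h2⟩)
    · exact ⟨List.mem_cons_of_mem _ (h.mem u v huv).1, List.mem_cons_of_mem _ (h.mem u v huv).2⟩
    · simp only at h1 h2
      subst h1
      exact ⟨by simp, List.mem_cons_of_mem _ (h.sub v h2)⟩
  · rintro u v (huv | ⟨h1, h2⟩)
    · rw [i1 _ (h.mem u v huv).1, i1 _ (h.mem u v huv).2]
      have := h.lt u v huv
      omega
    · simp only at h1 h2
      subst h1
      rw [i0, i1 _ (h.sub v h2)]
      omega
  · rintro u v u' v' (h1 | ⟨h1, h1'⟩) (h2 | ⟨h2, h2'⟩)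
    · rw [i1 _ (h.mem u v h1).1, i1 _ (h.mem u v h1).2, i1 _ (h.mem u' v' h2).1,
        i1 _ (h.mem u' v' h2).2]
      have := h.nc u v u' v' h1 h2
      intro a b c
      exact this (by omega) (by omega) (by omega)
    · simp only at h2 h2'
      subst h2
      rw [i0]
      omega
    · simp only at h1 h1'
      subst h1
      rw [i0, i1 _ (h.sub v h1'), i1 _ (h.mem u' v' h2).1, i1 _ (h.mem u' v' h2).2]
      have := h.exp v h1' u' v' h2
      intro a b c
      exact this (by omega) (by omega)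
    · simp only at h1 h2
      subst h1
      subst h2
      omega
  · rintro v rfl
    simp
  · rintro x rfl u v _
    rw [i0]
    omega

/-- put a new vertex at the right and join it to the exposed vertices -/
theorem right {d : V} (hn : (l ++ [d]).Nodup) (h : Page l A X) :
    Page (l ++ [d]) (A ∪ {e | e.1 ∈ X ∧ e.2 = d}) {d} := by
  have hd : d ∉ l := fun hd => (List.disjoint_of_nodup_append hn) hd (by simp)
  have i0 : (l ++ [d]).idxOf d = l.length := by
    rw [List.idxOf_append_of_notMem hd]; simp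
  have i1 : ∀ v ∈ l, (l ++ [d]).idxOf v = l.idxOf v := fun v hv => List.idxOf_append_of_mem hv
  have b1 : ∀ v ∈ l, l.idxOf v < l.length := fun v hv => List.idxOf_lt_length_iff.2 hv
  refine ⟨?_, ?_, ?_, ?_, ?_⟩
  · rintro u v (huv | ⟨h1, h2⟩)
    · exact ⟨List.mem_append_left _ (h.mem u v huv).1, List.mem_append_left _ (h.mem u v huv).2⟩
    · simp only at h1 h2
      subst h2
      exact ⟨List.mem_append_left _ (h.sub u h1), by simp⟩
  · rintro u v (huv | ⟨h1, h2⟩)
    · rw [i1 _ (h.mem u v huv).1, i1 _ (h.mem u v huv).2]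
      exact h.lt u v huv
    · simp only at h1 h2
      subst h2
      rw [i0, i1 _ (h.sub u h1)]
      exact b1 _ (h.sub u h1)
  · rintro u v u' v' (h1 | ⟨h1, h1'⟩) (h2 | ⟨h2, h2'⟩)
    · rw [i1 _ (h.mem u v h1).1, i1 _ (h.mem u v h1).2, i1 _ (h.mem u' v' h2).1,
        i1 _ (h.mem u' v' h2).2]
      exact h.nc u v u' v' h1 h2
    · simp only at h2 h2'
      subst h2'
      rw [i0, i1 _ (h.sub u' h2), i1 _ (h.mem u v h1).1, i1 _ (h.mem u v h1).2]
      have := h.exp u' h2 u v h1
      intro a b c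
      exact this (by omega) (by omega)
    · simp only at h1 h1'
      subst h1'
      rw [i0, i1 _ (h.mem u' v' h2).2]
      have := b1 _ (h.mem u' v' h2).2
      omega
    · simp only at h1' h2'
      subst h1'
      subst h2'
      omega
  · rintro v rfl
    simp
  · rintro x rfl u v huv
    rw [i0]
    rcases huv with huv | ⟨h1, h2⟩
    · rw [i1 _ (h.mem u v huv).2]
      have := b1 _ (h.mem u v huv).2
      omega
    · simp only at h2
      subst h2
      rw [i0]
      omega

/-- two poles, the left sgl is joined to the exposed vertices and to the right sgl -/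
theorem brL {c d : V} (hn : (c :: (l ++ [d])).Nodup) (h : Page l A X) :
    Page (c :: (l ++ [d])) (A ∪ {e | e.1 = c ∧ (e.2 ∈ X ∨ e.2 = d)}) {c, d} := by
  have hn' := (List.nodup_cons.1 hn).2
  have h1 : Page (l ++ [d]) (A ∪ ∅) (X ∪ {v | v ∈ [d]}) := app hn' h (noarc [d])
  have h2 := left hn h1
  have hc : c ∉ l ++ [d] := (List.nodup_cons.1 hn).1
  have i0 : (c :: (l ++ [d])).idxOf c = 0 := by simp
  have hdl : d ∉ l := fun hd => (List.disjoint_of_nodup_append hn') hd (by simp)
  have i1 : ∀ v ∈ l ++ [d], (c :: (l ++ [d])).idxOf v = (l ++ [d]).idxOf v + 1 := fun v hv => by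
    rw [List.idxOf_cons_ne]
    rintro rfl
    exact hc hv
  have id : (c :: (l ++ [d])).idxOf d = l.length + 1 := by
    rw [i1 d (by simp), List.idxOf_append_of_notMem hdl]; simp
  have h3 : ∀ v ∈ c :: (l ++ [d]), (c :: (l ++ [d])).idxOf v ≤ l.length + 1 := by
    intro v hv
    have := List.idxOf_lt_length_iff.2 hv
    simp only [List.length_cons, List.length_append, List.length_nil] at this
    omega
  have hA : (A ∪ {e | e.1 = c ∧ (e.2 ∈ X ∨ e.2 = d)}) ⊆
      (A ∪ ∅ ∪ {e | e.1 = c ∧ e.2 ∈ X ∪ {v | v ∈ [d]}}) := by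
    rintro e (he | ⟨h1, h2⟩)
    · exact Or.inl (Or.inl he)
    · refine Or.inr ⟨h1, ?_⟩
      rcases h2 with h2 | h2
      · exact Or.inl h2
      · exact Or.inr (by simp [h2])
  have h4 := h2.mono hA (le_refl _)
  refine ⟨h4.mem, h4.lt, h4.nc, ?_, ?_⟩
  · rintro v (rfl | rfl) <;> simp
  · rintro x hx u v huv a b
    rcases hx with rfl | hx
    · exact h4.exp x rfl u v huv a b
    · simp only [mem_singleton_iff] at hx
      subst hx
      have := h3 v (h4.mem u v huv).2
      omega

/-- two poles, the right sgl is joined to the exposed vertices and to the left sgl -/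
theorem brR {c d : V} (hn : (c :: (l ++ [d])).Nodup) (h : Page l A X) :
    Page (c :: (l ++ [d])) (A ∪ {e | (e.1 ∈ X ∨ e.1 = c) ∧ e.2 = d}) {c, d} := by
  have hn0 : ([c] ++ l).Nodup := by
    have : (c :: l ++ [d]).Nodup := by simpa using hn
    exact (List.nodup_append.1 this).1
  have h1 : Page ([c] ++ l) (∅ ∪ A) ({v | v ∈ [c]} ∪ X) := app hn0 (noarc [c]) h
  have hn1 : (([c] ++ l) ++ [d]).Nodup := by simpa using hn
  have h2 := right hn1 h1
  have e0 : ([c] ++ l) ++ [d] = c :: (l ++ [d]) := by simp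
  rw [e0] at h2
  have hA : (A ∪ {e | (e.1 ∈ X ∨ e.1 = c) ∧ e.2 = d}) ⊆
      (∅ ∪ A ∪ {e | e.1 ∈ ({v | v ∈ [c]} ∪ X : Set V) ∧ e.2 = d}) := by
    rintro e (he | ⟨h1, h2⟩)
    · exact Or.inl (Or.inr he)
    · refine Or.inr ⟨?_, h2⟩
      rcases h1 with h1 | h1
      · exact Or.inr h1
      · exact Or.inl (by simp [h1])
  have h4 := h2.mono hA (le_refl _)
  have i0 : (c :: (l ++ [d])).idxOf c = 0 := by simp
  refine ⟨h4.mem, h4.lt, h4.nc, ?_, ?_⟩
  · rintro v (rfl | rfl) <;> simp
  · rintro x hx u v huv a b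
    rcases hx with rfl | hx
    · omega
    · exact h4.exp x hx u v huv a b

end Page

/-- contents: a list of vertices with arcs on two pages and exposed vertices on both sides -/
structure Cont (V : Type) where
  ord : List V
  top : Set (V × V)
  bot : Set (V × V)
  et : Set V
  eb : Set V

namespace Cont

/-- a content is fine if it is a two-page drawing whenever it has no repeated vertex -/
def Ok (G : Cont V) : Prop :=
  G.ord.Nodup → Page G.ord G.top G.et ∧ Page G.ord G.bot G.eb

omit [DecidableEq V] in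
/-- the empty content -/
def nil : Cont V := ⟨[], ∅, ∅, ∅, ∅⟩

/-- a single vertex -/
def sgl (v : V) : Cont V := ⟨[v], ∅, ∅, {v}, {v}⟩

/-- concatenation -/
def app (G H : Cont V) : Cont V :=
  ⟨G.ord ++ H.ord, G.top ∪ H.top, G.bot ∪ H.bot, G.et ∪ H.et, G.eb ∪ H.eb⟩

/-- `G` between two poles -/
def nest (c d : V) (G : Cont V) : Cont V :=
  ⟨c :: (G.ord ++ [d]), G.top ∪ {e | e.1 = c ∧ e.2 ∈ G.et}, G.bot ∪ {e | e.1 ∈ G.eb ∧ e.2 = d},
    {c, d}, {c, d}⟩

/-- a pair of poles split by a single vertex -/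
def tri (c d z : V) (G H : Cont V) : Cont V :=
  ⟨(c :: (G.ord ++ [z])) ++ (H.ord ++ [d]),
    (G.top ∪ {e | (e.1 ∈ G.et ∨ e.1 = c) ∧ e.2 = z}) ∪ H.top,
    G.bot ∪ (H.bot ∪ {e | e.1 = z ∧ (e.2 ∈ H.eb ∨ e.2 = d)}),
    {c, d} ∪ H.et, {c, d} ∪ G.eb⟩

/-- an optional content -/
def opt (P : Prop) [Decidable P] (G : Cont V) : Cont V := if P then G else nil

/-- a family of contents -/
def fam {ι : Type} (l : List ι) (G : ι → Cont V) : Cont V :=
  match l with
  | [] => nil
  | i :: l => app (G i) (fam l G)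

theorem ok_nil : (nil : Cont V).Ok := fun _ =>
  ⟨(Page.noarc []).mono (le_refl _) (empty_subset _), (Page.noarc []).mono (le_refl _)
    (empty_subset _)⟩

theorem ok_sgl (v : V) : (sgl v).Ok := fun _ =>
  ⟨(Page.noarc [v]).mono (le_refl _) (by rintro x rfl; simp),
    (Page.noarc [v]).mono (le_refl _) (by rintro x rfl; simp)⟩

theorem ok_app {G H : Cont V} (hG : G.Ok) (hH : H.Ok) : (app G H).Ok := fun hn => by
  have hn1 := (List.nodup_append.1 hn).1
  have hn2 := (List.nodup_append.1 hn).2.1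
  exact ⟨Page.app hn (hG hn1).1 (hH hn2).1, Page.app hn (hG hn1).2 (hH hn2).2⟩

theorem ok_opt {P : Prop} [Decidable P] {G : Cont V} (hG : G.Ok) : (opt P G).Ok := by
  unfold opt
  split
  · exact hG
  · exact ok_nil

theorem ok_fam {ι : Type} {l : List ι} {G : ι → Cont V} (hG : ∀ i, (G i).Ok) : (fam l G).Ok := by
  induction l with
  | nil => exact ok_nil
  | cons i l ih => exact ok_app (hG i) ih

theorem ok_nest {c d : V} {G : Cont V} (hG : G.Ok) : (nest c d G).Ok := fun hn => by
  have hn' : G.ord.Nodup := by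
    have h1 := (List.nodup_cons.1 hn).2
    exact (List.nodup_append.1 h1).1
  refine ⟨(Page.brL hn (hG hn').1).mono ?_ (le_refl _), (Page.brR hn (hG hn').2).mono ?_ (le_refl _)⟩
  · rintro e (h | ⟨h1, h2⟩)
    · exact Or.inl h
    · exact Or.inr ⟨h1, Or.inl h2⟩
  · rintro e (h | ⟨h1, h2⟩)
    · exact Or.inl h
    · exact Or.inr ⟨Or.inl h1, h2⟩

theorem ok_tri {c d z : V} {G H : Cont V} (hG : G.Ok) (hH : H.Ok) : (tri c d z G H).Ok := by
  intro hn
  change ((c :: (G.ord ++ [z])) ++ (H.ord ++ [d])).Nodup at hn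
  have hn1 := (List.nodup_append.1 hn).1
  have hn2 := (List.nodup_append.1 hn).2.1
  have hnG : G.ord.Nodup := (List.nodup_append.1 (List.nodup_cons.1 hn1).2).1
  have hnH : H.ord.Nodup := (List.nodup_append.1 hn2).1
  constructor
  · have h1 := Page.app hn (Page.brR hn1 (hG hnG).1) (Page.app hn2 (hH hnH).1 (Page.noarc [d]))
    refine h1.mono ?_ ?_
    · rintro e (h | h)
      · exact Or.inl h
      · exact Or.inr (Or.inl h)
    · rintro v ((rfl | rfl) | h)
      · exact Or.inl (Or.inl rfl)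
      · exact Or.inr (Or.inr (by simp))
      · exact Or.inr (Or.inl h)
  · have e0 : (c :: (G.ord ++ [z])) ++ (H.ord ++ [d]) =
        [c] ++ (G.ord ++ (z :: (H.ord ++ [d]))) := by simp
    have hn3 := hn
    rw [e0] at hn3
    have hn4 := (List.nodup_append.1 hn3).2.1
    have hn5 := (List.nodup_append.1 hn4).2.1
    have h1 := Page.app hn3 (Page.noarc [c]) (Page.app hn4 (hG hnG).2 (Page.brL hn5 (hH hnH).2))
    rw [← e0] at h1
    refine h1.mono ?_ ?_
    · rintro e (h | h | h)
      · exact Or.inr (Or.inl h)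
      · exact Or.inr (Or.inr (Or.inl h))
      · exact Or.inr (Or.inr (Or.inr h))
    · rintro v ((rfl | rfl) | h)
      · exact Or.inl (by simp)
      · exact Or.inr (Or.inr (Or.inr rfl))
      · exact Or.inr (Or.inl h)

/-! ### Counting occurrences -/

theorem count_nil (v : V) : (nil : Cont V).ord.count v = 0 := rfl

theorem count_sgl (v w : V) : (sgl w).ord.count v = if w = v then 1 else 0 := by
  simp [sgl, List.count_cons]

theorem count_app (v : V) (G H : Cont V) :
    (app G H).ord.count v = G.ord.count v + H.ord.count v := by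
  simp [app]

theorem count_opt (v : V) (P : Prop) [Decidable P] (G : Cont V) :
    (opt P G).ord.count v = if P then G.ord.count v else 0 := by
  unfold opt
  split <;> simp [nil]

theorem count_nest (v c d : V) (G : Cont V) :
    (nest c d G).ord.count v =
      (if c = v then 1 else 0) + G.ord.count v + (if d = v then 1 else 0) := by
  simp [nest, List.count_cons]
  ring

theorem count_tri (v c d z : V) (G H : Cont V) :
    (tri c d z G H).ord.count v =
      (if c = v then 1 else 0) + G.ord.count v + (if z = v then 1 else 0) + H.ord.count v +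
        (if d = v then 1 else 0) := by
  simp [tri, List.count_cons]
  ring

theorem count_fam (v : V) {ι : Type} (l : List ι) (G : ι → Cont V) :
    (fam l G).ord.count v = (l.map fun i => (G i).ord.count v).sum := by
  induction l with
  | nil => rfl
  | cons i l ih =>
    rw [fam, count_app, ih]
    simp

theorem count_famR (v : V) (n : ℕ) (G : ℕ → Cont V) :
    (fam (List.range n) G).ord.count v = ∑ i ∈ Finset.range n, (G i).ord.count v := by
  rw [count_fam]
  rw [Finset.sum_eq_multiset_sum]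
  rfl

theorem count_famB (v : V) (G : Bool → Cont V) :
    (fam [false, true] G).ord.count v = (G false).ord.count v + (G true).ord.count v := by
  rw [count_fam]
  simp

/-! ### Adjacency -/

omit [DecidableEq V] in
/-- adjacency in a content -/
def Adj (G : Cont V) (u v : V) : Prop :=
  ((u, v) ∈ G.top ∨ (u, v) ∈ G.bot) ∨ ((v, u) ∈ G.top ∨ (v, u) ∈ G.bot)

/-- `H` is a part of `G` -/
def Le (H G : Cont V) : Prop := H.top ⊆ G.top ∧ H.bot ⊆ G.bot

theorem Adj.le {G H : Cont V} {u v : V} (h : H.Adj u v) (hle : Le H G) : G.Adj u v := by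
  rcases h with (h | h) | (h | h)
  · exact Or.inl (Or.inl (hle.1 h))
  · exact Or.inl (Or.inr (hle.2 h))
  · exact Or.inr (Or.inl (hle.1 h))
  · exact Or.inr (Or.inr (hle.2 h))

theorem Adj.symm {G : Cont V} {u v : V} (h : G.Adj u v) : G.Adj v u := h.elim Or.inr Or.inl

theorem Le.refl (G : Cont V) : Le G G := ⟨le_refl _, le_refl _⟩

theorem Le.trans {G H K : Cont V} (h : Le G H) (h' : Le H K) : Le G K :=
  ⟨h.1.trans h'.1, h.2.trans h'.2⟩

theorem le_app_left (G H : Cont V) : Le G (app G H) :=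
  ⟨subset_union_left, subset_union_left⟩

theorem le_app_right (G H : Cont V) : Le H (app G H) :=
  ⟨subset_union_right, subset_union_right⟩

theorem le_nest (c d : V) (G : Cont V) : Le G (nest c d G) :=
  ⟨subset_union_left, subset_union_left⟩

theorem le_tri_left (c d z : V) (G H : Cont V) : Le G (tri c d z G H) :=
  ⟨fun _ h => Or.inl (Or.inl h), fun _ h => Or.inl h⟩

theorem le_tri_right (c d z : V) (G H : Cont V) : Le H (tri c d z G H) :=
  ⟨fun _ h => Or.inr h, fun _ h => Or.inr (Or.inl h)⟩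

theorem le_opt {P : Prop} [Decidable P] (G : Cont V) (h : P) : Le G (opt P G) := by
  unfold opt
  rw [if_pos h]
  exact Le.refl G

theorem le_fam {ι : Type} {l : List ι} (G : ι → Cont V) {i : ι} (hi : i ∈ l) :
    Le (G i) (fam l G) := by
  induction l with
  | nil => simp at hi
  | cons j l ih =>
    rcases List.mem_cons.1 hi with rfl | hi
    · exact le_app_left _ _
    · exact (ih hi).trans (le_app_right _ _)

theorem adj_nest_left {c d : V} {G : Cont V} {v : V} (h : v ∈ G.et) : (nest c d G).Adj c v :=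
  Or.inl (Or.inl (Or.inr ⟨rfl, h⟩))

theorem adj_nest_right {c d : V} {G : Cont V} {v : V} (h : v ∈ G.eb) : (nest c d G).Adj d v :=
  Or.inr (Or.inr (Or.inr ⟨h, rfl⟩))

theorem adj_tri_c {c d z : V} {G H : Cont V} : (tri c d z G H).Adj z c :=
  Or.inr (Or.inl (Or.inl (Or.inr ⟨Or.inr rfl, rfl⟩)))

theorem adj_tri_d {c d z : V} {G H : Cont V} : (tri c d z G H).Adj z d :=
  Or.inl (Or.inr (Or.inr (Or.inr ⟨rfl, Or.inr rfl⟩)))

theorem adj_tri_left {c d z : V} {G H : Cont V} {v : V} (h : v ∈ G.et) :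
    (tri c d z G H).Adj z v :=
  Or.inr (Or.inl (Or.inl (Or.inr ⟨Or.inl h, rfl⟩)))

theorem adj_tri_right {c d z : V} {G H : Cont V} {v : V} (h : v ∈ H.eb) :
    (tri c d z G H).Adj z v :=
  Or.inl (Or.inr (Or.inr (Or.inr ⟨rfl, Or.inl h⟩)))

/-! exposure -/

/-- exposed on both sides -/
def Ex (G : Cont V) (v : V) : Prop := v ∈ G.et ∧ v ∈ G.eb

theorem ex_sgl (v : V) : (sgl v).Ex v := ⟨rfl, rfl⟩

theorem ex_app_left {G H : Cont V} {v : V} (h : G.Ex v) : (app G H).Ex v :=
  ⟨Or.inl h.1, Or.inl h.2⟩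

theorem ex_app_right {G H : Cont V} {v : V} (h : H.Ex v) : (app G H).Ex v :=
  ⟨Or.inr h.1, Or.inr h.2⟩

theorem ex_opt {P : Prop} [Decidable P] {G : Cont V} {v : V} (hP : P) (h : G.Ex v) :
    (opt P G).Ex v := by
  unfold opt
  rw [if_pos hP]
  exact h

theorem ex_fam {ι : Type} {l : List ι} {G : ι → Cont V} {i : ι} (hi : i ∈ l) {v : V}
    (h : (G i).Ex v) : (fam l G).Ex v := by
  induction l with
  | nil => simp at hi
  | cons j l ih =>
    rcases List.mem_cons.1 hi with rfl | hi
    · exact ex_app_left h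
    · exact ex_app_right (ih hi)

theorem ex_nest_c (c d : V) (G : Cont V) : (nest c d G).Ex c := ⟨Or.inl rfl, Or.inl rfl⟩

theorem ex_nest_d (c d : V) (G : Cont V) : (nest c d G).Ex d := ⟨Or.inr rfl, Or.inr rfl⟩

theorem ex_tri_c (c d z : V) (G H : Cont V) : (tri c d z G H).Ex c :=
  ⟨Or.inl (Or.inl rfl), Or.inl (Or.inl rfl)⟩

theorem ex_tri_d (c d z : V) (G H : Cont V) : (tri c d z G H).Ex d :=
  ⟨Or.inl (Or.inr rfl), Or.inl (Or.inr rfl)⟩

/-- contents exposed below only, inside a larger content -/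
theorem eb_tri_left {c d z : V} {G H : Cont V} {v : V} (h : v ∈ G.eb) :
    v ∈ (tri c d z G H).eb := Or.inr h

theorem et_tri_right {c d z : V} {G H : Cont V} {v : V} (h : v ∈ H.et) :
    v ∈ (tri c d z G H).et := Or.inr h

end Cont

/-- **Contents give drawings.** -/
theorem Drawable.of_cont {U : Type} [Fintype U] (G : Cont V) (hok : G.Ok) (hn : G.ord.Nodup)
    (φ : U → V) (hφ : Function.Injective φ) (H : SimpleGraph U)
    (hH : ∀ u v, H.Adj u v → G.Adj (φ u) (φ v)) : Drawable H := by
  classical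
  let l' : List V := ((Finset.univ : Finset U).toList.map φ).filter (fun v => v ∉ G.ord)
  have hn' : l'.Nodup := by
    apply List.Nodup.filter
    exact (List.nodup_map_iff hφ).2 (Finset.nodup_toList _)
  have hN : (G.ord ++ l').Nodup := by
    rw [List.nodup_append]
    refine ⟨hn, hn', ?_⟩
    intro a ha b hb hab
    subst hab
    have := (List.mem_filter.1 hb).2
    simp at this
    exact this ha
  have hmem : ∀ u : U, φ u ∈ G.ord ++ l' := by
    intro u
    by_cases h : φ u ∈ G.ord
    · exact List.mem_append_left _ h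
    · apply List.mem_append_right
      exact List.mem_filter.2 ⟨List.mem_map.2 ⟨u, by simp, rfl⟩, by simpa using h⟩
  have hT : Page (G.ord ++ l') G.top G.et :=
    (Page.app hN (hok hn).1 (Page.noarc l')).mono subset_union_left subset_union_left
  have hB : Page (G.ord ++ l') G.bot G.eb :=
    (Page.app hN (hok hn).2 (Page.noarc l')).mono subset_union_left subset_union_left
  let L := G.ord ++ l'
  refine Drawable.of_book H (fun u => ((L.idxOf (φ u) : ℕ) : ℝ)) ?_
    (fun u v => decide ((φ u, φ v) ∈ G.top ∨ (φ v, φ u) ∈ G.top)) ?_ ?_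
  · intro u v h
    have h0 : ((L.idxOf (φ u) : ℕ) : ℝ) = ((L.idxOf (φ v) : ℕ) : ℝ) := h
    have h1 : L.idxOf (φ u) = L.idxOf (φ v) := by exact_mod_cast h0
    exact hφ ((List.idxOf_inj (hmem u)).1 h1)
  · intro u v _
    simp only [decide_eq_decide]
    exact Or.comm
  · intro u v u' v' h h' ht h1 h2 h3
    have h1' : L.idxOf (φ u) < L.idxOf (φ u') := by exact_mod_cast h1
    have h2' : L.idxOf (φ u') < L.idxOf (φ v) := by exact_mod_cast h2
    have h3' : L.idxOf (φ v) < L.idxOf (φ v') := by exact_mod_cast h3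
    simp only [decide_eq_decide] at ht
    have key : ∀ {x y : U}, H.Adj x y → L.idxOf (φ x) < L.idxOf (φ y) →
        ((φ x, φ y) ∈ G.top ∨ (φ y, φ x) ∈ G.top) → (φ x, φ y) ∈ G.top := by
      intro x y _ hlt hor
      rcases hor with hor | hor
      · exact hor
      · have := hT.lt _ _ hor
        exact absurd this (by show ¬ (L.idxOf _ < L.idxOf _); omega)
    have key' : ∀ {x y : U}, H.Adj x y → L.idxOf (φ x) < L.idxOf (φ y) →
        ¬ ((φ x, φ y) ∈ G.top ∨ (φ y, φ x) ∈ G.top) → (φ x, φ y) ∈ G.bot := by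
      intro x y hxy hlt hor
      push Not at hor
      rcases hH x y hxy with (k | k) | (k | k)
      · exact absurd k hor.1
      · exact k
      · exact absurd k hor.2
      · have := hB.lt _ _ k
        exact absurd this (by show ¬ (L.idxOf _ < L.idxOf _); omega)
    by_cases hc : (φ u, φ v) ∈ G.top ∨ (φ v, φ u) ∈ G.top
    · exact hT.nc _ _ _ _ (key h (by omega) hc) (key h' (by omega) (ht.1 hc)) h1' h2' h3'
    · exact hB.nc _ _ _ _ (key' h (by omega) hc) (key' h' (by omega) (fun hh => hc (ht.2 hh)))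
        h1' h2' h3'

end Pool.Agent.H30.Thk
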