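import Pool.Agent.H30.Thk.Model
import Pool.Agent.H30.Thk.Cells

set_option autoImplicit false

/-! # Drawings of bipartite graphs by arcs give minor models in the triangular lattice -/

namespace Pool.Agent.H30.Thk

open Set Filter Topology Relation

/-- A drawing of the bipartite graph with edge set `E` by arcs in the plane. -/
structure Drawing (R C : Type) (E : Finset (R × C)) where
  p : R ⊕ C → ℝ × ℝ
  inj : Function.Injective p
  γ : R → C → unitInterval → ℝ × ℝ
  cont : ∀ a b, (a, b) ∈ E → Continuous (γ a b)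
  start : ∀ a b, (a, b) ∈ E → γ a b 0 = p (Sum.inl a)
  stop : ∀ a b, (a, b) ∈ E → γ a b 1 = p (Sum.inr b)
  avoid : ∀ a b, (a, b) ∈ E → ∀ t, t ≠ 0 → t ≠ 1 → ∀ w, γ a b t ≠ p w
  disj : ∀ a b a' b', (a, b) ∈ E → (a', b') ∈ E → ∀ t t', t ≠ 0 → t ≠ 1 → t' ≠ 0 → t' ≠ 1 →
    γ a b t = γ a' b' t' → a = a' ∧ b = b'

theorem ev_ball {S : Set (ℝ × ℝ)} (hS : IsClosed S) {x : ℝ × ℝ} (hx : x ∉ S) :
    ∀ᶠ ρ in 𝓝[>] (0 : ℝ), Disjoint (Metric.closedBall x ρ) S := by
  obtain ⟨ε, hε, hb⟩ := Metric.isOpen_iff.1 hS.isOpen_compl x hx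
  filter_upwards [Ioo_mem_nhdsGT hε] with ρ hρ
  rw [Set.disjoint_left]
  intro y hy hyS
  exact hb (Metric.closedBall_subset_ball hρ.2 hy) hyS

theorem ev_ball_ball {x y : ℝ × ℝ} (h : x ≠ y) :
    ∀ᶠ ρ in 𝓝[>] (0 : ℝ), Disjoint (Metric.closedBall x ρ) (Metric.closedBall y ρ) := by
  have hd : 0 < dist x y / 2 := half_pos (dist_pos.2 h)
  filter_upwards [Ioo_mem_nhdsGT hd] with ρ hρ
  apply Metric.closedBall_disjoint_closedBall
  linarith [hρ.2]

namespace Drawing

variable {R C : Type} [Fintype R] [Fintype C] {E : Finset (R × C)} (D : Drawing R C E)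

/-- good radius -/
structure Good (ρ : ℝ) : Prop where
  pos : 0 < ρ
  balls : ∀ a a', a ≠ a' →
    Disjoint (Metric.closedBall (D.p (Sum.inl a)) ρ) (Metric.closedBall (D.p (Sum.inl a')) ρ)
  arcs : ∀ a a' b, a' ≠ a → (a', b) ∈ E →
    Disjoint (Metric.closedBall (D.p (Sum.inl a)) ρ) (range (D.γ a' b))
  ends : ∀ a b, D.p (Sum.inr b) ∉ Metric.closedBall (D.p (Sum.inl a)) ρ

theorem exists_good : ∃ ρ, D.Good ρ := by
  have h1 : ∀ᶠ ρ in 𝓝[>] (0 : ℝ), ∀ a a', a ≠ a' →
      Disjoint (Metric.closedBall (D.p (Sum.inl a)) ρ)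
        (Metric.closedBall (D.p (Sum.inl a')) ρ) := by
    rw [eventually_all]; intro a
    rw [eventually_all]; intro a'
    by_cases h : a = a'
    · exact Eventually.of_forall fun ρ h' => absurd h h'
    · filter_upwards [ev_ball_ball (x := D.p (Sum.inl a)) (y := D.p (Sum.inl a'))
        (fun h' => h (Sum.inl.inj (D.inj h')))] with ρ hρ _
      exact hρ
  have h2 : ∀ᶠ ρ in 𝓝[>] (0 : ℝ), ∀ a a' b, a' ≠ a → (a', b) ∈ E →
      Disjoint (Metric.closedBall (D.p (Sum.inl a)) ρ) (range (D.γ a' b)) := by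
    rw [eventually_all]; intro a
    rw [eventually_all]; intro a'
    rw [eventually_all]; intro b
    by_cases h : a' ≠ a ∧ (a', b) ∈ E
    · have hc : IsClosed (range (D.γ a' b)) :=
        (isCompact_range (D.cont a' b h.2)).isClosed
      have hx : D.p (Sum.inl a) ∉ range (D.γ a' b) := by
        rintro ⟨t, ht⟩
        by_cases h0 : t = 0
        · rw [h0, D.start _ _ h.2] at ht
          exact h.1 (Sum.inl.inj (D.inj ht))
        · by_cases h1 : t = 1
          · rw [h1, D.stop _ _ h.2] at ht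
            have := D.inj ht
            simp at this
          · exact D.avoid _ _ h.2 t h0 h1 _ ht
      filter_upwards [ev_ball hc hx] with ρ hρ _ _
      exact hρ
    · exact Eventually.of_forall fun ρ ha hb => absurd ⟨ha, hb⟩ h
  have h3 : ∀ᶠ ρ in 𝓝[>] (0 : ℝ), ∀ a b,
      D.p (Sum.inr b) ∉ Metric.closedBall (D.p (Sum.inl a)) ρ := by
    rw [eventually_all]; intro a
    rw [eventually_all]; intro b
    filter_upwards [ev_ball (x := D.p (Sum.inl a)) (isClosed_singleton (x := D.p (Sum.inr b)))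
      (by
        intro h
        have := D.inj (Set.mem_singleton_iff.1 h)
        simp at this)] with ρ hρ h
    exact Set.disjoint_left.1 hρ h rfl
  have h4 : ∀ᶠ ρ in 𝓝[>] (0 : ℝ), 0 < ρ := self_mem_nhdsWithin
  obtain ⟨ρ, ⟨⟨a, b⟩, c⟩, d⟩ := (((h1.and h2).and h3).and h4).exists
  exact ⟨ρ, ⟨d, a, b, c⟩⟩

variable {D} {ρ : ℝ}

omit [Fintype R] [Fintype C] in
/-- the last time at which an arc is in the ball around its start -/
theorem exists_last (hρ : D.Good ρ) {a : R} {b : C} (h : (a, b) ∈ E) :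
    ∃ t : unitInterval, t ≠ 0 ∧ t ≠ 1 ∧ dist (D.γ a b t) (D.p (Sum.inl a)) = ρ ∧
      ∀ t', D.γ a b t' ∈ Metric.closedBall (D.p (Sum.inl a)) ρ → t' ≤ t := by
  let T : Set unitInterval := {t | D.γ a b t ∈ Metric.closedBall (D.p (Sum.inl a)) ρ}
  have hT : IsClosed T := Metric.isClosed_closedBall.preimage (D.cont a b h)
  have hne : T.Nonempty := ⟨0, by
    show D.γ a b 0 ∈ Metric.closedBall (D.p (Sum.inl a)) ρ
    rw [D.start _ _ h]
    exact Metric.mem_closedBall_self hρ.pos.le⟩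
  obtain ⟨t, ht, hmax⟩ := hT.isCompact.exists_isGreatest hne
  have ht1 : t ≠ 1 := by
    rintro rfl
    have : D.γ a b 1 ∈ Metric.closedBall (D.p (Sum.inl a)) ρ := ht
    rw [D.stop _ _ h] at this
    exact hρ.ends a b this
  have hd : dist (D.γ a b t) (D.p (Sum.inl a)) = ρ := by
    refine le_antisymm ht ?_
    by_contra hlt
    push Not at hlt
    have hopen : IsOpen {s : unitInterval | dist (D.γ a b s) (D.p (Sum.inl a)) < ρ} :=
      isOpen_lt ((D.cont a b h).dist continuous_const) continuous_const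
    have hev : ∀ᶠ s in 𝓝 t, dist (D.γ a b s) (D.p (Sum.inl a)) < ρ := hopen.mem_nhds hlt
    have hlt1 : t < 1 := lt_of_le_of_ne unitInterval.le_one' ht1
    have : (𝓝[>] t).NeBot := nhdsGT_neBot_of_exists_gt ⟨1, hlt1⟩
    have hev2 : ∀ᶠ s in 𝓝[>] t, dist (D.γ a b s) (D.p (Sum.inl a)) < ρ ∧ t < s :=
      (hev.filter_mono nhdsWithin_le_nhds).and self_mem_nhdsWithin
    obtain ⟨s, hs1, hs2⟩ := hev2.exists
    have : s ≤ t := hmax (show s ∈ T from hs1.le)
    exact absurd hs2 (not_lt.2 this)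
  refine ⟨t, ?_, ht1, hd, fun t' ht' => hmax ht'⟩
  rintro rfl
  rw [D.start _ _ h, dist_self] at hd
  exact hρ.pos.ne hd

/-- last time, chosen -/
noncomputable def last (hρ : D.Good ρ) {a : R} {b : C} (h : (a, b) ∈ E) : unitInterval :=
  (exists_last hρ h).choose

omit [Fintype R] [Fintype C] in
theorem last_spec (hρ : D.Good ρ) {a : R} {b : C} (h : (a, b) ∈ E) :
    last hρ h ≠ 0 ∧ last hρ h ≠ 1 ∧ dist (D.γ a b (last hρ h)) (D.p (Sum.inl a)) = ρ ∧
      ∀ t', D.γ a b t' ∈ Metric.closedBall (D.p (Sum.inl a)) ρ → t' ≤ last hρ h :=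
  (exists_last hρ h).choose_spec

/-- the star around a column vertex -/
def K (hρ : D.Good ρ) (b : C) : Set (ℝ × ℝ) :=
  {D.p (Sum.inr b)} ∪ ⋃ a, ⋃ h : (a, b) ∈ E, D.γ a b '' Set.Icc (last hρ h) 1

/-- the spoke from a row vertex -/
def seg (hρ : D.Good ρ) {a : R} {b : C} (h : (a, b) ∈ E) : Set (ℝ × ℝ) :=
  segment ℝ (D.p (Sum.inl a)) (D.γ a b (last hρ h))

omit [Fintype C] in
theorem K_compact (hρ : D.Good ρ) (b : C) : IsCompact (K hρ b) := by
  refine isCompact_singleton.union (isCompact_iUnion fun a => ?_)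
  by_cases h : (a, b) ∈ E
  · have : (⋃ h : (a, b) ∈ E, D.γ a b '' Set.Icc (last hρ h) 1) =
        D.γ a b '' Set.Icc (last hρ h) 1 := by
      simp [h]
    rw [this]
    exact isCompact_Icc.image (D.cont a b h)
  · have : (⋃ h : (a, b) ∈ E, D.γ a b '' Set.Icc (last hρ h) 1) = ∅ := by
      simp [h]
    rw [this]
    exact isCompact_empty

omit [Fintype R] [Fintype C] in
theorem K_conn (hρ : D.Good ρ) (b : C) : IsPreconnected (K hρ b) := by
  have h1 : K hρ b = ⋃₀ ({{D.p (Sum.inr b)}} ∪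
      {S | ∃ a, ∃ h : (a, b) ∈ E, S = D.γ a b '' Set.Icc (last hρ h) 1}) := by
    ext x
    simp only [K, mem_union, mem_singleton_iff, mem_iUnion, mem_sUnion, mem_setOf_eq]
    constructor
    · rintro (h | ⟨a, h, hx⟩)
      · exact ⟨_, Or.inl rfl, h⟩
      · exact ⟨_, Or.inr ⟨a, h, rfl⟩, hx⟩
    · rintro ⟨S, rfl | ⟨a, h, rfl⟩, hx⟩
      · exact Or.inl hx
      · exact Or.inr ⟨a, h, hx⟩
  rw [h1]
  refine isPreconnected_sUnion (D.p (Sum.inr b)) _ ?_ ?_
  · rintro S (rfl | ⟨a, h, rfl⟩)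
    · rfl
    · exact ⟨1, ⟨unitInterval.le_one', le_refl _⟩, D.stop _ _ h⟩
  · rintro S (rfl | ⟨a, h, rfl⟩)
    · exact isPreconnected_singleton
    · exact isPreconnected_Icc.image _ (D.cont a b h).continuousOn

omit [Fintype R] [Fintype C] in
/-- points of a star -/
theorem mem_K (hρ : D.Good ρ) {b : C} {x : ℝ × ℝ} (hx : x ∈ K hρ b) :
    x = D.p (Sum.inr b) ∨ ∃ a, ∃ h : (a, b) ∈ E, ∃ t : unitInterval, t ≠ 0 ∧ t ≠ 1 ∧
      last hρ h ≤ t ∧ x = D.γ a b t := by
  rcases hx with hx | hx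
  · exact Or.inl hx
  · simp only [mem_iUnion] at hx
    obtain ⟨a, h, t, ⟨ht1, -⟩, rfl⟩ := hx
    by_cases h1 : t = 1
    · left; rw [h1, D.stop _ _ h]
    · right
      refine ⟨a, h, t, ?_, h1, ht1, rfl⟩
      rintro rfl
      exact (last_spec hρ h).1 (le_antisymm ht1 unitInterval.nonneg')

omit [Fintype R] [Fintype C] in
theorem K_disj (hρ : D.Good ρ) {b b' : C} (hb : b ≠ b') : Disjoint (K hρ b) (K hρ b') := by
  rw [Set.disjoint_left]
  intro x hx hx'
  rcases mem_K hρ hx with rfl | ⟨a, h, t, h0, h1, -, rfl⟩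
  · rcases mem_K hρ hx' with h | ⟨a, h, t, h0, h1, -, h2⟩
    · exact hb (Sum.inr.inj (D.inj h))
    · exact D.avoid _ _ h t h0 h1 _ h2.symm
  · rcases mem_K hρ hx' with h' | ⟨a', h', t', h0', h1', -, h2⟩
    · exact D.avoid _ _ h t h0 h1 _ h'
    · exact hb (D.disj _ _ _ _ h h' t t' h0 h1 h0' h1' h2).2

omit [Fintype R] [Fintype C] in
/-- a star meets a ball only in the end point of a spoke -/
theorem K_ball (hρ : D.Good ρ) {a : R} {b : C} {x : ℝ × ℝ} (hx : x ∈ K hρ b)
    (hb : x ∈ Metric.closedBall (D.p (Sum.inl a)) ρ) :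
    ∃ h : (a, b) ∈ E, x = D.γ a b (last hρ h) := by
  rcases mem_K hρ hx with rfl | ⟨a', h, t, h0, h1, h2, rfl⟩
  · exact absurd hb (hρ.ends a b)
  · by_cases ha : a' = a
    · subst ha
      have := (last_spec hρ h).2.2.2 t hb
      refine ⟨h, ?_⟩
      rw [le_antisymm this h2]
    · exact absurd (mem_range_self t) (Set.disjoint_left.1 (hρ.arcs a a' b ha h) hb)

omit [Fintype R] [Fintype C] in
theorem seg_ball (hρ : D.Good ρ) {a : R} {b : C} (h : (a, b) ∈ E) :
    seg hρ h ⊆ Metric.closedBall (D.p (Sum.inl a)) ρ := by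
  refine (convex_closedBall _ _).segment_subset (Metric.mem_closedBall_self hρ.pos.le) ?_
  exact (last_spec hρ h).2.2.1.le

omit [Fintype R] [Fintype C] in
theorem seg_sphere (hρ : D.Good ρ) {a : R} {b : C} (h : (a, b) ∈ E) {x : ℝ × ℝ}
    (hx : x ∈ seg hρ h) (hd : dist x (D.p (Sum.inl a)) = ρ) : x = D.γ a b (last hρ h) := by
  rw [seg, segment_eq_image_lineMap] at hx
  obtain ⟨τ, ⟨h0, h1⟩, rfl⟩ := hx
  rw [dist_lineMap_left, dist_comm (D.p (Sum.inl a)), (last_spec hρ h).2.2.1, Real.norm_eq_abs,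
    abs_of_nonneg h0] at hd
  have : τ = 1 := by
    have hp := hρ.pos
    have : τ * ρ = 1 * ρ := by rw [hd, one_mul]
    exact mul_right_cancel₀ hp.ne' this
  rw [this, AffineMap.lineMap_apply_one]

omit [Fintype R] [Fintype C] in
theorem seg_K (hρ : D.Good ρ) {a : R} {b b' : C} (h : (a, b) ∈ E) (hb : b' ≠ b) :
    Disjoint (seg hρ h) (K hρ b') := by
  rw [Set.disjoint_left]
  intro x hx hx'
  obtain ⟨h', e⟩ := K_ball hρ hx' (seg_ball hρ h hx)
  have hd : dist x (D.p (Sum.inl a)) = ρ := by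
    rw [e]; exact (last_spec hρ h').2.2.1
  have e2 := seg_sphere hρ h hx hd
  have := D.disj _ _ _ _ h h' _ _ (last_spec hρ h).1 (last_spec hρ h).2.1 (last_spec hρ h').1
    (last_spec hρ h').2.1 (e2.symm.trans e)
  exact hb this.2.symm

omit [Fintype R] [Fintype C] in
theorem start_K (hρ : D.Good ρ) (a : R) (b : C) : D.p (Sum.inl a) ∉ K hρ b := by
  intro hx
  obtain ⟨h', e⟩ := K_ball hρ hx (Metric.mem_closedBall_self hρ.pos.le)
  have hd := (last_spec hρ h').2.2.1
  rw [← e, dist_self] at hd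
  exact hρ.pos.ne hd

omit [Fintype R] [Fintype C] in
theorem seg_compact (hρ : D.Good ρ) {a : R} {b : C} (h : (a, b) ∈ E) :
    IsCompact (seg hρ h) := by
  rw [seg, segment_eq_image_lineMap]
  exact isCompact_Icc.image (by fun_prop)

omit [Fintype R] [Fintype C] in
theorem seg_conn (hρ : D.Good ρ) {a : R} {b : C} (h : (a, b) ∈ E) :
    IsPreconnected (seg hρ h) := (convex_segment _ _).isPreconnected

/-- good mesh -/
structure Fine (hρ : D.Good ρ) (n : ℕ) : Prop where
  kk : ∀ b b', b ≠ b' → Disjoint (cells n (K hρ b)) (cells n (K hρ b'))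
  sk : ∀ a b b' (h : (a, b) ∈ E), b' ≠ b → Disjoint (cells n (seg hρ h)) (cells n (K hρ b'))
  bb : ∀ a a', a ≠ a' → Disjoint (cells n (Metric.closedBall (D.p (Sum.inl a)) ρ))
    (cells n (Metric.closedBall (D.p (Sum.inl a')) ρ))
  pk : ∀ a b, Disjoint (cells n {D.p (Sum.inl a)}) (cells n (K hρ b))

theorem exists_fine (hρ : D.Good ρ) : ∃ n, Fine hρ n := by
  have h1 : ∀ᶠ n : ℕ in atTop, ∀ b b', b ≠ b' →
      Disjoint (cells n (K hρ b)) (cells n (K hρ b')) := by
    rw [eventually_all]; intro b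
    rw [eventually_all]; intro b'
    by_cases h : b = b'
    · exact Eventually.of_forall fun _ h' => absurd h h'
    · filter_upwards [cells_disjoint (K_compact hρ b) (K_compact hρ b').isClosed
        (K_disj hρ h)] with n hn _
      exact hn
  have h2 : ∀ᶠ n : ℕ in atTop, ∀ a b b' (h : (a, b) ∈ E), b' ≠ b →
      Disjoint (cells n (seg hρ h)) (cells n (K hρ b')) := by
    rw [eventually_all]; intro a
    rw [eventually_all]; intro b
    rw [eventually_all]; intro b'
    by_cases h : (a, b) ∈ E ∧ b' ≠ b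
    · filter_upwards [cells_disjoint (seg_compact hρ h.1) (K_compact hρ b').isClosed
        (seg_K hρ h.1 h.2)] with n hn _ _
      exact hn
    · exact Eventually.of_forall fun _ ha hb => absurd ⟨ha, hb⟩ h
  have h3 : ∀ᶠ n : ℕ in atTop, ∀ a a', a ≠ a' →
      Disjoint (cells n (Metric.closedBall (D.p (Sum.inl a)) ρ))
        (cells n (Metric.closedBall (D.p (Sum.inl a')) ρ)) := by
    rw [eventually_all]; intro a
    rw [eventually_all]; intro a'
    by_cases h : a = a'
    · exact Eventually.of_forall fun _ h' => absurd h h'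
    · filter_upwards [cells_disjoint (isCompact_closedBall (D.p (Sum.inl a)) ρ)
        (Metric.isClosed_closedBall (x := D.p (Sum.inl a')) (ε := ρ))
        (hρ.balls a a' h)] with n hn _
      exact hn
  have h4 : ∀ᶠ n : ℕ in atTop, ∀ a b,
      Disjoint (cells n {D.p (Sum.inl a)}) (cells n (K hρ b)) := by
    rw [eventually_all]; intro a
    rw [eventually_all]; intro b
    exact cells_disjoint isCompact_singleton (K_compact hρ b).isClosed
      (Set.disjoint_singleton_left.2 (start_K hρ a b))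
  obtain ⟨n, ⟨⟨a, b⟩, c⟩, d⟩ := (((h1.and h2).and h3).and h4).exists
  exact ⟨n, ⟨a, b, c, d⟩⟩

omit [Fintype R] [Fintype C] in
/-- reachability inside a set -/
theorem reach_cells {n : ℕ} {S : Set (ℝ × ℝ)} (hS : Bornology.IsBounded S)
    (hc : IsPreconnected S) {r : Pt} (hr : r ∈ cells n S) {q : Pt} (hq : q ∈ cells n S) :
    ReflTransGen (fun p q => LAdj p q ∧ p ∈ cells n S ∧ q ∈ cells n S) r q := by
  by_contra hcon
  obtain ⟨p, ⟨hp1, hp2⟩, q', ⟨hq1, hq2⟩, hadj⟩ := cells_conn hS hc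
    {q ∈ cells n S | ReflTransGen (fun p q => LAdj p q ∧ p ∈ cells n S ∧ q ∈ cells n S) r q}
    (fun _ h => h.1) ⟨r, hr, ReflTransGen.refl⟩ ⟨q, hq, fun h => hcon h.2⟩
  exact hq2 ⟨hq1, hp2.tail ⟨hadj, hp1, hq1⟩⟩

theorem exists_model (D : Drawing R C E) : Nonempty (Model R C E) := by
  classical
  obtain ⟨ρ, hρ⟩ := D.exists_good
  obtain ⟨n, hn⟩ := exists_fine hρ
  choose p0 hp0 using fun a : R => exists_cell n (D.p (Sum.inl a))
  choose r0 hr0 using fun b : C => exists_cell n (D.p (Sum.inr b))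
  let B : R → Set Pt := fun a => {q | (q = p0 a ∨ ∃ b, ∃ h : (a, b) ∈ E, q ∈ cells n (seg hρ h)) ∧
    ∀ b, q ∉ cells n (K hρ b)}
  let Y : R → Set Pt := fun a =>
    {q | ReflTransGen (fun p q => LAdj p q ∧ p ∈ B a ∧ q ∈ B a) (p0 a) q}
  have hp0B : ∀ a, p0 a ∈ B a := fun a => ⟨Or.inl rfl, fun b =>
    Set.disjoint_left.1 (hn.pk a b) ⟨_, hp0 a, rfl⟩⟩
  have hYB : ∀ a, Y a ⊆ B a := by
    intro a q hq
    have hq' : ReflTransGen (fun p q => LAdj p q ∧ p ∈ B a ∧ q ∈ B a) (p0 a) q := hq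
    rcases ReflTransGen.cases_tail hq' with h | ⟨_, _, h⟩
    · rw [h]; exact hp0B a
    · exact h.2.2
  have hBball : ∀ a, B a ⊆ cells n (Metric.closedBall (D.p (Sum.inl a)) ρ) := by
    rintro a q ⟨h | ⟨b, h, hq⟩, -⟩
    · rw [h]
      exact ⟨_, hp0 a, Metric.mem_closedBall_self hρ.pos.le⟩
    · exact cells_mono (seg_ball hρ h) hq
  have hYfin : ∀ a, (Y a).Finite := fun a =>
    (cells_finite Metric.isBounded_closedBall).subset ((hYB a).trans (hBball a))
  have hKfin : ∀ b, (cells n (K hρ b)).Finite := fun b =>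
    cells_finite (K_compact hρ b).isBounded
  have hYK : ∀ a b, Disjoint (Y a) (cells n (K hρ b)) := by
    intro a b
    rw [Set.disjoint_left]
    intro q hq
    exact (hYB a hq).2 b
  have hYY : ∀ a a', a ≠ a' → Disjoint (Y a) (Y a') := by
    intro a a' h
    exact (hn.bb a a' h).mono ((hYB a).trans (hBball a)) ((hYB a').trans (hBball a'))
  refine ⟨{ X := fun v => Sum.elim (fun a => (hYfin a).toFinset) (fun b => (hKfin b).toFinset) v
            disj := ?_
            root := Sum.elim p0 r0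
            conn := ?_
            edge := ?_ }⟩
  · rintro (a | b) (a' | b') h
    · simp only [Sum.elim_inl]
      rw [Set.Finite.disjoint_toFinset]
      exact hYY a a' fun h' => h (by rw [h'])
    · simp only [Sum.elim_inl, Sum.elim_inr]
      rw [Set.Finite.disjoint_toFinset]
      exact hYK a b'
    · simp only [Sum.elim_inl, Sum.elim_inr]
      rw [Set.Finite.disjoint_toFinset]
      exact (hYK a' b).symm
    · simp only [Sum.elim_inr]
      rw [Set.Finite.disjoint_toFinset]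
      exact hn.kk b b' fun h' => h (by rw [h'])
  · rintro (a | b) p hp
    · simp only [Sum.elim_inl, Set.Finite.mem_toFinset] at hp ⊢
      have hp' : ReflTransGen (fun p q => LAdj p q ∧ p ∈ B a ∧ q ∈ B a) (p0 a) p := hp
      clear hp
      induction hp' with
      | refl => exact ReflTransGen.refl
      | tail h1 h2 ih =>
        exact ih.tail ⟨h2.1, h1, h1.tail h2⟩
    · simp only [Sum.elim_inr, Set.Finite.mem_toFinset] at hp ⊢
      exact reach_cells (K_compact hρ b).isBounded (K_conn hρ b) ⟨_, hr0 b, Or.inl rfl⟩ hp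
  · rintro ⟨a, b⟩ he
    have hstart : p0 a ∈ cells n (seg hρ he) := ⟨_, hp0 a, left_mem_segment ℝ _ _⟩
    obtain ⟨q1, hq1⟩ := exists_cell n (D.γ a b (last hρ he))
    have hq1s : q1 ∈ cells n (seg hρ he) := ⟨_, hq1, right_mem_segment ℝ _ _⟩
    have hq1K : q1 ∈ cells n (K hρ b) := by
      refine ⟨_, hq1, Or.inr ?_⟩
      simp only [mem_iUnion]
      exact ⟨a, he, _, ⟨le_refl _, unitInterval.le_one'⟩, rfl⟩
    obtain ⟨q, ⟨hqs, hqY⟩, q', ⟨hq's, hq'n⟩, hadj⟩ := cells_conn
      (seg_compact hρ he).isBounded (seg_conn hρ he) {q ∈ cells n (seg hρ he) | q ∈ Y a}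
      (fun _ h => h.1) ⟨p0 a, hstart, ReflTransGen.refl⟩
      ⟨q1, hq1s, fun h => Set.disjoint_left.1 (hYK a b) h.2 hq1K⟩
    have hq'Y : q' ∉ Y a := fun h => hq'n ⟨hq's, h⟩
    have hq'K : q' ∈ cells n (K hρ b) := by
      by_contra hcon
      apply hq'Y
      refine ReflTransGen.tail hqY ⟨hadj, hYB a hqY, Or.inr ⟨b, he, hq's⟩, fun b' => ?_⟩
      by_cases hb : b' = b
      · rw [hb]; exact hcon
      · exact Set.disjoint_left.1 (hn.sk a b b' he hb) hq's
    obtain ⟨d, hd | hd⟩ := hadj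
    · refine ⟨(q, d), Or.inl ⟨?_, ?_⟩⟩
      · simpa using hqY
      · have : tip (q, d) = q' := hd.symm
        rw [this]
        simpa using hq'K
    · refine ⟨(q', d), Or.inr ⟨?_, ?_⟩⟩
      · simpa using hq'K
      · have : tip (q', d) = q := hd.symm
        rw [this]
        simpa using hqY

/-- **A bipartite graph drawn in the plane by arcs has at most `2n` edges.** -/
theorem card_le (D : Drawing R C E) : E.card ≤ 2 * (Fintype.card R + Fintype.card C) := by
  classical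
  obtain ⟨M⟩ := D.exists_model
  exact M.card_le

end Drawing

end Pool.Agent.H30.Thk
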